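import Pool.Agent.Lib_MP_7c0803_x.Defs

/-!
# Basic facts on `Star`
-/

set_option autoImplicit false

open Finset Function

namespace Pool.Agent.PP

universe u v

variable {E : Type u} {A : Type v} {B : CB E} {f : Fin 3 → Equiv.Perm A} {x y : A × Bool}

/-- the `k`-th edge at `x` -/
def Star.T (S : Star B f x y) (k : Fin 3) : E := S.i (ie f x k)

lemma Star.T_def (S : Star B f x y) (k : Fin 3) : S.T k = S.i (ie f x k) := rfl

lemma Star.T_p (S : Star B f x y) (k : Fin 3) : S.p x.2 (S.T k) = x := by
  rw [S.T_def, S.hi, en_ie]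

lemma Star.T_p' (S : Star B f x y) (k : Fin 3) : S.p (!x.2) (S.T k) = nb f x k := by
  rw [S.T_def, S.hi, en_ie']

lemma Star.T_ne (S : Star B f x y) (k : Fin 3) : S.p (!x.2) (S.T k) ≠ x := by
  rw [S.T_p']
  exact nb_ne f x k

lemma Star.T_inj (S : Star B f x y) (hf : Smp f) {k l : Fin 3} (h : S.T k = S.T l) : k = l := by
  have h1 : ie f x k = ie f x l := hf.en_inj (fun z => by rw [← S.hi z, ← S.hi z]; exact congrArg (S.p z) h)
  have := congrArg Prod.snd h1
  simpa using this

lemma Star.T_ex (S : Star B f x y) (k : Fin 3) (z : Bool) : S.T k ≠ S.ex z := S.hne z _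

lemma Star.ex_ne (S : Star B f x y) (z : Bool) : S.ex z ≠ S.ex (!z) := by
  intro h
  have h1 := S.hx z
  have h2 := S.hy (!z)
  rw [Bool.not_not, ← h, h1] at h2
  exact S.hxy h2

/-- the `z'`-end of `ex z` is in the fibre of `x` only for `z' = z` -/
lemma Star.ex_p (S : Star B f x y) (z z' : Bool) (h : S.p z' (S.ex z) = x) : z' = z := by
  by_contra hne
  have : z' = !z := by
    cases z <;> cases z' <;> simp_all
  subst this
  rw [S.hy] at h
  exact S.hxy h.symm

lemma SO_inv {W : Type*} (B : CB E) (p : Bool → E → W) (hp : ∀ z e, p z (B.r z e) = p z e) {z : Bool} {e e' : E}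
    (h : SO (B.r z) e e') : p z e' = p z e := by
  rcases h with h | h
  · rw [h, hp]
  · rw [h, hp, hp]

/-- both ends of `m` are in the fibre of `x` -/
lemma Star.m_p (S : Star B f x y) (z : Bool) : S.p z S.m = x := by
  rw [← SO_inv B S.p S.hp (S.hm z)]
  exact S.hx z

lemma Star.m'_p (S : Star B f x y) (z : Bool) : S.p z S.m' = y := by
  rw [← SO_inv B S.p S.hp (S.hm' z)]
  have := S.hy (!z)
  rwa [Bool.not_not] at this

/-- the edges with the `x.2`-end, but not the other end in the fibre of `x` -/
lemma Star.cls (S : Star B f x y) {e : E} (h : S.p x.2 e = x) (h' : S.p (!x.2) e ≠ x) :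
    (∃ k, S.T k = e) ∨ e = S.ex x.2 := by
  have hne : S.p false e ≠ S.p true e := by
    intro h1
    apply h'
    revert h h'
    generalize x.2 = z
    intro h h'
    cases z
    · exact h1.symm.trans h
    · exact h1.trans h
  rcases S.hin e with h1 | ⟨q, rfl⟩ | ⟨z, rfl⟩
  · exact absurd h1 hne
  · left
    rw [S.hi] at h
    exact ⟨q.2, by rw [S.T_def, ← (en_eq f h).2]⟩
  · right
    rw [← S.ex_p z x.2 h]

/-- the edge with the other end, but not the `x.2`-end in the fibre of `x` -/
lemma Star.cls' (S : Star B f x y) {e : E} (h : S.p (!x.2) e = x) (h' : S.p x.2 e ≠ x) : e = S.ex (!x.2) := by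
  have hne : S.p false e ≠ S.p true e := by
    intro h1
    apply h'
    revert h h'
    generalize x.2 = z
    intro h h'
    cases z
    · exact h1.trans h
    · exact h1.symm.trans h
  rcases S.hin e with h1 | ⟨q, rfl⟩ | ⟨z, rfl⟩
  · exact absurd h1 hne
  · rw [S.hi] at h
    have := (en_eq f h).1
    revert this
    generalize x.2 = z
    cases z <;> simp
  · rw [← S.ex_p z (!x.2) h]

/-- the edges with exactly one end in the fibre of `x` -/
lemma Star.bd (S : Star B f x y) (e : E) :
    ¬ (S.p false e = x ↔ S.p true e = x) ↔ (∃ k, S.T k = e) ∨ ∃ z, S.ex z = e := by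
  constructor
  · intro h
    by_cases h1 : S.p x.2 e = x
    · have h2 : S.p (!x.2) e ≠ x := by
        intro h2
        apply h
        revert h1 h2
        generalize x.2 = z
        cases z <;> intro h1 h2 <;> simp_all
      rcases S.cls h1 h2 with h3 | h3
      · exact Or.inl h3
      · exact Or.inr ⟨_, h3.symm⟩
    · have h2 : S.p (!x.2) e = x := by
        by_contra h2
        apply h
        revert h1 h2
        generalize x.2 = z
        cases z <;> intro h1 h2 <;> simp_all
      exact Or.inr ⟨_, (S.cls' h2 h1).symm⟩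
  · rintro (⟨k, rfl⟩ | ⟨z, rfl⟩) h
    · have h1 := S.T_p k
      have h2 := S.T_ne k
      revert h1 h2
      generalize x.2 = z
      cases z <;> intro h1 h2 <;> simp_all
    · have h1 := S.hx z
      have h2 := S.hy z
      have h3 := S.hxy
      revert h1 h2
      cases z <;> intro h1 h2 <;> simp_all

/-- the edges of `BG f` with an end at `x` -/
lemma Star.i_p (S : Star B f x y) {q : A × Fin 3} {z : Bool} (h : S.p z (S.i q) = x) : z = x.2 ∧ q = ie f x q.2 := by
  rw [S.hi] at h
  exact en_eq f h

lemma OCtr.bd (C : OCtr B f) (w : A × Bool) (e : E) :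
    ¬ (C.p false e = w ↔ C.p true e = w) ↔ ∃ k, C.i (ie f w k) = e := by
  constructor
  · intro h
    rcases C.hin e with h1 | ⟨q, rfl⟩
    · exact absurd (by rw [h1]) h
    · refine ⟨q.2, ?_⟩
      have h2 : en f q false = w ∨ en f q true = w := by
        by_contra h3
        push Not at h3
        apply h
        rw [C.hi, C.hi]
        exact iff_of_false h3.1 h3.2
      rcases h2 with h2 | h2
      · rw [← (en_eq f h2).2]
      · rw [← (en_eq f h2).2]
  · rintro ⟨k, rfl⟩ h
    rw [C.hi, C.hi] at h
    have h1 := en_ie f w k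
    have h2 := en_ie' f w k
    have h3 := nb_ne f w k
    rw [← h2] at h3
    revert h1 h3
    generalize w.2 = z
    cases z <;> intro h1 h3 <;> simp_all

end Pool.Agent.PP
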