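import Mathlib

/-!
# Contractions of simple graphs

`ContractsOnto G H`: the vertices of `G` can be divided into connected sets, one for every vertex of `H`, such that `H` arises by contracting
them: an edge of `G` between two different sets joins the sets of adjacent vertices of `H`, and every edge of `H` comes from exactly one edge
of `G`.
-/

set_option autoImplicit false

namespace Pool.Agent.PP

universe u v w

/-- `G` contracts onto `H` (every edge of `H` comes from exactly one edge of `G`) -/
def ContractsOnto {V : Type u} {W : Type v} (G : SimpleGraph V) (H : SimpleGraph W) : Prop :=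
  ∃ π : V → W, (∀ x, (G.induce {v | π v = x}).Connected) ∧ (∀ u v, G.Adj u v → π u = π v ∨ H.Adj (π u) (π v)) ∧
    ∀ x y, H.Adj x y → ∃! d : V × V, G.Adj d.1 d.2 ∧ π d.1 = x ∧ π d.2 = y

/-- [X-M3] -/
theorem ContractsOnto.iso {V : Type u} {W : Type v} {W' : Type w} {G : SimpleGraph V} {H : SimpleGraph W} {H' : SimpleGraph W'}
    (φ : H ≃g H') (h : ContractsOnto G H) : ContractsOnto G H' := by
  obtain ⟨π, h1, h2, h3⟩ := h
  refine ⟨fun v => φ (π v), ?_, ?_, ?_⟩
  · intro x
    have : {v | φ (π v) = x} = {v | π v = φ.symm x} := by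
      ext v
      simp only [Set.mem_setOf_eq]
      constructor
      · intro h
        rw [← h, RelIso.symm_apply_apply]
      · intro h
        rw [h, RelIso.apply_symm_apply]
    rw [this]
    exact h1 _
  · intro u v h
    rcases h2 u v h with h4 | h4
    · exact Or.inl (congrArg φ h4)
    · exact Or.inr (φ.map_rel_iff.2 h4)
  · intro x y h
    have h4 : H.Adj (φ.symm x) (φ.symm y) := by
      rw [← φ.map_rel_iff, RelIso.apply_symm_apply, RelIso.apply_symm_apply]
      exact h
    obtain ⟨d, ⟨a, b, c⟩, hu⟩ := h3 _ _ h4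
    refine ⟨d, ⟨a, ?_, ?_⟩, ?_⟩
    · show φ (π d.1) = x
      rw [b, RelIso.apply_symm_apply]
    · show φ (π d.2) = y
      rw [c, RelIso.apply_symm_apply]
    rintro d' ⟨a', b', c'⟩
    refine hu d' ⟨a', ?_, ?_⟩
    · show π d'.1 = φ.symm x
      rw [← b', RelIso.symm_apply_apply]
    · show π d'.2 = φ.symm y
      rw [← c', RelIso.symm_apply_apply]

end Pool.Agent.PP
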