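import Pool.Agent.Lib_MP_7c0803_x.Base

/-!
# [X-N0] Certificates for `Both`

The vertices of `BG f` are numbered by `vi w < 2 n` (the `X`-vertices first), the edges by `ei q < 32`; `T` codes the numbers of the three edges at every
vertex (`evx T v l`), `N` codes a colouring (`dg N e` is the colour of the edge with the number `e`).

`both_of_ck`: `φ q = Fin.ofNat 3 (dg N (ei q))` (i.e. `dg N (ei q) % 3`), `φ'` the same with `N'`.  `vok`: `4 ^ a + 4 ^ b + 4 ^ c = 21` with `a, b, c < 4` iff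
`{a, b, c} = {0, 1, 2}` (finite check).  `vpa`: `sg (b - a)` for different `a, b < 3`.
-/

set_option autoImplicit false

open Finset Function

namespace Pool.Agent.PP

universe v

/-- the digit of `N` in base four -/
def dg (N e : ℕ) : ℕ := N / 4 ^ e % 4

/-- the number of the `l`-th edge at the vertex number `v` -/
def evx (T v l : ℕ) : ℕ := T / 32 ^ (3 * v + l) % 32

/-- the three colours at the vertex number `v` are `0, 1, 2` -/
def vok (T N v : ℕ) : Bool := Nat.beq (4 ^ dg N (evx T v 0) + 4 ^ dg N (evx T v 1) + 4 ^ dg N (evx T v 2)) 21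

/-- the parity at the vertex number `v` -/
def vpa (T N v : ℕ) : ℕ := (dg N (evx T v 1) + 3 - dg N (evx T v 0)) % 3 % 2

/-- the `l`-th edge at `v` has the colour `2` for `l = j`, `o` for `l ≠ j` -/
def xok (T N v j o : ℕ) : Bool :=
  Nat.beq (dg N (evx T v 0)) (if Nat.beq j 0 then 2 else o) && Nat.beq (dg N (evx T v 1)) (if Nat.beq j 1 then 2 else o) &&
    Nat.beq (dg N (evx T v 2)) (if Nat.beq j 2 then 2 else o)

/-- `N` codes a colouring as in `Cok` -/
def ck1 (T n x j y k N : ℕ) : Bool :=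
  (List.range (2 * n)).all (fun v => Nat.beq v x || Nat.beq v y || vok T N v) && xok T N x j (if Nat.ble n x then 1 else 0) &&
    xok T N y k (if Nat.ble n y then 0 else 1)

/-- the parity without `x`, `y` -/
def cpr (T n x y N : ℕ) : ℕ := ((List.range (2 * n)).map (fun v => if Nat.beq v x || Nat.beq v y then 0 else vpa T N v)).sum

/-- `N`, `N'` code colourings as in `Both` -/
def ck (T n x j y k N N' : ℕ) : Bool :=
  ck1 T n x j y k N && ck1 T n x j y k N' && Nat.beq ((cpr T n x y N + cpr T n x y N') % 2) 1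

private lemma both_of_ck_lt (N e : ℕ) : dg N e < 4 := Nat.mod_lt _ (by norm_num)

private lemma both_of_ck_fin' : ∀ a b c : Fin 4, Nat.beq (4 ^ a.val + 4 ^ b.val + 4 ^ c.val) 21 = true →
    a.val < 3 ∧ b.val < 3 ∧ c.val < 3 ∧ a.val ≠ b.val ∧ a.val ≠ c.val ∧ b.val ≠ c.val := by
  decide

private lemma both_of_ck_fin (a : ℕ) (ha : a < 4) (b : ℕ) (hb : b < 4) (c : ℕ) (hc : c < 4)
    (h : Nat.beq (4 ^ a + 4 ^ b + 4 ^ c) 21 = true) : a < 3 ∧ b < 3 ∧ c < 3 ∧ a ≠ b ∧ a ≠ c ∧ b ≠ c :=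
  both_of_ck_fin' ⟨a, ha⟩ ⟨b, hb⟩ ⟨c, hc⟩ h

private lemma both_of_ck_of (T N v : ℕ) (h : vok T N v = true) :
    (dg N (evx T v 0) < 3 ∧ dg N (evx T v 1) < 3 ∧ dg N (evx T v 2) < 3) ∧
      dg N (evx T v 0) ≠ dg N (evx T v 1) ∧ dg N (evx T v 0) ≠ dg N (evx T v 2) ∧ dg N (evx T v 1) ≠ dg N (evx T v 2) := by
  obtain ⟨a, b, c, d, e, g⟩ := both_of_ck_fin _ (both_of_ck_lt N (evx T v 0)) _ (both_of_ck_lt N (evx T v 1)) _
    (both_of_ck_lt N (evx T v 2)) h
  exact ⟨⟨a, b, c⟩, d, e, g⟩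

private lemma both_of_ck_val {d : ℕ} (h : d < 3) : (Fin.ofNat 3 d).val = d := Nat.mod_eq_of_lt h

private lemma both_of_ck_ne {a b : ℕ} (ha : a < 3) (hb : b < 3) (h : a ≠ b) : Fin.ofNat 3 a ≠ Fin.ofNat 3 b := by
  intro he
  apply h
  rw [← both_of_ck_val ha, ← both_of_ck_val hb, he]

private lemma both_of_ck_sg' : ∀ a b : Fin 3, a.val ≠ b.val →
    sg (Fin.ofNat 3 b.val - Fin.ofNat 3 a.val) = (((b.val + 3 - a.val) % 3 % 2 : ℕ) : ZMod 2) := by
  decide

private lemma both_of_ck_sg (a : ℕ) (ha : a < 3) (b : ℕ) (hb : b < 3) (h : a ≠ b) :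
    sg (Fin.ofNat 3 b - Fin.ofNat 3 a) = (((b + 3 - a) % 3 % 2 : ℕ) : ZMod 2) :=
  both_of_ck_sg' ⟨a, ha⟩ ⟨b, hb⟩ h

private lemma both_of_ck_xok {T N v : ℕ} {j : Fin 3} {o : ℕ} (h : xok T N v j.val o = true) (l : Fin 3) :
    dg N (evx T v l.val) = if l = j then 2 else o := by
  simp only [xok, Bool.and_eq_true, Nat.beq_eq] at h
  obtain ⟨⟨h0, h1⟩, h2⟩ := h
  fin_cases l
  · show dg N (evx T v 0) = _
    rw [h0]
    fin_cases j <;> rfl
  · show dg N (evx T v 1) = _
    rw [h1]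
    fin_cases j <;> rfl
  · show dg N (evx T v 2) = _
    rw [h2]
    fin_cases j <;> rfl

private lemma both_of_ck_sum (g : ℕ → ℕ) (m : ℕ) : ((List.range m).map g).sum = ∑ v ∈ Finset.range m, g v := by
  induction m with
  | zero => rfl
  | succ m ih => rw [List.range_succ, List.map_append, List.sum_append, ih, Finset.sum_range_succ]; simp

private lemma both_of_ck_cok {A : Type v} (f : Fin 3 → Equiv.Perm A) (T n : ℕ) (vi : A × Bool → ℕ) (ei : A × Fin 3 → ℕ)
    (h1 : ∀ w, vi w < 2 * n) (h2 : Injective vi) (h4 : ∀ w, w.2 = true ↔ n ≤ vi w)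
    (h5 : ∀ w l, evx T (vi w) l.val = ei (ie f w l)) (x y : A × Bool) (j k : Fin 3) (N : ℕ)
    (h : ck1 T n (vi x) j.val (vi y) k.val N = true) :
    Cok f x j y k (fun q => Fin.ofNat 3 (dg N (ei q))) ∧ ∀ w, w ≠ x → w ≠ y → vok T N (vi w) = true := by
  simp only [ck1, Bool.and_eq_true, List.all_eq_true, List.mem_range, Bool.or_eq_true, Nat.beq_eq] at h
  obtain ⟨⟨ha, hx⟩, hy⟩ := h
  have hv : ∀ w, w ≠ x → w ≠ y → vok T N (vi w) = true := by
    intro w hwx hwy
    rcases ha (vi w) (h1 w) with (h | h) | h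
    · exact absurd (h2 h) hwx
    · exact absurd (h2 h) hwy
    · exact h
  have hxx : (if Nat.ble n (vi x) then 1 else 0) = (cl (!x.2)).val := by
    by_cases hx2 : x.2 = true
    · have := (h4 x).1 hx2
      rw [if_pos (Nat.ble_eq_true_of_le this), hx2]; rfl
    · have h' : ¬ n ≤ vi x := fun h' => hx2 ((h4 x).2 h')
      rw [if_neg (fun h'' => h' (Nat.le_of_ble_eq_true h'')), Bool.eq_false_iff.2 hx2]; rfl
  have hyy : (if Nat.ble n (vi y) then 0 else 1) = (cl y.2).val := by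
    by_cases hy2 : y.2 = true
    · have := (h4 y).1 hy2
      rw [if_pos (Nat.ble_eq_true_of_le this), hy2]; rfl
    · have h' : ¬ n ≤ vi y := fun h' => hy2 ((h4 y).2 h')
      rw [if_neg (fun h'' => h' (Nat.le_of_ble_eq_true h'')), Bool.eq_false_iff.2 hy2]; rfl
  have hp : ∀ (v : ℕ) (m o l : Fin 3), dg N (evx T v l.val) = (if l = m then 2 else o.val) →
      Fin.ofNat 3 (dg N (evx T v l.val)) = pat m o l := by
    intro v m o l hl
    rw [hl]
    unfold pat
    split_ifs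
    · rfl
    · exact Fin.ext (both_of_ck_val o.isLt)
  refine ⟨⟨?_, ?_, ?_⟩, hv⟩
  · intro w hwx hwy
    obtain ⟨⟨a, b, c⟩, d, e, g⟩ := both_of_ck_of T N (vi w) (hv w hwx hwy)
    have e0 := h5 w 0
    have e1 := h5 w 1
    have e2 := h5 w 2
    simp only [Fin.val_zero, Fin.val_one, Fin.val_two] at e0 e1 e2
    rw [e0, e1] at d
    rw [e0, e2] at e
    rw [e1, e2] at g
    rw [e0] at a
    rw [e1] at b
    rw [e2] at c
    have n01 := both_of_ck_ne a b d
    have n02 := both_of_ck_ne a c e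
    have n12 := both_of_ck_ne b c g
    intro l l' hl
    fin_cases l <;> fin_cases l'
    · rfl
    · exact absurd hl n01
    · exact absurd hl n02
    · exact absurd hl.symm n01
    · rfl
    · exact absurd hl n12
    · exact absurd hl.symm n02
    · exact absurd hl.symm n12
    · rfl
  · intro l
    show Fin.ofNat 3 (dg N (ei (ie f x l))) = _
    rw [← h5 x l]
    apply hp
    rw [← hxx]
    exact both_of_ck_xok hx l
  · intro l
    show Fin.ofNat 3 (dg N (ei (ie f y l))) = _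
    rw [← h5 y l]
    apply hp
    rw [← hyy]
    exact both_of_ck_xok hy l

private lemma both_of_ck_par {A : Type v} [Fintype A] [DecidableEq A] (f : Fin 3 → Equiv.Perm A) (T n : ℕ) (vi : A × Bool → ℕ)
    (ei : A × Fin 3 → ℕ) (h1 : ∀ w, vi w < 2 * n) (h2 : Injective vi) (h3 : ∀ v < 2 * n, ∃ w, vi w = v)
    (h5 : ∀ w l, evx T (vi w) l.val = ei (ie f w l)) (x y : A × Bool) (N : ℕ)
    (hv : ∀ w, w ≠ x → w ≠ y → vok T N (vi w) = true) :
    cpar f x y (fun q => Fin.ofNat 3 (dg N (ei q))) = (cpr T n (vi x) (vi y) N : ZMod 2) := by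
  have hs : cpr T n (vi x) (vi y) N =
      ∑ w : A × Bool, (if Nat.beq (vi w) (vi x) || Nat.beq (vi w) (vi y) then 0 else vpa T N (vi w)) := by
    unfold cpr
    rw [both_of_ck_sum]
    symm
    refine Finset.sum_bij (fun w _ => vi w) ?_ ?_ ?_ ?_
    · intro w _
      exact Finset.mem_range.2 (h1 w)
    · intro w _ w' _ h
      exact h2 h
    · intro v hv
      obtain ⟨w, hw⟩ := h3 v (Finset.mem_range.1 hv)
      exact ⟨w, Finset.mem_univ _, hw⟩
    · intro w _
      rfl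
  rw [hs, cpar, Finset.sum_filter, Nat.cast_sum]
  refine Finset.sum_congr rfl ?_
  intro w _
  by_cases hw : w ≠ x ∧ w ≠ y
  · have hb : (Nat.beq (vi w) (vi x) || Nat.beq (vi w) (vi y)) = false := by
      rw [Bool.or_eq_false_iff]
      constructor
      · rw [← Bool.not_eq_true]
        intro h
        exact hw.1 (h2 (Nat.eq_of_beq_eq_true h))
      · rw [← Bool.not_eq_true]
        intro h
        exact hw.2 (h2 (Nat.eq_of_beq_eq_true h))
    rw [if_pos hw, hb, if_neg Bool.false_ne_true]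
    obtain ⟨⟨a, b, c⟩, d, e, g⟩ := both_of_ck_of T N (vi w) (hv w hw.1 hw.2)
    have e0 := h5 w 0
    have e1 := h5 w 1
    simp only [Fin.val_zero, Fin.val_one] at e0 e1
    rw [← e0, ← e1]
    exact both_of_ck_sg _ a _ b d
  · have hb : (Nat.beq (vi w) (vi x) || Nat.beq (vi w) (vi y)) = true := by
      rw [Bool.or_eq_true]
      by_cases hwx : w = x
      · left
        rw [hwx]
        exact Nat.beq_eq ▸ rfl
      · right
        have hwy : w = y := by
          by_contra hwy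
          exact hw ⟨hwx, hwy⟩
        rw [hwy]
        exact Nat.beq_eq ▸ rfl
    rw [if_neg hw, hb, if_pos rfl, Nat.cast_zero]

theorem both_of_ck {A : Type v} [Fintype A] [DecidableEq A] (f : Fin 3 → Equiv.Perm A) (T n : ℕ) (vi : A × Bool → ℕ) (ei : A × Fin 3 → ℕ)
    (h1 : ∀ w, vi w < 2 * n) (h2 : Injective vi) (h3 : ∀ v < 2 * n, ∃ w, vi w = v) (h4 : ∀ w, w.2 = true ↔ n ≤ vi w)
    (h5 : ∀ w l, evx T (vi w) l.val = ei (ie f w l)) (x y : A × Bool) (j k : Fin 3) (N N' : ℕ)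
    (h : ck T n (vi x) j.val (vi y) k.val N N' = true) : Both f x j y k := by
  simp only [ck, Bool.and_eq_true, Nat.beq_eq] at h
  obtain ⟨⟨ha, hb⟩, hc⟩ := h
  obtain ⟨c1, v1⟩ := both_of_ck_cok f T n vi ei h1 h2 h4 h5 x y j k N ha
  obtain ⟨c2, v2⟩ := both_of_ck_cok f T n vi ei h1 h2 h4 h5 x y j k N' hb
  refine ⟨_, _, c1, c2, ?_⟩
  rw [both_of_ck_par f T n vi ei h1 h2 h3 h5 x y N v1, both_of_ck_par f T n vi ei h1 h2 h3 h5 x y N' v2]
  intro he
  have h6 : ((cpr T n (vi x) (vi y) N + cpr T n (vi x) (vi y) N' : ℕ) : ZMod 2) = 1 := by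
    have h7 : ((cpr T n (vi x) (vi y) N + cpr T n (vi x) (vi y) N' : ℕ) : ZMod 2) =
        (((cpr T n (vi x) (vi y) N + cpr T n (vi x) (vi y) N') % 2 : ℕ) : ZMod 2) := (ZMod.natCast_mod _ 2).symm
    rw [h7, hc, Nat.cast_one]
  rw [Nat.cast_add, he, CharTwo.add_self_eq_zero] at h6
  exact absurd h6 (by decide)

end Pool.Agent.PP
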