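import Pool.Agent.Lib_MP_7c0803_x.Base

/-!
# [X-A1] Counting

`card3`: an `r z`-invariant set of edges consists of orbits with three elements (`B.r3`, `B.r1`).  Compare `Conn_three` in
`Lib_MP_7c0803_pp/Conn.lean` (private, copy it).
-/

set_option autoImplicit false

open Finset Function

namespace Pool.Agent.PP

universe u

theorem card3 {E : Type u} [Finite E] (B : CB E) (z : Bool) (Q : Set E) (h : ∀ e, B.r z e ∈ Q ↔ e ∈ Q) : 3 ∣ Q.ncard := by
  classical
  haveI : Fact (Nat.Prime 3) := ⟨by norm_num⟩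
  haveI : Fintype E := Fintype.ofFinite E
  haveI : Fintype Q := Fintype.ofFinite Q
  let f : Function.End Q := fun a => ⟨B.r z a.1, (h a.1).2 a.2⟩
  have hf : f ^ 3 ^ 1 = 1 := by
    have h0 : f ^ 3 ^ 1 = f * (f * f) := by
      rw [pow_one]
      rfl
    rw [h0]
    funext a
    exact Subtype.ext (B.r3 z a.1)
  have h := Equiv.Perm.card_fixedPoints_modEq hf
  have hc : Fintype.card f.fixedPoints = 0 := by
    rw [Fintype.card_eq_zero_iff]
    refine ⟨fun x => ?_⟩
    have hx : f x.1 = x.1 := x.2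
    exact B.r1 z x.1.1 (congrArg Subtype.val hx)
  rw [hc] at h
  have h1 : 3 ∣ Fintype.card Q := (Nat.modEq_zero_iff_dvd).1 h
  rwa [← Nat.card_eq_fintype_card] at h1

end Pool.Agent.PP
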