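import Pool.Agent.Lib_MP_7c0803_x.Base
import Pool.Agent.Lib_MP_7c0803_pp.Konig

/-!
# [X-A2] The colours of the edges which leave a fibre

`bd_par`: in `ZMod 2`.  Let `c1` be a proper colouring of `B` (`exists_P`).  For `z` let `g e = 1` if `p z e = w`, else `0` (`r z`-invariant)
and `c' e = c e` if `p z e = w`, else `c1 e` (`c' (B.r z e) ≠ c' e` for all `e`).  `sum_class` (`Lib_MP_7c0803_pp/Defs.lean`) gives
`∑ e, g e = ∑ e, if c' e = k then g e else 0`, the right hand side is the number of `e` with `p z e = w`, `c e = k`.  Add the two identities for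
`z = false` and `z = true`: the edges with both ends in the fibre of `w` cancel.
-/

set_option autoImplicit false

open Finset Function

namespace Pool.Agent.PP

universe u v

private lemma bd_par_ind (a b : Prop) [Decidable a] [Decidable b] [Decidable (¬ (a ↔ b))] :
    (if ¬ (a ↔ b) then (1 : ZMod 2) else 0) = (if a then 1 else 0) + (if b then 1 else 0) := by
  have h2 : (1 : ZMod 2) + 1 = 0 := by decide
  by_cases ha : a <;> by_cases hb : b <;> simp [ha, hb, h2]

private lemma bd_par_ind' (a b d : Prop) [Decidable (a ∧ d)] [Decidable (b ∧ d)] [Decidable (¬ (a ↔ b) ∧ d)] :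
    (if ¬ (a ↔ b) ∧ d then (1 : ZMod 2) else 0) = (if a ∧ d then 1 else 0) + (if b ∧ d then 1 else 0) := by
  have h2 : (1 : ZMod 2) + 1 = 0 := by decide
  by_cases ha : a <;> by_cases hb : b <;> by_cases hd : d <;> simp [ha, hb, hd, h2]

theorem bd_par {E : Type u} {W : Type v} [Finite E] (B : CB E) (p : Bool → E → W) (hp : ∀ z e, p z (B.r z e) = p z e) (w : W)
    (c : E → Fin 3) (hc : ∀ z e, p z e = w → c (B.r z e) ≠ c e) (k : Fin 3) :
    (({e | ¬ (p false e = w ↔ p true e = w) ∧ c e = k} : Set E).ncard : ZMod 2) =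
      (({e | ¬ (p false e = w ↔ p true e = w)} : Set E).ncard : ZMod 2) := by
  classical
  haveI := Fintype.ofFinite E
  obtain ⟨c1, hc1⟩ := exists_P B
  have key : ∀ z, ∑ e, (if p z e = w ∧ c e = k then (1 : ZMod 2) else 0) = ∑ e, (if p z e = w then (1 : ZMod 2) else 0) := by
    intro z
    have h := sum_class (B.r z) (B.r3 z) (fun e => if p z e = w then c e else c1 e)
      (by
        intro e
        simp only [hp z e]
        by_cases h1 : p z e = w
        · rw [if_pos h1, if_pos h1]
          exact hc z e h1
        · rw [if_neg h1, if_neg h1]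
          exact (B.P_r c1).1 hc1 z e)
      (fun e => if p z e = w then (1 : ZMod 2) else 0) (by intro e; simp only [hp z e]) k
    rw [h]
    apply Finset.sum_congr rfl
    intro e _
    by_cases h1 : p z e = w
    · simp [h1]
    · simp [h1]
  have hcard : ∀ (Q : E → Prop) [DecidablePred Q], ((({e | Q e} : Set E).ncard : ℕ) : ZMod 2) =
      ∑ e, if Q e then (1 : ZMod 2) else 0 := by
    intro Q _
    rw [Set.ncard_eq_toFinset_card', Finset.sum_boole]
    congr 2
    ext e
    simp
  rw [hcard (fun e => ¬ (p false e = w ↔ p true e = w) ∧ c e = k), hcard (fun e => ¬ (p false e = w ↔ p true e = w))]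
  have h1 : ∑ e, ((if p false e = w ∧ c e = k then (1 : ZMod 2) else 0) + (if p true e = w ∧ c e = k then 1 else 0)) =
      ∑ e, ((if p false e = w then (1 : ZMod 2) else 0) + (if p true e = w then 1 else 0)) := by
    rw [Finset.sum_add_distrib, Finset.sum_add_distrib, key false, key true]
  refine (Finset.sum_congr rfl (fun e _ => @bd_par_ind' _ _ _ _ _ _)).trans (h1.trans ?_)
  exact (Finset.sum_congr rfl (fun e _ => @bd_par_ind _ _ _ _ _)).symm

end Pool.Agent.PP
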