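import Pool.Agent.Lib_MP_7c0803_x.Cnt2

/-!
# [X-G1], [X-G2], [X-G3] Gluing colourings of the fibres

[X-G1] `glue_P`: `c e = L (p false e) e = L (p true e) e`.

[X-G2] `glue_par`: in `ZMod 2`.  `par c + par c' = ∑ z, ∑ e, (sg (L (p z e) (r z e) - L (p z e) e) + the same for L')`.  For a vertex `w` with `L w = L' w`
the terms are `0`; for the other `w` (`w ∉ D`) all terms with `p z e = w` are equal to `ε w`, and the number of pairs `(z, e)` with `p z e = w` is
congruent to the number of the edges with exactly one end in the fibre of `w`, which is odd.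

[X-G3] `perm_eps`: a finite check over permutations of `Fin 3` (`decide`).
-/

set_option autoImplicit false

open Finset Function

namespace Pool.Agent.PP

universe u v

variable {E : Type u} {W : Type v}

/-- the glued colouring computed at the `z`-ends -/
private lemma Glue1_c {p : Bool → E → W} {L : W → E → Fin 3}
    (hc : ∀ e, L (p false e) e = L (p true e) e) (z : Bool) (e : E) :
    L (p false e) e = L (p z e) e := by
  cases z
  · rfl
  · exact hc e

theorem glue_P (B : CB E) (p : Bool → E → W) (hp : ∀ z e, p z (B.r z e) = p z e) (L : W → E → Fin 3)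
    (hL : ∀ z e, L (p z e) (B.r z e) ≠ L (p z e) e) (hc : ∀ e, L (p false e) e = L (p true e) e) :
    B.P (fun e => L (p false e) e) := by
  rw [CB.P_r]
  intro z e
  show L (p false (B.r z e)) (B.r z e) ≠ L (p false e) e
  rw [Glue1_c hc z (B.r z e), Glue1_c hc z e, hp]
  exact hL z e

private lemma Glue1_three : ∀ x0 x1 x2 : Fin 3, x0 ≠ x1 → x1 ≠ x2 → x0 ≠ x2 → ∀ a b : Fin 3, a ≠ b →
    sg ((![x0, x1, x2] : Fin 3 → Fin 3) a - (![x0, x1, x2] : Fin 3 → Fin 3) b) = sg (x1 - x0) + sg (a - b) + 1 := by
  decide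

private lemma Glue1_perm (σ : Equiv.Perm (Fin 3)) (a b : Fin 3) (h : a ≠ b) :
    sg (σ a - σ b) = sg (σ 1 - σ 0) + sg (a - b) + 1 := by
  have h1 := Glue1_three (σ 0) (σ 1) (σ 2) (fun h => by simpa using σ.injective h) (fun h => by simpa using σ.injective h)
    (fun h => by simpa using σ.injective h) a b h
  have h2 : ∀ a : Fin 3, (![σ 0, σ 1, σ 2] : Fin 3 → Fin 3) a = σ a := by
    intro a
    fin_cases a <;> rfl
  rwa [h2, h2] at h1

theorem perm_eps (σ σ' : Equiv.Perm (Fin 3)) : ∀ a b a' b' : Fin 3, a ≠ b → a' ≠ b' →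
    sg (σ a - σ b) + sg (σ' a - σ' b) = sg (σ a' - σ b') + sg (σ' a' - σ' b') := by
  intro a b a' b' h h'
  rw [Glue1_perm σ a b h, Glue1_perm σ' a b h, Glue1_perm σ a' b' h', Glue1_perm σ' a' b' h']
  have : ∀ x y z w : ZMod 2, x + z + 1 + (y + z + 1) = x + w + 1 + (y + w + 1) := by decide
  exact this _ _ _ _

theorem glue_par [Fintype E] [Fintype W] [DecidableEq W] (B : CB E) (p : Bool → E → W) (hp : ∀ z e, p z (B.r z e) = p z e)
    (L L' : W → E → Fin 3) (hc : ∀ e, L (p false e) e = L (p true e) e) (hc' : ∀ e, L' (p false e) e = L' (p true e) e)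
    (D : W → Prop) [DecidablePred D] (hD : ∀ w, ¬ D w → L w = L' w) (ε : W → ZMod 2)
    (hε : ∀ z e, D (p z e) → sg (L (p z e) (B.r z e) - L (p z e) e) + sg (L' (p z e) (B.r z e) - L' (p z e) e) = ε (p z e))
    (hodd : ∀ w, D w → (({e | ¬ (p false e = w ↔ p true e = w)} : Set E).ncard : ZMod 2) = 1) :
    B.par (fun e => L (p false e) e) + B.par (fun e => L' (p false e) e) = ∑ w ∈ univ.filter D, ε w := by
  have two : ∀ x : ZMod 2, x + x = 0 := by decide
  -- the terms at the `z`-ends
  have h1 : ∀ z e, sg (L (p false (B.r z e)) (B.r z e) - L (p false e) e) +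
      sg (L' (p false (B.r z e)) (B.r z e) - L' (p false e) e) = if D (p z e) then ε (p z e) else 0 := by
    intro z e
    rw [Glue1_c hc z (B.r z e), Glue1_c hc z e, Glue1_c hc' z (B.r z e), Glue1_c hc' z e, hp]
    by_cases h : D (p z e)
    · rw [if_pos h]
      exact hε z e h
    · rw [if_neg h, hD _ h]
      exact two _
  have h2 : B.par (fun e => L (p false e) e) + B.par (fun e => L' (p false e) e) =
      ∑ e, ((if D (p false e) then ε (p false e) else 0) + (if D (p true e) then ε (p true e) else 0)) := by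
    unfold CB.par
    rw [← Finset.sum_add_distrib, ← Finset.sum_add_distrib, ← Finset.sum_add_distrib]
    refine Finset.sum_congr rfl fun e _ => ?_
    rw [← h1 false e, ← h1 true e]
    simp only [CB.r_false, CB.r_true]
    ring
  rw [h2]
  -- sum over the vertices
  have h3 : ∀ (x : W), (if D x then ε x else 0) = ∑ w ∈ univ.filter D, if x = w then ε w else 0 := by
    intro x
    rw [Finset.sum_ite_eq]
    simp
  have h4 : ∀ e, ((if D (p false e) then ε (p false e) else 0) + (if D (p true e) then ε (p true e) else 0)) =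
      ∑ w ∈ univ.filter D, ε w * (if ¬ (p false e = w ↔ p true e = w) then 1 else 0) := by
    intro e
    rw [h3 (p false e), h3 (p true e), ← Finset.sum_add_distrib]
    refine Finset.sum_congr rfl fun w _ => ?_
    by_cases a : p false e = w <;> by_cases b : p true e = w <;> simp [a, b, two]
  rw [Finset.sum_congr rfl fun e _ => h4 e, Finset.sum_comm]
  refine Finset.sum_congr rfl fun w hw => ?_
  have hw' : D w := (Finset.mem_filter.1 hw).2
  rw [← Finset.mul_sum, Finset.sum_boole]
  have h5 := hodd w hw'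
  rw [Set.ncard_eq_toFinset_card', Set.toFinset_ofPred] at h5
  rw [h5, mul_one]

end Pool.Agent.PP
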