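import Pool.Agent.Lib_MP_7c0803_x.Cnt2

/-!
# [X-G4] Permuting the colours in a fibre

[X-G4] `loc_perm`: for a proper colouring `c0` and a vertex `w` with exactly the three edges `t 0, t 1, t 2` leaving the fibre the colours
`c0 (t l)` are different (`bd_par`: every colour occurs an odd number of times); so for every injective `ψ : Fin 3 → Fin 3` there is a permutation
`σ` of the colours with `σ (c0 (t l)) = ψ l`.
-/

set_option autoImplicit false

open Finset Function

namespace Pool.Agent.PP

universe u v

variable {E : Type u} {W : Type v}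

theorem loc_perm [Finite E] (B : CB E) (p : Bool → E → W) (hp : ∀ z e, p z (B.r z e) = p z e) (w : W) (t : Fin 3 → E)
    (ht : Injective t) (hb : ∀ e, ¬ (p false e = w ↔ p true e = w) ↔ ∃ k, t k = e) (c0 : E → Fin 3)
    (hc : ∀ z e, p z e = w → c0 (B.r z e) ≠ c0 e) (ψ : Fin 3 → Fin 3) (hψ : Injective ψ) :
    ∃ σ : Equiv.Perm (Fin 3), ∀ k, σ (c0 (t k)) = ψ k := by
  have hset : ({e | ¬ (p false e = w ↔ p true e = w)} : Set E) = Set.range t := by
    ext e
    exact hb e
  have hcard : (({e | ¬ (p false e = w ↔ p true e = w)} : Set E).ncard) = 3 := by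
    rw [hset, ← Set.image_univ, Set.ncard_image_of_injective _ ht, Set.ncard_univ, Nat.card_eq_fintype_card,
      Fintype.card_fin]
  have hsurj : Surjective (fun k => c0 (t k)) := by
    intro k
    have h1 := bd_par B p hp w c0 hc k
    rw [hcard] at h1
    have h2 : (({e | ¬ (p false e = w ↔ p true e = w) ∧ c0 e = k} : Set E).ncard) ≠ 0 := by
      intro h0
      rw [h0] at h1
      revert h1
      decide
    have h3 := Set.nonempty_of_ncard_ne_zero h2
    obtain ⟨e, he, hek⟩ := h3
    obtain ⟨l, hl⟩ := (hb e).1 he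
    exact ⟨l, by simp only [hl, hek]⟩
  have hinj : Injective (fun k => c0 (t k)) := Finite.injective_iff_surjective.2 hsurj
  refine ⟨(Equiv.ofBijective _ ⟨hinj, hsurj⟩).symm.trans
    (Equiv.ofBijective ψ ⟨hψ, Finite.injective_iff_surjective.1 hψ⟩), fun k => ?_⟩
  rw [Equiv.trans_apply, Equiv.ofBijective_apply]
  congr 1
  exact (Equiv.ofBijective (fun k => c0 (t k)) ⟨hinj, hsurj⟩).symm_apply_apply k

end Pool.Agent.PP
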