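import Pool.Agent.Lib_MP_7c0803_x.Conv1
import Pool.Agent.Lib_MP_7c0803_x.Glue1
import Pool.Agent.Lib_MP_7c0803_x.Glue2

/-!
# [X-L2] A graph with one Kempe class contracts only onto graphs with one Kempe class

[X-L2] `Ctr.con`: `(BG f).P φ ↔ ∀ w, Injective (fun k => φ (ie f w k))` (`BG_P`).  Let `c0` be a proper colouring of `B` (`exists_P`).  For proper `φ`
let `σ w` be the permutation of `loc_perm` with `σ w (c0 (i (ie f w k))) = φ (ie f w k)`, `L w = σ w ∘ c0`; `glue_P` gives a proper colouring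
`c` of `B` with `c (i q) = φ q` for all `q`.  Conversely `c ∘ i` is proper for proper `c` (`loc_perm` with `ψ = id`).  `KE_map`
(`Lib_MP_7c0803_pp/Defs.lean`) for `c ↦ c ∘ i`.
-/

set_option autoImplicit false

open Finset Function

namespace Pool.Agent.PP

universe u v

variable {E : Type u} {A : Type v} {B : CB E} {f : Fin 3 → Equiv.Perm A}

/-- the three edges leaving the fibre of `w` -/
private lemma Conv_inj (hf : Smp f) (C : Ctr B f) (w : A × Bool) :
    Injective (fun k => C.i (ie f w k)) := by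
  intro k l hkl
  have h1 := congrArg Prod.snd (C.inj hf hkl)
  simpa using h1

/-- restriction of a colouring -/
private lemma Conv_res [Finite E] (hf : Smp f) (C : Ctr B f) (c : E → Fin 3) (hc : B.P c) :
    (BG f).P (fun q => c (C.i q)) := by
  rw [BG_P]
  intro w
  obtain ⟨σ, hσ⟩ := loc_perm B C.p C.hp w (fun k => C.i (ie f w k)) (Conv_inj hf C w) (C.bd w) c
    (fun z e _ => (B.P_r c).1 hc z e) id injective_id
  intro k l hkl
  have h1 : σ (c (C.i (ie f w k))) = σ (c (C.i (ie f w l))) := congrArg σ hkl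
  rw [hσ k, hσ l] at h1
  exact h1

/-- lift of a colouring -/
private lemma Conv_lift [Finite E] (hf : Smp f) (C : Ctr B f) (φ : A × Fin 3 → Fin 3)
    (hφ : (BG f).P φ) : ∃ c : E → Fin 3, B.P c ∧ ∀ q, c (C.i q) = φ q := by
  obtain ⟨c0, hc0⟩ := exists_P B
  rw [BG_P] at hφ
  have hex : ∀ w : A × Bool, ∃ σ : Equiv.Perm (Fin 3), ∀ k, σ (c0 (C.i (ie f w k))) = φ (ie f w k) :=
    fun w => loc_perm B C.p C.hp w (fun k => C.i (ie f w k)) (Conv_inj hf C w) (C.bd w) c0
      (fun z e _ => (B.P_r c0).1 hc0 z e) (fun k => φ (ie f w k)) (hφ w)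
  choose σ hσ using hex
  have key : ∀ (q : A × Fin 3) (z : Bool), σ (en f q z) (c0 (C.i q)) = φ q := by
    intro q z
    have h1 := hσ (en f q z) q.2
    rwa [ie_en] at h1
  have key2 : ∀ (q : A × Fin 3) (z : Bool), σ (C.p z (C.i q)) (c0 (C.i q)) = φ q := by
    intro q z
    rcases C.hi q with h1 | h1
    · rw [h1 z]
      exact key q z
    · rw [h1 z]
      exact key q (!z)
  refine ⟨fun e => σ (C.p false e) (c0 e), ?_, fun q => key2 q false⟩
  refine glue_P B C.p C.hp (fun w e => σ w (c0 e)) ?_ ?_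
  · intro z e he
    exact (B.P_r c0).1 hc0 z e ((σ (C.p z e)).injective he)
  · intro e
    rcases C.hin e with h1 | ⟨q, rfl⟩
    · show σ (C.p false e) (c0 e) = σ (C.p true e) (c0 e)
      rw [h1]
    · exact (key2 q false).trans (key2 q true).symm

theorem Ctr.con [Finite E] (hf : Smp f) (C : Ctr B f) (h : B.Con) : (BG f).Con := by
  intro φ φ' hφ hφ'
  obtain ⟨c, hc, hcφ⟩ := Conv_lift hf C φ hφ
  obtain ⟨c', hc', hcφ'⟩ := Conv_lift hf C φ' hφ'
  have h1 := KE_map (BG f) B (fun c q => c (C.i q)) (fun a b ha hb hr =>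
    KE_of_rel (BG f) (Conv_res hf C a ha) (Conv_res hf C b hb)
      (by obtain ⟨k, hk⟩ := hr; exact ⟨k, fun q => hk (C.i q)⟩)) c c' (h c c' hc hc')
  have e1 : (fun q => c (C.i q)) = φ := funext hcφ
  have e2 : (fun q => c' (C.i q)) = φ' := funext hcφ'
  rw [e1, e2] at h1
  exact h1

end Pool.Agent.PP
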