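import Pool.Agent.Lib_MP_7c0803_x.Base

/-!
# [X-L1] Contractions without orientation

`Ctr B f`: as `OCtr`, the ends of `i q` are contracted onto the ends of `q` in one of the two possible ways.

[X-L1] `Ctr.bd`: the edges with exactly one end in the fibre of `w` are `i (ie f w k)`, `k = 0, 1, 2`; `Ctr.inj`: `i` is injective (`Smp`, the
second components of `en f q false`, `en f q true` are `false`, `true`).
-/

set_option autoImplicit false

open Finset Function

namespace Pool.Agent.PP

universe u v

variable {E : Type u} {A : Type v} {B : CB E} {f : Fin 3 → Equiv.Perm A}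

/-- `B` contracts onto `BG f` -/
structure Ctr (B : CB E) (f : Fin 3 → Equiv.Perm A) where
  p : Bool → E → A × Bool
  hp : ∀ z e, p z (B.r z e) = p z e
  i : A × Fin 3 → E
  hi : ∀ q, (∀ z, p z (i q) = en f q z) ∨ ∀ z, p z (i q) = en f q (!z)
  hin : ∀ e, p false e = p true e ∨ ∃ q, i q = e

def OCtr.ctr (C : OCtr B f) : Ctr B f := ⟨C.p, C.hp, C.i, fun q => Or.inl fun z => C.hi z q, C.hin⟩

/-- the rotation of `BG f` at the vertex `w` -/
private lemma BG_r_ie (w : A × Bool) (k : Fin 3) : (BG f).r w.2 (ie f w k) = ie f w (k + 1) := by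
  obtain ⟨a, z⟩ := w
  cases z
  · rfl
  · show ((f (k + 1)).symm (f k ((f k).symm a)), k + 1) = ((f (k + 1)).symm a, k + 1)
    rw [Equiv.apply_symm_apply]

private lemma fin3_succ {k l : Fin 3} (h : k ≠ l) : l = k + 1 ∨ k = l + 1 := by
  revert h
  revert k l
  decide

theorem BG_P (f : Fin 3 → Equiv.Perm A) (φ : A × Fin 3 → Fin 3) :
    (BG f).P φ ↔ ∀ w : A × Bool, Injective (fun k => φ (ie f w k)) := by
  rw [CB.P_r]
  constructor
  · intro h w k l hkl
    simp only at hkl
    by_contra hne
    rcases fin3_succ hne with h1 | h1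
    · have h2 := h w.2 (ie f w k)
      rw [BG_r_ie, ← h1] at h2
      exact h2 hkl.symm
    · have h2 := h w.2 (ie f w l)
      rw [BG_r_ie, ← h1] at h2
      exact h2 hkl
  · intro h z e heq
    have h1 : (BG f).r z e = ie f (en f e z) (e.2 + 1) := by
      have h2 := BG_r_ie (f := f) (en f e z) e.2
      rwa [ie_en, en_snd] at h2
    have h3 : φ (ie f (en f e z) (e.2 + 1)) = φ (ie f (en f e z) e.2) := by
      rw [← h1, ie_en]
      exact heq
    have h4 : e.2 + 1 = e.2 := h (en f e z) h3
    exact fin3_add_ne e.2 h4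

theorem Ctr.inj (hf : Smp f) (C : Ctr B f) : Injective C.i := by
  intro q q' h
  rcases C.hi q with h1 | h1 <;> rcases C.hi q' with h2 | h2
  · exact hf.en_inj fun z => by rw [← h1 z, ← h2 z, h]
  · exfalso
    have h3 : en f q false = en f q' (!false) := by rw [← h1 false, ← h2 false, h]
    have h4 := congrArg Prod.snd h3
    simp at h4
  · exfalso
    have h3 : en f q (!false) = en f q' false := by rw [← h1 false, ← h2 false, h]
    have h4 := congrArg Prod.snd h3
    simp at h4
  · exact hf.en_inj fun z => by
      have h3 : en f q (!(!z)) = en f q' (!(!z)) := by rw [← h1 (!z), ← h2 (!z), h]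
      rwa [Bool.not_not] at h3

theorem Ctr.bd (C : Ctr B f) (w : A × Bool) (e : E) :
    ¬ (C.p false e = w ↔ C.p true e = w) ↔ ∃ k, C.i (ie f w k) = e := by
  constructor
  · intro h
    rcases C.hin e with h1 | ⟨q, rfl⟩
    · exact absurd (by rw [h1]) h
    · refine ⟨q.2, ?_⟩
      have h2 : en f q false = w ∨ en f q true = w := by
        by_contra h3
        push Not at h3
        apply h
        rcases C.hi q with h4 | h4
        · rw [h4, h4]
          exact iff_of_false h3.1 h3.2
        · rw [h4, h4]
          exact iff_of_false h3.2 h3.1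
      rcases h2 with h2 | h2
      · rw [← (en_eq f h2).2]
      · rw [← (en_eq f h2).2]
  · rintro ⟨k, rfl⟩ h
    have h1 := en_ie f w k
    have h2 := en_ie' f w k
    have h3 := nb_ne f w k
    rw [← h2] at h3
    rcases C.hi (ie f w k) with h4 | h4
    · rw [h4, h4] at h
      revert h1 h3
      generalize w.2 = z
      cases z <;> intro h1 h3 <;> simp_all
    · rw [h4, h4] at h
      revert h1 h3
      generalize w.2 = z
      cases z <;> intro h1 h3 <;> simp_all

end Pool.Agent.PP
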