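import Pool.Agent.Lib_MP_7c0803_x.Base
import Pool.Agent.Lib_MP_7c0803_hon.P
import Pool.Agent.Lib_MP_7c0803_tor.Fam

/-!
# [X-K1], [X-K2], [X-K3] Circulant graphs

`cyf N a b`: the bijections `x ↦ x`, `x ↦ x + a`, `x ↦ x + b` of `ZMod N`.

[X-K1] `UIso.octr`: `p z e = en f (j e) z`, `i = j.symm` (`SO_BG_s`, `SO_BG_t`).

[X-K2] `uiso_cyf`: `HG a b ≅ BG (cyf N a b)` by the identity (`SO_HG_s`, `SO_HG_t`, `SO_BG_s`, `SO_BG_t`).

[X-K3] `ht14`, `ht20`: with `uiso_cyc` as in the proof of `pc_T14`, `pc_T20` (`Lib_MP_7c0803_hon/P.lean`).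
-/

set_option autoImplicit false

open Finset Function

namespace Pool.Agent.PP

universe u v

variable {E : Type u} {A : Type v} {B : CB E} {f : Fin 3 → Equiv.Perm A}

/-- the bijections `x ↦ x`, `x ↦ x + a`, `x ↦ x + b` -/
def cyf (N : ℕ) (a b : ZMod N) (j : Fin 3) : Equiv.Perm (ZMod N) := Equiv.addRight (dl a b j)

theorem UIso.octr (i : UIso B (BG f)) : Nonempty (OCtr B f) := by
  refine ⟨⟨fun z e => en f (i.j e) z, ?_, fun q => i.j.symm q, ?_, ?_⟩⟩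
  · intro z e
    cases z
    · have h1 : SO (BG f).s (i.j e) (i.j (B.s e)) := (i.hs e (B.s e)).1 (Or.inl rfl)
      have h2 := (SO_BG_s f (i.j e).1 (i.j (B.s e)).1 (i.j e).2 (i.j (B.s e)).2).1 h1
      exact Prod.ext h2.1 rfl
    · have h1 : SO (BG f).t (i.j e) (i.j (B.t e)) := (i.ht e (B.t e)).1 (Or.inl rfl)
      have h2 := (SO_BG_t f (i.j e).1 (i.j (B.t e)).1 (i.j e).2 (i.j (B.t e)).2).1 h1
      exact Prod.ext h2.1 rfl
  · intro z q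
    show en f (i.j (i.j.symm q)) z = en f q z
    rw [Equiv.apply_symm_apply]
  · intro e
    exact Or.inr ⟨i.j e, i.j.symm_apply_apply e⟩

theorem uiso_cyf (N : ℕ) (a b : ZMod N) : Nonempty (UIso (HG a b) (BG (cyf N a b))) := by
  refine ⟨⟨Equiv.refl _, ?_, ?_⟩⟩
  · rintro ⟨x, i⟩ ⟨y, k⟩
    exact (SO_HG_s a b x y i k).trans (SO_BG_s (cyf N a b) x y i k).symm
  · rintro ⟨x, i⟩ ⟨y, k⟩
    exact (SO_HG_t a b x y i k).trans (SO_BG_t (cyf N a b) x y i k).symm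

theorem ht14 : Nonempty (UIso (HT (Lt (2, 1) (-7, 0))) (BG (cyf 7 1 5))) := by
  obtain ⟨i⟩ := uiso_cyc 7 1 (-2) 1 5 (by decide) (by decide) ⟨1, 0, 0, by norm_num⟩ _ (mem_21 7)
  obtain ⟨k⟩ := uiso_cyf 7 1 5
  exact ⟨i.trans k⟩

theorem ht20 : Nonempty (UIso (HT (Lt (2, 1) (-10, 0))) (BG (cyf 10 1 8))) := by
  obtain ⟨i⟩ := uiso_cyc 10 1 (-2) 1 8 (by decide) (by decide) ⟨1, 0, 0, by norm_num⟩ _ (mem_21 10)
  obtain ⟨k⟩ := uiso_cyf 10 1 8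
  exact ⟨i.trans k⟩

end Pool.Agent.PP
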