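import Pool.Agent.Lib_MP_7c0803_x.Cyc1
import Pool.Agent.Lib_MP_7c0803_kb.Ks

/-!
# [X-K4] Circulant graphs and hexagonal grids

[X-K4] `hon_cyf`: the simple graphs `BGr (cyf N a b)` and `Hon L` are isomorphic if `L` is the kernel of a surjective homomorphism
`φ : ℤ × ℤ →+ ZMod N` with `φ (1, 0) = a`, `φ (0, 1) = b` (`QuotientAddGroup.quotientKerEquivOfSurjective`; `(x, false)` ↔ `(x, true)` in `Hon`: the
`X`-vertices have the second component `true` in `Hon` and `false` in `BGr`).  `hon14`, `hon20`: for `Lt (2, 1) (-7, 0)` (`φ (u, v) = u - 2 v` in `ZMod 7`)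
and `Lt (2, 1) (-10, 0)` (see `mem_21`, `uiso_cyc`).
-/

set_option autoImplicit false

open Finset Function

namespace Pool.Agent.PP

open SimpleGraph

/-- a surjective homomorphism with kernel `L` gives an isomorphism of `Hon L` with a circulant graph -/
theorem hon_cyf (N : ℕ) (a b : ZMod N) (φ : ℤ × ℤ →+ ZMod N) (hs : Function.Surjective φ)
    (ha : φ (1, 0) = a) (hb : φ (0, 1) = b) (L : AddSubgroup (ℤ × ℤ)) (hL : ∀ x, x ∈ L ↔ φ x = 0) :
    Nonempty (BGr (cyf N a b) ≃g Hon L) := by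
  have hker : L = φ.ker := by
    ext x
    rw [hL, AddMonoidHom.mem_ker]
  subst hker
  let e : ((ℤ × ℤ) ⧸ φ.ker) ≃+ ZMod N := QuotientAddGroup.quotientKerEquivOfSurjective φ hs
  have he : ∀ x : ℤ × ℤ, e (x : (ℤ × ℤ) ⧸ φ.ker) = φ x := fun _ => rfl
  have key : ∀ p q : ((ℤ × ℤ) ⧸ φ.ker) × Bool,
      ((!p.2) = false ∧ (!q.2) = true ∧ ∃ j, cyf N a b j (e p.1) = e q.1) ↔ HonRel φ.ker p q := by
    intro p q
    unfold HonRel
    have h1 : (∃ j, cyf N a b j (e p.1) = e q.1) ↔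
        (q.1 = p.1 ∨ q.1 = p.1 + (((1, 0) : ℤ × ℤ) : (ℤ × ℤ) ⧸ φ.ker) ∨
          q.1 = p.1 + (((0, 1) : ℤ × ℤ) : (ℤ × ℤ) ⧸ φ.ker)) := by
      have hc : ∀ j, cyf N a b j (e p.1) = e p.1 + dl a b j := fun _ => rfl
      have e1 : ∀ z : (ℤ × ℤ) ⧸ φ.ker, q.1 = p.1 + z ↔ e p.1 + e z = e q.1 := by
        intro z
        rw [← map_add]
        exact ⟨fun h => by rw [h], fun h => (e.injective h).symm⟩
      constructor
      · rintro ⟨j, hj⟩
        rw [hc] at hj
        fin_cases j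
        · left
          have : e p.1 + 0 = e q.1 := hj
          rw [add_zero] at this
          exact (e.injective this).symm
        · right; left
          rw [e1, he, ha]
          exact hj
        · right; right
          rw [e1, he, hb]
          exact hj
      · rintro (h | h | h)
        · refine ⟨0, ?_⟩
          rw [hc, h, dl_zero, add_zero]
        · refine ⟨1, ?_⟩
          rw [e1, he, ha] at h
          rw [hc, dl_one, h]
        · refine ⟨2, ?_⟩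
          rw [e1, he, hb] at h
          rw [hc, dl_two, h]
    rw [h1]
    simp only [Bool.not_eq_false', Bool.not_eq_true']
  let E : (((ℤ × ℤ) ⧸ φ.ker) × Bool) ≃ (ZMod N × Bool) := Equiv.prodCongr e.toEquiv Equiv.boolNot
  have hE : ∀ p, E p = (e p.1, !p.2) := fun _ => rfl
  refine ⟨RelIso.symm ⟨E, ?_⟩⟩
  intro p q
  show (BGr (cyf N a b)).Adj (E p) (E q) ↔ (Hon φ.ker).Adj p q
  rw [hE, hE]
  show (((!p.2) = false ∧ (!q.2) = true ∧ ∃ j, cyf N a b j (e p.1) = e q.1) ∨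
    ((!q.2) = false ∧ (!p.2) = true ∧ ∃ j, cyf N a b j (e q.1) = e p.1)) ↔ (HonRel φ.ker p q ∨ HonRel φ.ker q p)
  rw [key, key]

/-- the case of the lattices `Lt (2, 1) (-N, 0)` -/
theorem hon_cyf21 (N : ℕ) [NeZero N] (b : ZMod N) (hb : ((-2 : ℤ) : ZMod N) = b) :
    Nonempty (BGr (cyf N 1 b) ≃g Hon (Lt (2, 1) (-(N : ℤ), 0))) := by
  let φ : ℤ × ℤ →+ ZMod N := AddMonoidHom.mk' (fun x => ((1 * x.1 + (-2) * x.2 : ℤ) : ZMod N)) (by
    intro x y
    push_cast [Prod.fst_add, Prod.snd_add]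
    ring)
  have hφ : ∀ x : ℤ × ℤ, φ x = ((1 * x.1 + (-2) * x.2 : ℤ) : ZMod N) := fun _ => rfl
  refine hon_cyf N 1 b φ ?_ ?_ ?_ _ ?_
  · intro z
    refine ⟨((z.val : ℤ), 0), ?_⟩
    rw [hφ]
    push_cast
    simp
  · rw [hφ]
    push_cast
    ring
  · rw [hφ, ← hb]
    push_cast
    ring
  · intro x
    rw [mem_21, hφ, ZMod.intCast_zmod_eq_zero_iff_dvd]

theorem hon14 : Nonempty (BGr (cyf 7 1 5) ≃g Hon (Lt (2, 1) (-7, 0))) :=
  hon_cyf21 7 5 (by decide)

theorem hon20 : Nonempty (BGr (cyf 10 1 8) ≃g Hon (Lt (2, 1) (-10, 0))) :=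
  hon_cyf21 10 8 (by decide)

end Pool.Agent.PP
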