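import Pool.Agent.Lib_MP_7c0803_tor.KDefs

/-!
# Contraction of a cubic bipartite multigraph onto a graph given by three bijections

`B : CB E`.  The vertices of `BG f` are `A × Bool`: `(a, false)` are the `X`-vertices, `(b, true)` the `Y`-vertices; the edge `(a, j)` joins
`(a, false)` and `(f j a, true)`.  `B.r z` is the rotation at the `X`-ends (`z = false`) resp. the `Y`-ends (`z = true`); the
`z`-end of the edge `q` of `BG f` is `en f q z`; `ie f w j` is the `j`-th edge at the vertex `w`, `nb f w j` its other end.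

`OCtr B f`: `B` contracts onto `BG f`: `p z e` is the vertex of `BG f` onto which the `z`-end of `e` is contracted, `i q` is the edge of `B`
which becomes the edge `q`; all other edges are contracted.

`Star B f x y`: the same, but there are two more edges `ex false`, `ex true` between the fibres of `x` and `y` (`x ≠ y`): the `z`-end of `ex z`
is in the fibre of `x`, the other end in the fibre of `y`; the `false`-end of `ex false` and the `true`-end of `ex true` are joined by the
edge `m` (in the fibre of `x`), the two other ends by the edge `m'` (in the fibre of `y`): the four edges form a 4-cycle.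

`S.R j`: the fibre of `x` has a colouring such that the `j`-th edge at `x` has the colour `2`, the two other edges at `x` have the
colour of `ex (!x.2)`, and `ex z` has the colour `cl z`.

`S.V j`: a set of vertices in the fibre of `x` (`Z z e`: the `z`-end of `e` belongs to the set), not containing the two ends of `m`, whose
boundary consists of the two edges at `x` different from the `j`-th one and of one more edge `r`.

`Both f x j y k`: the graph `BG f` without the vertices `x`, `y` has two colourings of different parity with the colours at `x` and `y`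
prescribed by `j` and `k`.
-/

set_option autoImplicit false

open Finset Function

namespace Pool.Agent.PP

universe u v

section defs
variable {E : Type u} {A : Type v}

/-- the rotation at the `X`-ends (`false`) and at the `Y`-ends (`true`) -/
def CB.r (B : CB E) (z : Bool) : Equiv.Perm E := if z then B.t else B.s

@[simp] lemma CB.r_false (B : CB E) : B.r false = B.s := rfl
@[simp] lemma CB.r_true (B : CB E) : B.r true = B.t := rfl

lemma CB.r3 (B : CB E) (z : Bool) (e : E) : B.r z (B.r z (B.r z e)) = e := by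
  cases z
  · exact B.s3 e
  · exact B.t3 e

lemma CB.r1 (B : CB E) (z : Bool) (e : E) : B.r z e ≠ e := by
  cases z
  · exact B.s1 e
  · exact B.t1 e

lemma CB.P_r (B : CB E) (c : E → Fin 3) : B.P c ↔ ∀ z e, c (B.r z e) ≠ c e := by
  constructor
  · intro h z e
    cases z
    · exact (h e).1
    · exact (h e).2
  · intro h e
    exact ⟨h false e, h true e⟩

/-- the `j`-th edge at the vertex `w` -/
def ie (f : Fin 3 → Equiv.Perm A) (w : A × Bool) (j : Fin 3) : A × Fin 3 := (if w.2 then (f j).symm w.1 else w.1, j)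

/-- the neighbour of `w` along the `j`-th edge -/
def nb (f : Fin 3 → Equiv.Perm A) (w : A × Bool) (j : Fin 3) : A × Bool := (if w.2 then (f j).symm w.1 else f j w.1, !w.2)

/-- the `z`-end of the edge `q` -/
def en (f : Fin 3 → Equiv.Perm A) (q : A × Fin 3) (z : Bool) : A × Bool := (if z then f q.2 q.1 else q.1, z)

variable (f : Fin 3 → Equiv.Perm A)

@[simp] lemma en_snd (q : A × Fin 3) (z : Bool) : (en f q z).2 = z := rfl
@[simp] lemma ie_snd (w : A × Bool) (j : Fin 3) : (ie f w j).2 = j := rfl
@[simp] lemma nb_snd (w : A × Bool) (j : Fin 3) : (nb f w j).2 = !w.2 := rfl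

lemma en_ie (w : A × Bool) (j : Fin 3) : en f (ie f w j) w.2 = w := by
  obtain ⟨a, z⟩ := w
  cases z <;> simp [en, ie]

lemma en_ie' (w : A × Bool) (j : Fin 3) : en f (ie f w j) (!w.2) = nb f w j := by
  obtain ⟨a, z⟩ := w
  cases z <;> simp [en, ie, nb]

lemma ie_en (q : A × Fin 3) (z : Bool) : ie f (en f q z) q.2 = q := by
  obtain ⟨a, j⟩ := q
  cases z <;> simp [en, ie]

lemma nb_nb (w : A × Bool) (j : Fin 3) : nb f (nb f w j) j = w := by
  obtain ⟨a, z⟩ := w
  cases z <;> simp [nb]

lemma ie_nb (w : A × Bool) (j : Fin 3) : ie f (nb f w j) j = ie f w j := by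
  obtain ⟨a, z⟩ := w
  cases z <;> simp [nb, ie]

lemma nb_ne (w : A × Bool) (j : Fin 3) : nb f w j ≠ w := by
  intro h
  have := congrArg Prod.snd h
  simp at this

lemma en_eq {q : A × Fin 3} {z : Bool} {w : A × Bool} (h : en f q z = w) : z = w.2 ∧ q = ie f w q.2 := by
  subst h
  exact ⟨rfl, (ie_en f q z).symm⟩

/-- no parallel edges -/
def Smp : Prop := ∀ a j k, f j a = f k a → j = k

lemma Smp.en_inj {f : Fin 3 → Equiv.Perm A} (hf : Smp f) {q q' : A × Fin 3} (h : ∀ z, en f q z = en f q' z) : q = q' := by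
  obtain ⟨a, j⟩ := q
  obtain ⟨a', j'⟩ := q'
  have h1 := congrArg Prod.fst (h false)
  have h2 := congrArg Prod.fst (h true)
  simp only [en, if_true] at h1 h2
  simp at h1
  subst h1
  rw [hf a j j' h2]

/-- `B` contracts onto `BG f` (with `X`-ends on the `X`-side) -/
structure OCtr (B : CB E) (f : Fin 3 → Equiv.Perm A) where
  p : Bool → E → A × Bool
  hp : ∀ z e, p z (B.r z e) = p z e
  i : A × Fin 3 → E
  hi : ∀ z q, p z (i q) = en f q z
  hin : ∀ e, p false e = p true e ∨ ∃ q, i q = e

/-- a contraction with two more edges between the fibres of `x` and `y` -/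
structure Star (B : CB E) (f : Fin 3 → Equiv.Perm A) (x y : A × Bool) where
  p : Bool → E → A × Bool
  hp : ∀ z e, p z (B.r z e) = p z e
  i : A × Fin 3 → E
  hi : ∀ z q, p z (i q) = en f q z
  ex : Bool → E
  hx : ∀ z, p z (ex z) = x
  hy : ∀ z, p (!z) (ex z) = y
  hne : ∀ z q, i q ≠ ex z
  hin : ∀ e, p false e = p true e ∨ (∃ q, i q = e) ∨ ∃ z, ex z = e
  m : E
  hm : ∀ z, SO (B.r z) m (ex z)
  m' : E
  hm' : ∀ z, SO (B.r z) m' (ex (!z))
  hxy : x ≠ y

/-- the colour of the two extra edges -/
def cl (z : Bool) : Fin 3 := if z then 0 else 1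

/-- the colour of the `k`-th edge at `x` if the `j`-th edge has the colour `2` and the others the colour `o` -/
def pat (j : Fin 3) (o : Fin 3) (k : Fin 3) : Fin 3 := if k = j then 2 else o

variable {f} {B : CB E} {x y : A × Bool}

/-- the roles of `x` and `y` exchanged -/
def Star.symm (S : Star B f x y) : Star B f y x where
  p := S.p
  hp := S.hp
  i := S.i
  hi := S.hi
  ex z := S.ex (!z)
  hx z := by
    have := S.hy (!z)
    rwa [Bool.not_not] at this
  hy z := S.hx (!z)
  hne z q := S.hne (!z) q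
  hin e := by
    rcases S.hin e with h | h | ⟨z, h⟩
    · exact Or.inl h
    · exact Or.inr (Or.inl h)
    · exact Or.inr (Or.inr ⟨!z, by rw [Bool.not_not]; exact h⟩)
  m := S.m'
  hm := S.hm'
  m' := S.m
  hm' z := by
    show SO (B.r z) S.m (S.ex (!(!z)))
    rw [Bool.not_not]
    exact S.hm z
  hxy := S.hxy.symm

/-- the fibre of `x` is colourable with the `j`-th edge special -/
def Star.R (S : Star B f x y) (j : Fin 3) : Prop :=
  ∃ c : E → Fin 3, (∀ z e, S.p z e = x → c (B.r z e) ≠ c e) ∧ (∀ z, c (S.ex z) = cl z) ∧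
    ∀ k, c (S.i (ie f x k)) = pat j (cl (!x.2)) k

/-- an obstruction against `S.R j` -/
structure Star.V (S : Star B f x y) (j : Fin 3) where
  Z : Bool → E → Prop
  r : E
  hZ : ∀ z e, Z z (B.r z e) ↔ Z z e
  hZx : ∀ z e, Z z e → S.p z e = x
  hex : ∀ z z', ¬ Z z (S.ex z')
  hb : ∀ e, Z (!x.2) e → Z x.2 e
  hbd : ∀ e, (Z x.2 e ∧ ¬ Z (!x.2) e) ↔ ((∃ k, k ≠ j ∧ S.i (ie f x k) = e) ∨ e = r)
  hr : r = S.i (ie f x j) ∨ ∀ z, S.p z r = x

/-- the parity of a colouring of the edges of `BG f` at the vertices other than `x`, `y` -/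
def cpar [Fintype A] [DecidableEq A] (f : Fin 3 → Equiv.Perm A) (x y : A × Bool) (φ : A × Fin 3 → Fin 3) : ZMod 2 :=
  ∑ w ∈ univ.filter (fun w => w ≠ x ∧ w ≠ y), sg (φ (ie f w 1) - φ (ie f w 0))

/-- `φ` is a colouring of `BG f` without `x`, `y` with the prescribed colours at `x`, `y` -/
def Cok (f : Fin 3 → Equiv.Perm A) (x : A × Bool) (j : Fin 3) (y : A × Bool) (k : Fin 3) (φ : A × Fin 3 → Fin 3) : Prop :=
  (∀ w, w ≠ x → w ≠ y → Injective (fun l => φ (ie f w l))) ∧ (∀ l, φ (ie f x l) = pat j (cl (!x.2)) l) ∧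
    ∀ l, φ (ie f y l) = pat k (cl y.2) l

/-- there are such colourings of both parities -/
def Both [Fintype A] [DecidableEq A] (f : Fin 3 → Equiv.Perm A) (x : A × Bool) (j : Fin 3) (y : A × Bool) (k : Fin 3) : Prop :=
  ∃ φ φ', Cok f x j y k φ ∧ Cok f x j y k φ' ∧ cpar f x y φ ≠ cpar f x y φ'

/-- the finite condition -/
structure Good [Fintype A] [DecidableEq A] (f : Fin 3 → Equiv.Perm A) : Prop where
  smp : Smp f
  adj : ∀ x j, Both f x j (nb f x j) j
  non : ∀ x y, x ≠ y → (∀ j, nb f x j ≠ y) → ∀ q q',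
    (∃ j k, j ≠ q ∧ k ≠ q' ∧ Both f x j y k) ∨
    (nb f x q = nb f y q' ∧ (∃ j k, k ≠ q' ∧ Both f x j y k) ∧ ∃ j k, j ≠ q ∧ Both f x j y k) ∨
    ((∃ j k, k ≠ q' ∧ Both f x j y k) ∧ ∃ j k, j ≠ q ∧ k ≠ q' ∧ Both f (nb f x q) j y k)

end defs

end Pool.Agent.PP
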