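import Pool.Agent.Lib_MP_7c0803_x.Base

/-!
# [X-J1] Parallel edges

`red`: `Lib_MP_7c0803_pp/Defs.lean` (`red_s`, `red_t`, `Dg.redn_R`, `Dg.redn_th`, `Sq.redn_R`, `Sq.redn_th`, `Sq.ne`, `Tri.mem`).

[X-J1] `Dg.octr`: `α = C.p true ⟨g, _⟩`.  `p true e = α` if `e ∈ R`, else `C.p true ⟨e, _⟩`; `p false e = α` if `th e ∈ R` (`e = g, e, f`), else
`C.p false ⟨th e, _⟩`; `i q = th (C.i q)`.  (`C.i q = g`: then `i q = h`, `p false h = C.p false g`, `p true h = α = C.p true g`.)
-/

set_option autoImplicit false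

open Finset Function

namespace Pool.Agent.PP

universe u v

variable {E : Type u} {A : Type v} {B : CB E} {f : Fin 3 → Equiv.Perm A}

theorem Dg.octr [DecidableEq E] (Q : Dg B) (C : OCtr (B.red Q.redn) f) : Nonempty (OCtr B f) := by
  obtain ⟨n1, n2, n3⟩ := Q.tg.ne B.s1
  obtain ⟨m1, m2, m3⟩ := Q.th.ne B.t1
  have ngh := Q.gh
  have hR : ∀ a, a ∈ Q.redn.R ↔ a = Q.e ∨ a = Q.f ∨ a = Q.h := by
    intro a
    rw [Dg.redn_R]
    simp
  have hg : Q.g ∉ Q.redn.R := by
    rw [hR]
    tauto
  have thg : Q.redn.th Q.g = Q.h := by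
    rw [Dg.redn_th]
    exact Equiv.swap_apply_left _ _
  have thh : Q.redn.th Q.h = Q.g := by
    rw [Dg.redn_th]
    exact Equiv.swap_apply_right _ _
  have tho : ∀ a, a ≠ Q.g → a ≠ Q.h → Q.redn.th a = a := by
    intro a h1 h2
    rw [Dg.redn_th]
    exact Equiv.swap_apply_of_ne_of_ne h1 h2
  have hthR : ∀ a, Q.redn.th a ∈ Q.redn.R ↔ a = Q.g ∨ a = Q.e ∨ a = Q.f := by
    intro a
    rcases eq_or_ne a Q.g with rfl | h1
    · rw [thg, hR]
      simp
    · rcases eq_or_ne a Q.h with rfl | h2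
      · rw [thh]
        exact iff_of_false hg (by tauto)
      · rw [tho a h1 h2, hR]
        tauto
  set α := C.p true ⟨Q.g, hg⟩ with hα
  let pt : E → A × Bool := fun a => if ha : a ∈ Q.redn.R then α else C.p true ⟨a, ha⟩
  let pf : E → A × Bool := fun a => if ha : Q.redn.th a ∈ Q.redn.R then α else C.p false ⟨Q.redn.th a, ha⟩
  have pt1 : ∀ a, a ∈ Q.redn.R → pt a = α := fun a ha => dif_pos ha
  have pt2 : ∀ a (ha : a ∉ Q.redn.R), pt a = C.p true ⟨a, ha⟩ := fun a ha => dif_neg ha
  have pf1 : ∀ a, Q.redn.th a ∈ Q.redn.R → pf a = α := fun a ha => dif_pos ha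
  have pf2 : ∀ a (ha : Q.redn.th a ∉ Q.redn.R), pf a = C.p false ⟨Q.redn.th a, ha⟩ := fun a ha => dif_neg ha
  refine ⟨⟨fun z => if z then pt else pf, ?_, fun q => Q.redn.th (C.i q).1, ?_, ?_⟩⟩
  · intro z a
    cases z
    · show pf (B.s a) = pf a
      by_cases ha : Q.redn.th a ∈ Q.redn.R
      · rw [pf1 a ha]
        apply pf1
        have := (Q.redn.hs (Q.redn.th a)).2 ha
        rwa [Q.redn.thth] at this
      · have h1 : Q.redn.th (B.s a) ∉ Q.redn.R := by
          intro h
          apply ha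
          rw [← Q.redn.hs (Q.redn.th a), Q.redn.thth]
          exact h
        rw [pf2 a ha, pf2 _ h1]
        have h2 := C.hp false ⟨Q.redn.th a, ha⟩
        rw [← h2]
        congr 1
        apply Subtype.ext
        rw [CB.r_false, red_s, Q.redn.thth]
    · show pt (B.t a) = pt a
      by_cases ha : a ∈ Q.redn.R
      · rw [pt1 a ha]
        exact pt1 _ ((Q.redn.ht a).2 ha)
      · have h1 : B.t a ∉ Q.redn.R := fun h => ha ((Q.redn.ht a).1 h)
        rw [pt2 a ha, pt2 _ h1]
        have h2 := C.hp true ⟨a, ha⟩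
        rw [← h2]
        congr 1
  · intro z q
    cases z
    · show pf (Q.redn.th (C.i q).1) = en f q false
      have h1 : Q.redn.th (Q.redn.th (C.i q).1) ∉ Q.redn.R := by
        rw [Q.redn.thth]
        exact (C.i q).2
      rw [pf2 _ h1, ← C.hi]
      congr 1
      apply Subtype.ext
      exact Q.redn.thth _
    · show pt (Q.redn.th (C.i q).1) = en f q true
      have h0 := (C.i q).2
      by_cases h1 : (C.i q).1 = Q.g
      · have h2 : Q.redn.th (C.i q).1 ∈ Q.redn.R := by
          rw [h1, thg, hR]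
          simp
        rw [pt1 _ h2, ← C.hi, hα]
        congr 1
        exact Subtype.ext h1.symm
      · have h2 : (C.i q).1 ≠ Q.h := by
          intro h
          apply h0
          rw [hR]
          exact Or.inr (Or.inr h)
        have h3 := tho _ h1 h2
        have h4 : Q.redn.th (C.i q).1 ∉ Q.redn.R := by
          rw [h3]
          exact h0
        rw [pt2 _ h4, ← C.hi]
        congr 1
        exact Subtype.ext h3
  · intro a
    show pf a = pt a ∨ ∃ q, Q.redn.th (C.i q).1 = a
    by_cases ha : Q.redn.th a ∈ Q.redn.R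
    · left
      rw [pf1 a ha]
      rcases (hthR a).1 ha with rfl | h | h
      · rw [pt2 _ hg]
      · rw [pt1]
        rw [hR]
        exact Or.inl h
      · rw [pt1]
        rw [hR]
        exact Or.inr (Or.inl h)
    · have hb : ¬ (a = Q.g ∨ a = Q.e ∨ a = Q.f) := fun h => ha ((hthR a).2 h)
      push Not at hb
      rcases C.hin ⟨Q.redn.th a, ha⟩ with h | ⟨q, h⟩
      · left
        rw [pf2 a ha, h]
        rcases eq_or_ne a Q.h with rfl | h2
        · rw [pt1 Q.h (by rw [hR]; simp), hα]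
          congr 1
          exact Subtype.ext thh
        · have h3 := tho a hb.1 h2
          have h4 : a ∉ Q.redn.R := by rw [← h3]; exact ha
          rw [pt2 a h4]
          congr 1
          exact Subtype.ext h3
      · right
        refine ⟨q, ?_⟩
        rw [h]
        exact Q.redn.thth a

end Pool.Agent.PP
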