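import Pool.Agent.Lib_MP_7c0803_x.Base

/-!
# [X-J2] The 4-cycle

`red`: `Lib_MP_7c0803_pp/Defs.lean` (`red_s`, `red_t`, `Dg.redn_R`, `Dg.redn_th`, `Sq.redn_R`, `Sq.redn_th`, `Sq.ne`, `Tri.mem`).

[X-J2] `Sq.star`: `α = C.p true ⟨x, _⟩`, `γ = C.p true ⟨z, _⟩`.  `p true e = α` for `e = y, e1, e2`, `γ` for `e = w, e3, e4`, else
`C.p true ⟨e, _⟩`; `p false e = α` for `e = x, e1, e4`, `γ` for `e = z, e3, e2`, else `C.p false ⟨th e, _⟩` (so `p false y = C.p false x`,
`p false w = C.p false z`); `i q = th (C.i q)` (so `y` if `C.i q = x`, `w` if `C.i q = z`).  If `α = γ`: `OCtr`.  If `α ≠ γ`: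
`Star B f α γ` with `ex false = e4`, `ex true = e2`, `m = e1`, `m' = e3`.
-/

set_option autoImplicit false

open Finset Function

namespace Pool.Agent.PP

universe u v

variable {E : Type u} {A : Type v} {B : CB E} {f : Fin 3 → Equiv.Perm A}

private lemma Tri.so {s : Equiv.Perm E} {x y z : E} (h : Tri s x y z) : SO s y z ∧ SO s z y := by
  rcases h with ⟨h1, h2, h3⟩ | ⟨h1, h2, h3⟩
  · exact ⟨Or.inl h2.symm, Or.inr (by rw [h3, h1])⟩
  · exact ⟨Or.inr (by rw [h3, h1]), Or.inl h2.symm⟩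

private lemma sq_aux [DecidableEq E] (Q : Sq B) (C : OCtr (B.red Q.redn) f) :
    ∃ (p : Bool → E → A × Bool) (i : A × Fin 3 → E) (α γ : A × Bool),
      (∀ z e, p z (B.r z e) = p z e) ∧ (∀ z q, p z (i q) = en f q z) ∧
      (∀ e, p false e = p true e ∨ (∃ q, i q = e) ∨ e = Q.e2 ∨ e = Q.e4) ∧
      (∀ q, i q ≠ Q.e2 ∧ i q ≠ Q.e4) ∧
      p false Q.e4 = α ∧ p true Q.e4 = γ ∧ p true Q.e2 = α ∧ p false Q.e2 = γ := by
  obtain ⟨⟨a1, a2, a3, a4, a5, a6, a7⟩, ⟨b1, b2, b3, b4, b5, b6⟩, ⟨c1, c2, c3, c4, c5⟩, ⟨d1, d2, d3, d4⟩,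
      ⟨f1, f2, f3⟩, ⟨g1, g2⟩, k⟩ := Q.ne
  have hR : ∀ a, a ∈ Q.redn.R ↔ (a = Q.y ∨ a = Q.e1 ∨ a = Q.e2) ∨ (a = Q.w ∨ a = Q.e3 ∨ a = Q.e4) := by
    intro a
    rw [Sq.redn_R]
    simp only [Finset.mem_insert, Finset.mem_singleton]
    tauto
  have thx : Q.redn.th Q.x = Q.y := by
    rw [Sq.redn_th]
    simp only [Equiv.Perm.mul_apply, Equiv.swap_apply_def]
    split_ifs <;> simp_all
  have thy : Q.redn.th Q.y = Q.x := by rw [← thx, Q.redn.thth]
  have thz : Q.redn.th Q.z = Q.w := by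
    rw [Sq.redn_th]
    simp only [Equiv.Perm.mul_apply, Equiv.swap_apply_def]
    split_ifs <;> simp_all
  have thw : Q.redn.th Q.w = Q.z := by rw [← thz, Q.redn.thth]
  have tho : ∀ a, a ≠ Q.x → a ≠ Q.y → a ≠ Q.z → a ≠ Q.w → Q.redn.th a = a := by
    intro a h1 h2 h3 h4
    rw [Sq.redn_th]
    simp only [Equiv.Perm.mul_apply, Equiv.swap_apply_def]
    split_ifs <;> simp_all
  have hthR : ∀ a, Q.redn.th a ∈ Q.redn.R ↔ (a = Q.x ∨ a = Q.e1 ∨ a = Q.e4) ∨ (a = Q.z ∨ a = Q.e3 ∨ a = Q.e2) := by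
    intro a
    by_cases h1 : a = Q.x
    · subst h1
      rw [thx, hR]
      simp
    by_cases h2 : a = Q.y
    · subst h2
      rw [thy, hR]
      apply iff_of_false <;> push Not <;> refine ⟨⟨?_, ?_, ?_⟩, ⟨?_, ?_, ?_⟩⟩ <;> first | assumption | (apply Ne.symm; assumption)
    by_cases h3 : a = Q.z
    · subst h3
      rw [thz, hR]
      simp
    by_cases h4 : a = Q.w
    · subst h4
      rw [thw, hR]
      apply iff_of_false <;> push Not <;> refine ⟨⟨?_, ?_, ?_⟩, ⟨?_, ?_, ?_⟩⟩ <;> first | assumption | (apply Ne.symm; assumption)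
    rw [tho a h1 h2 h3 h4, hR]
    tauto
  have hx : Q.x ∉ Q.redn.R := by
    rw [hR]
    push Not
    exact ⟨⟨f1, a4.symm, b3.symm⟩, ⟨f3, c2.symm, d1.symm⟩⟩
  have hz : Q.z ∉ Q.redn.R := by
    rw [hR]
    push Not
    exact ⟨⟨g1.symm, a6.symm, b5.symm⟩, ⟨k, c4.symm, d3.symm⟩⟩
  set α := C.p true ⟨Q.x, hx⟩ with hα
  set γ := C.p true ⟨Q.z, hz⟩ with hγ
  let pt : E → A × Bool := fun a => if ha : a ∈ Q.redn.R then (if a = Q.y ∨ a = Q.e1 ∨ a = Q.e2 then α else γ)
    else C.p true ⟨a, ha⟩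
  let pf : E → A × Bool := fun a => if ha : Q.redn.th a ∈ Q.redn.R then (if a = Q.x ∨ a = Q.e1 ∨ a = Q.e4 then α else γ)
    else C.p false ⟨Q.redn.th a, ha⟩
  have pt1 : ∀ a, (a = Q.y ∨ a = Q.e1 ∨ a = Q.e2) → pt a = α := by
    intro a ha
    show (if ha : a ∈ Q.redn.R then (if a = Q.y ∨ a = Q.e1 ∨ a = Q.e2 then α else γ) else C.p true ⟨a, ha⟩) = α
    rw [dif_pos ((hR a).2 (Or.inl ha)), if_pos ha]
  have pt3 : ∀ a, (a = Q.w ∨ a = Q.e3 ∨ a = Q.e4) → pt a = γ := by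
    intro a ha
    show (if ha : a ∈ Q.redn.R then (if a = Q.y ∨ a = Q.e1 ∨ a = Q.e2 then α else γ) else C.p true ⟨a, ha⟩) = γ
    rw [dif_pos ((hR a).2 (Or.inr ha)), if_neg]
    rcases ha with rfl | rfl | rfl <;> push Not <;> refine ⟨?_, ?_, ?_⟩ <;> first | assumption | (apply Ne.symm; assumption)
  have pt2 : ∀ a (ha : a ∉ Q.redn.R), pt a = C.p true ⟨a, ha⟩ := fun a ha => dif_neg ha
  have pf1 : ∀ a, (a = Q.x ∨ a = Q.e1 ∨ a = Q.e4) → pf a = α := by
    intro a ha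
    show (if ha : Q.redn.th a ∈ Q.redn.R then (if a = Q.x ∨ a = Q.e1 ∨ a = Q.e4 then α else γ)
      else C.p false ⟨Q.redn.th a, ha⟩) = α
    rw [dif_pos ((hthR a).2 (Or.inl ha)), if_pos ha]
  have pf3 : ∀ a, (a = Q.z ∨ a = Q.e3 ∨ a = Q.e2) → pf a = γ := by
    intro a ha
    show (if ha : Q.redn.th a ∈ Q.redn.R then (if a = Q.x ∨ a = Q.e1 ∨ a = Q.e4 then α else γ)
      else C.p false ⟨Q.redn.th a, ha⟩) = γ
    rw [dif_pos ((hthR a).2 (Or.inr ha)), if_neg]
    rcases ha with rfl | rfl | rfl <;> push Not <;> refine ⟨?_, ?_, ?_⟩ <;> first | assumption | (apply Ne.symm; assumption)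
  have pf2 : ∀ a (ha : Q.redn.th a ∉ Q.redn.R), pf a = C.p false ⟨Q.redn.th a, ha⟩ := fun a ha => dif_neg ha
  refine ⟨fun z => if z then pt else pf, fun q => Q.redn.th (C.i q).1, α, γ, ?_, ?_, ?_, ?_, pf1 _ (by simp), pt3 _ (by simp),
    pt1 _ (by simp), pf3 _ (by simp)⟩
  · intro z a
    cases z
    · show pf (B.s a) = pf a
      by_cases ha : Q.redn.th a ∈ Q.redn.R
      · rcases (hthR a).1 ha with h | h
        · rw [pf1 a h, pf1 _ ((Q.ta.mem a).2 h)]
        · rw [pf3 a h, pf3 _ ((Q.tc.mem a).2 h)]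
      · have h1 : Q.redn.th (B.s a) ∉ Q.redn.R := by
          intro h
          apply ha
          rw [← Q.redn.hs (Q.redn.th a), Q.redn.thth]
          exact h
        rw [pf2 a ha, pf2 _ h1]
        have h2 := C.hp false ⟨Q.redn.th a, ha⟩
        rw [← h2]
        congr 1
        apply Subtype.ext
        rw [CB.r_false, red_s, Q.redn.thth]
    · show pt (B.t a) = pt a
      by_cases ha : a ∈ Q.redn.R
      · rcases (hR a).1 ha with h | h
        · rw [pt1 a h, pt1 _ ((Q.tb.mem a).2 h)]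
        · rw [pt3 a h, pt3 _ ((Q.td.mem a).2 h)]
      · have h1 : B.t a ∉ Q.redn.R := fun h => ha ((Q.redn.ht a).1 h)
        rw [pt2 a ha, pt2 _ h1]
        have h2 := C.hp true ⟨a, ha⟩
        rw [← h2]
        congr 1
  · intro z q
    cases z
    · show pf (Q.redn.th (C.i q).1) = en f q false
      have h1 : Q.redn.th (Q.redn.th (C.i q).1) ∉ Q.redn.R := by
        rw [Q.redn.thth]
        exact (C.i q).2
      rw [pf2 _ h1, ← C.hi]
      congr 1
      apply Subtype.ext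
      exact Q.redn.thth _
    · show pt (Q.redn.th (C.i q).1) = en f q true
      have h0 := (C.i q).2
      by_cases h1 : (C.i q).1 = Q.x
      · rw [h1, thx, pt1 _ (by simp), ← C.hi, hα]
        congr 1
        exact Subtype.ext h1.symm
      by_cases h2 : (C.i q).1 = Q.z
      · rw [h2, thz, pt3 _ (by simp), ← C.hi, hγ]
        congr 1
        exact Subtype.ext h2.symm
      have h3 := tho _ h1 (fun h => h0 ((hR _).2 (Or.inl (Or.inl h)))) h2 (fun h => h0 ((hR _).2 (Or.inr (Or.inl h))))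
      have h4 : Q.redn.th (C.i q).1 ∉ Q.redn.R := by
        rw [h3]
        exact h0
      rw [pt2 _ h4, ← C.hi]
      congr 1
      exact Subtype.ext h3
  · intro a
    show pf a = pt a ∨ (∃ q, Q.redn.th (C.i q).1 = a) ∨ a = Q.e2 ∨ a = Q.e4
    by_cases e2 : a = Q.e2
    · exact Or.inr (Or.inr (Or.inl e2))
    by_cases e4 : a = Q.e4
    · exact Or.inr (Or.inr (Or.inr e4))
    by_cases e1 : a = Q.e1
    · left
      rw [pf1 a (Or.inr (Or.inl e1)), pt1 a (Or.inr (Or.inl e1))]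
    by_cases e3 : a = Q.e3
    · left
      rw [pf3 a (Or.inr (Or.inl e3)), pt3 a (Or.inr (Or.inl e3))]
    by_cases h1 : a = Q.x
    · left
      subst h1
      rw [pf1 _ (Or.inl rfl), pt2 _ hx]
    by_cases h3 : a = Q.z
    · left
      subst h3
      rw [pf3 _ (Or.inl rfl), pt2 _ hz]
    have ha : Q.redn.th a ∉ Q.redn.R := by
      rw [hthR]
      tauto
    rcases C.hin ⟨Q.redn.th a, ha⟩ with h | ⟨q, h⟩
    · left
      rw [pf2 a ha, h]
      by_cases h2 : a = Q.y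
      · rw [pt1 a (Or.inl h2), hα]
        congr 1
        apply Subtype.ext
        show Q.redn.th a = Q.x
        rw [h2, thy]
      by_cases h4 : a = Q.w
      · rw [pt3 a (Or.inl h4), hγ]
        congr 1
        apply Subtype.ext
        show Q.redn.th a = Q.z
        rw [h4, thw]
      have h5 := tho a h1 h2 h3 h4
      have h6 : a ∉ Q.redn.R := by rw [← h5]; exact ha
      rw [pt2 a h6]
      congr 1
      exact Subtype.ext h5
    · right
      left
      refine ⟨q, ?_⟩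
      rw [h]
      exact Q.redn.thth a
  · intro q
    show Q.redn.th (C.i q).1 ≠ Q.e2 ∧ Q.redn.th (C.i q).1 ≠ Q.e4
    have h0 := (C.i q).2
    constructor
    · intro h
      apply h0
      have h1 : (C.i q).1 = Q.redn.th Q.e2 := by rw [← h, Q.redn.thth]
      rw [h1, tho Q.e2 b3 b4 b5 b6, hR]
      simp
    · intro h
      apply h0
      have h1 : (C.i q).1 = Q.redn.th Q.e4 := by rw [← h, Q.redn.thth]
      rw [h1, tho Q.e4 d1 d2 d3 d4, hR]
      simp

theorem Sq.star [DecidableEq E] (Q : Sq B) (C : OCtr (B.red Q.redn) f) :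
    Nonempty (OCtr B f) ∨ ∃ x y, Nonempty (Star B f x y) := by
  obtain ⟨p, i, α, γ, hp, hi, hin, hne, h1, h2, h3, h4⟩ := sq_aux Q C
  by_cases h : α = γ
  · left
    subst h
    refine ⟨⟨p, hp, i, hi, ?_⟩⟩
    intro e
    rcases hin e with h5 | h5 | rfl | rfl
    · exact Or.inl h5
    · exact Or.inr h5
    · left
      rw [h4, h3]
    · left
      rw [h1, h2]
  · right
    refine ⟨α, γ, ⟨⟨p, hp, i, hi, fun z => if z then Q.e2 else Q.e4, ?_, ?_, ?_, ?_, Q.e1, ?_, Q.e3, ?_, h⟩⟩⟩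
    · intro z
      cases z
      · exact h1
      · exact h3
    · intro z
      cases z
      · exact h2
      · exact h4
    · intro z q
      cases z
      · exact (hne q).2
      · exact (hne q).1
    · intro e
      rcases hin e with h5 | h5 | h5 | h5
      · exact Or.inl h5
      · exact Or.inr (Or.inl h5)
      · exact Or.inr (Or.inr ⟨true, h5.symm⟩)
      · exact Or.inr (Or.inr ⟨false, h5.symm⟩)
    · intro z
      cases z
      · exact Q.ta.so.1
      · exact Q.tb.so.1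
    · intro z
      cases z
      · exact Q.tc.so.1
      · exact Q.td.so.1

end Pool.Agent.PP
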