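import Pool.Agent.Lib_MP_7c0803_x.Main
import Pool.Agent.Lib_MP_7c0803_x.Lift1
import Pool.Agent.Lib_MP_7c0803_x.Lift2
import Pool.Agent.Lib_MP_7c0803_x.Cyc1
import Pool.Agent.Lib_MP_7c0803_tor.Stuck0
import Pool.Agent.Lib_MP_7c0803_kb.Kt

/-!
# Descent: a graph of Euler characteristic at least zero with constant parity and more than one Kempe class contracts onto one of three graphs
-/

set_option autoImplicit false

open Finset Function

namespace Pool.Agent.PP

universe u v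

variable {E : Type u} {A : Type v}

theorem OCtr.uiso {A' : Type v} {B : CB E} {f : Fin 3 → Equiv.Perm A} (i : Nonempty (UIso B (BG f))) : Nonempty (OCtr B f) := by
  obtain ⟨i⟩ := i
  exact i.octr

/-- the honeycomb graphs with constant parity -/
theorem stuck_spc [Fintype E] (B : CB E) (tw : E → Bool) (hp : B.PC) (hC : B.Cn) (hχ : B.Chi0 tw) (hne : Nonempty E)
    (hT : IsEmpty (Th B)) (hD : IsEmpty (Dg B)) (hS : IsEmpty (Sq B)) :
    (∃ L, (IsTube L ∨ L = Lt (2, 2) (0, 8) ∨ L = Lt (2, 1) (-7, 0) ∨ L = Lt (2, 1) (-10, 0)) ∧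
      Nonempty (UIso B (HT L))) ∨
    ∃ m, 2 ≤ m ∧ m % 2 = 0 ∧ Nonempty (UIso B (KB m 2 0)) := by
  classical
  have h6 := hexagons B tw hχ hT hD hS
  have h3 := dc_h3 B tw h6
  by_cases hn : (dc B tw).Cn
  · right
    obtain ⟨a, b, c, ⟨K⟩⟩ := exists_KCo B tw hn h3 (dc_h1 B tw hT hD)
    obtain ⟨ha, hb⟩ := K.big hT hD hS
    obtain ⟨r, ⟨i⟩⟩ := K.uiso
    have h7 : (KB a b r).PC := i.PC.1 hp
    have h8 : ¬ (a % 2 = 1 ∨ 3 ≤ b) := fun h => npc_kb a b ha hb r h h7
    obtain rfl : b = 2 := by omega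
    obtain ⟨i'⟩ := kb_all a 2 r 0
    exact ⟨a, ha, by omega, ⟨i.trans i'⟩⟩
  · left
    obtain ⟨L, n, hn, h1, h2, hnm, i⟩ := untw B tw hC hn h3 hT hD hS
    exact spc_of_pc B L n hn h1 h2 hnm i hp

theorem stuck_octr [Fintype E] (B : CB E) (tw : E → Bool) (hp : B.PC) (hnc : ¬ B.Con) (hC : B.Cn) (hχ : B.Chi0 tw) (hne : Nonempty E)
    (hT : IsEmpty (Th B)) (hD : IsEmpty (Dg B)) (hS : IsEmpty (Sq B)) :
    Nonempty (OCtr B (cyf 7 1 5)) ∨ Nonempty (OCtr B (cyf 10 1 8)) ∨ Nonempty (OCtr B (kf 2 2 0)) := by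
  classical
  rcases stuck_spc B tw hp hC hχ hne hT hD hS with ⟨L, hL, ⟨i⟩⟩ | ⟨m, hm, hm2, ⟨i⟩⟩
  · rcases hL with hL | hL | hL | hL
    · exact absurd (i.Con.2 (con_IsTube _ hL)) hnc
    · subst hL
      exact absurd (i.Con.2 con_T32) hnc
    · subst hL
      obtain ⟨k⟩ := ht14
      exact Or.inl (i.trans k).octr
    · subst hL
      obtain ⟨k⟩ := ht20
      exact Or.inr (Or.inl (i.trans k).octr)
  · by_cases h : m = 2
    · subst h
      exact Or.inr (Or.inr (UIso.octr i))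
    · exact absurd (i.Con.2 (con_kb m (by omega) (by omega) 0)) hnc

private lemma Desc_card_lt [Fintype E] [DecidableEq E] (R : Finset E) (x : E) (hx : x ∈ R) :
    Fintype.card {e // e ∉ R} < Fintype.card E :=
  Fintype.card_subtype_lt (x := x) (by simpa using hx)

theorem exists_octr (h14 : Good (cyf 7 1 5)) (h20 : Good (cyf 10 1 8)) (h18 : Good (kf 2 2 0)) (N : ℕ) :
    ∀ (E : Type v) [Fintype E] (B : CB E) (tw : E → Bool),
    Fintype.card E ≤ N → B.PC → ¬ B.Con → B.Cn → B.Chi0 tw →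
    Nonempty (OCtr B (cyf 7 1 5)) ∨ Nonempty (OCtr B (cyf 10 1 8)) ∨ Nonempty (OCtr B (kf 2 2 0)) := by
  induction N with
  | zero =>
    intro E _ B tw hN _ hnC _ _
    exfalso
    have : IsEmpty E := Fintype.card_eq_zero_iff.mp (by omega)
    exact hnC (red_con E B (Red.empty E B this) (fun c c' _ _ => by rw [Subsingleton.elim c c']))
  | succ N ih =>
    intro E _ B tw hN hp hnC hcn hchi
    classical
    by_cases hT : Nonempty (Th B)
    · obtain ⟨Q⟩ := hT
      exfalso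
      have hE := Q.empty hcn
      exact hnC (theta_Con Q (red_con _ _ (Red.empty _ _ hE) (fun c c' _ _ => by rw [Subsingleton.elim c c'])))
    by_cases hD : Nonempty (Dg B)
    · obtain ⟨Q⟩ := hD
      have hlt := Desc_card_lt Q.redn.R Q.e (by simp [Dg.redn_R])
      obtain ⟨tw', h1, -⟩ := Q.chi0 tw hchi
      rcases ih _ _ tw' (by omega) (digon_PC Q hp) (fun h => hnC (digon_Con Q h)) (Q.conn hcn) h1 with ⟨⟨C⟩⟩ | ⟨⟨C⟩⟩ | ⟨⟨C⟩⟩
      · exact Or.inl (Q.octr C)
      · exact Or.inr (Or.inl (Q.octr C))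
      · exact Or.inr (Or.inr (Q.octr C))
    by_cases hS : Nonempty (Sq B)
    · obtain ⟨Q⟩ := hS
      have key : ∀ Q : Sq B, (B.red Q.redn).Cn →
          Nonempty (OCtr B (cyf 7 1 5)) ∨ Nonempty (OCtr B (cyf 10 1 8)) ∨ Nonempty (OCtr B (kf 2 2 0)) := by
        intro Q hQ
        have hlt := Desc_card_lt Q.redn.R Q.e1 (by simp [Sq.redn_R])
        obtain ⟨tw', h1, -⟩ := Q.chi0 tw hchi
        rcases ih _ _ tw' (by omega) (square_PC Q hp) (fun h => hnC (square_Con Q hp h)) hQ h1 with ⟨⟨C⟩⟩ | ⟨⟨C⟩⟩ | ⟨⟨C⟩⟩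
        · rcases Q.star C with h | ⟨x, y, ⟨S⟩⟩
          · exact Or.inl h
          · exact Or.inl (S.main h14 hcn hp)
        · rcases Q.star C with h | ⟨x, y, ⟨S⟩⟩
          · exact Or.inr (Or.inl h)
          · exact Or.inr (Or.inl (S.main h20 hcn hp))
        · rcases Q.star C with h | ⟨x, y, ⟨S⟩⟩
          · exact Or.inr (Or.inr h)
          · exact Or.inr (Or.inr (S.main h18 hcn hp))
      rcases Q.conn hcn with h | h
      · exact key Q h
      · exact key Q.flip h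
    · have hne : Nonempty E := by
        by_contra hE
        rw [not_nonempty_iff] at hE
        exact hnC (red_con E B (Red.empty E B hE) (fun c c' _ _ => by rw [Subsingleton.elim c c']))
      exact stuck_octr B tw hp hnC hcn hchi hne (not_nonempty_iff.mp hT) (not_nonempty_iff.mp hD) (not_nonempty_iff.mp hS)

end Pool.Agent.PP
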