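import Pool.Agent.Lib_MP_7c0803_x.FibDefs

/-!
# [X-D2] The obstruction from Hall's theorem

`z = x.2`, `T k = S.T k` the three edges at `x` (`S.T_def`), `{j, k1, k2} = {0, 1, 2}`.  An edge with exactly one end in the fibre of `x` is one of
`T 0, T 1, T 2, ex z` (the `z`-end is in the fibre) or `ex (!z)` (the `!z`-end): `S.cls`, `S.cls'`, `S.bd`.  `S.V j` is in `Defs.lean`.

`RV_hall`: here `Z0 ⊆ Q` is a Hall obstruction; `Z (!z) = Z0`, `Z z = N Z0 = {e | e ∈ Z0 ∨ r z e ∈ Z0 ∨ r z (r z e) ∈ Z0}`.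
`Z0 ⊆ N Z0 ⊆ {p z = x}` (an edge of `Z0` has `p (!z) e = x` and is not `ex (!z)`, so `p z e = x` by `S.cls'`).  `N Z0 ≠ Z0`: otherwise `Z0` is closed
under both rotations, so it is everything (`hC`), but `ex (!z) ∉ Z0`.  By `card3` (multiples of three): `#(P ∩ N Z0) ≤ #Z0 - 3`,
`#N Z0 ≥ #Z0 + 3`, `#N Z0 ≤ #(P ∩ N Z0) + 6`.  So `#(N Z0 \ Z0) = 3` and `T k1, T k2 ∈ N Z0`; `r` = the third element of `N Z0 \ Z0`.
`ex z ∉ N Z0`: else `ex z, m, T k1, T k2` are four elements of `N Z0 \ Z0` (`m ∉ Z0` since `m` and `ex (!z)` have the same `!z`-end).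
So `r = T j` or `r` is inside the fibre (`S.cls`).
-/

set_option autoImplicit false

open Finset Function

namespace Pool.Agent.PP

universe u v

variable {E : Type u} {A : Type v} {B : CB E} {f : Fin 3 → Equiv.Perm A} {x y : A × Bool}

/-- the orbit of an edge under a rotation -/
private def D2_ob (B : CB E) (z : Bool) (a : E) : Set E := {e | e = a ∨ SO (B.r z) a e}

private lemma D2_ob_r (B : CB E) (z : Bool) {a e : E} (h : e ∈ D2_ob B z a) : B.r z e ∈ D2_ob B z a := by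
  rcases h with h | h | h
  · subst h
    exact Or.inr (Or.inl rfl)
  · subst h
    exact Or.inr (Or.inr rfl)
  · subst h
    exact Or.inl (B.r3 z a)

private lemma D2_ob_iff (B : CB E) (z : Bool) {a e : E} : B.r z e ∈ D2_ob B z a ↔ e ∈ D2_ob B z a := by
  constructor
  · intro h
    have h1 := D2_ob_r B z (D2_ob_r B z h)
    rwa [B.r3] at h1
  · exact D2_ob_r B z

private lemma D2_ob_card [Finite E] (B : CB E) (z : Bool) (a : E) : (D2_ob B z a).ncard ≤ 3 := by
  have h1 : D2_ob B z a ⊆ {a, B.r z a, B.r z (B.r z a)} := by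
    intro e he
    rcases he with h | h | h
    · exact Or.inl h
    · exact Or.inr (Or.inl h)
    · exact Or.inr (Or.inr h)
  have h2 := Set.ncard_le_ncard h1 (Set.toFinite _)
  have h3 := Set.ncard_insert_le a ({B.r z a, B.r z (B.r z a)} : Set E)
  have h4 := Set.ncard_insert_le (B.r z a) ({B.r z (B.r z a)} : Set E)
  rw [Set.ncard_singleton] at h4
  omega

/-- an invariant set which contains an element of an orbit contains the whole orbit -/
private lemma D2_inv (B : CB E) (z : Bool) {N : Set E} (hN : ∀ e, B.r z e ∈ N ↔ e ∈ N) {a e : E}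
    (he : e ∈ D2_ob B z a) : e ∈ N ↔ a ∈ N := by
  rcases he with h | h | h
  · rw [h]
  · rw [h, hN]
  · rw [h, hN, hN]

private lemma D2_fin : ∀ j k1 k2 k : Fin 3, j ≠ k1 → j ≠ k2 → k1 ≠ k2 → k ≠ j → k = k1 ∨ k = k2 := by
  decide

theorem Star.RV_hall [Finite E] (hf : Smp f) (hC : B.Cn) (S : Star B f x y) {j k1 k2 : Fin 3} (h1 : j ≠ k1) (h2 : j ≠ k2) (h3 : k1 ≠ k2)
    (hn : ¬ SO (B.r x.2) (S.T k1) (S.T k2)) (Z0 : Set E) (hZ : ∀ e, B.r (!x.2) e ∈ Z0 ↔ e ∈ Z0) (hQ : Z0 ⊆ S.QQ) (hne : Z0.Nonempty)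
    (hlt : ({e | e ∈ S.PP k1 k2 ∧ (e ∈ Z0 ∨ B.r x.2 e ∈ Z0 ∨ B.r x.2 (B.r x.2 e) ∈ Z0)} : Set E).ncard < Z0.ncard) :
    Nonempty (S.V j) := by
  classical
  -- the neighbourhood
  obtain ⟨N, hNdef⟩ : ∃ N : Set E, N = {e | e ∈ Z0 ∨ B.r x.2 e ∈ Z0 ∨ B.r x.2 (B.r x.2 e) ∈ Z0} := ⟨_, rfl⟩
  have hNm : ∀ e, e ∈ N ↔ (e ∈ Z0 ∨ B.r x.2 e ∈ Z0 ∨ B.r x.2 (B.r x.2 e) ∈ Z0) := by
    intro e
    rw [hNdef]
    rfl
  have hZN : Z0 ⊆ N := fun e he => (hNm e).2 (Or.inl he)
  have hNr : ∀ e, B.r x.2 e ∈ N ↔ e ∈ N := by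
    intro e
    rw [hNm, hNm, B.r3]
    tauto
  have hQx : ∀ e ∈ Z0, S.p (!x.2) e = x := fun e he => (hQ he).1
  have hZx : ∀ e ∈ Z0, S.p x.2 e = x := by
    intro e he
    by_contra hc
    exact (hQ he).2.1 (S.cls' (hQx e he) hc)
  have hNx : ∀ e ∈ N, S.p x.2 e = x := by
    intro e he
    rcases (hNm e).1 he with h | h | h
    · exact hZx e h
    · rw [← S.hp]
      exact hZx _ h
    · rw [← S.hp, ← S.hp]
      exact hZx _ h
  have hexZ' : S.ex (!x.2) ∉ Z0 := fun h => (hQ h).2.1 rfl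
  have hexN' : S.ex (!x.2) ∉ N := by
    intro h
    have h4 := hNx _ h
    have h5 := S.hy (!x.2)
    rw [Bool.not_not, h4] at h5
    exact S.hxy h5
  have hexZ : S.ex x.2 ∉ Z0 := by
    intro h
    have h4 := hQx _ h
    rw [S.hy] at h4
    exact S.hxy h4.symm
  -- the numbers of elements
  have c1 : 3 ∣ Z0.ncard := card3 B (!x.2) Z0 hZ
  have c2 : 3 ∣ N.ncard := card3 B x.2 N hNr
  obtain ⟨M, hMdef⟩ : ∃ M : Set E, M = {e | e ∈ S.PP k1 k2 ∧ (e ∈ Z0 ∨ B.r x.2 e ∈ Z0 ∨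
      B.r x.2 (B.r x.2 e) ∈ Z0)} := ⟨_, rfl⟩
  have hMm : ∀ e, e ∈ M ↔ (S.p x.2 e = x ∧ e ∉ D2_ob B x.2 (S.T k1) ∧ e ∉ D2_ob B x.2 (S.T k2)) ∧ e ∈ N := by
    intro e
    rw [hMdef, hNm]
    simp only [Set.mem_ofPred_eq, Star.PP, D2_ob, not_or, ne_eq]
    tauto
  have hMr : ∀ e, B.r x.2 e ∈ M ↔ e ∈ M := by
    intro e
    rw [hMm, hMm, S.hp, D2_ob_iff, D2_ob_iff, hNr]
  have c3 : 3 ∣ M.ncard := card3 B x.2 M hMr
  rw [← hMdef] at hlt
  have hNZ : N ≠ Z0 := by
    intro h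
    have hall : Z0 = Set.univ := by
      apply hC Z0 hne
      intro e he
      have e1 : B.r x.2 e ∈ Z0 := by
        rw [← h]
        exact (hNr e).2 (hZN he)
      have e2 : B.r (!x.2) e ∈ Z0 := (hZ e).2 he
      revert e1 e2
      generalize x.2 = z
      intro e1 e2
      cases z
      · exact ⟨e1, e2⟩
      · exact ⟨e2, e1⟩
    apply hexZ'
    rw [hall]
    trivial
  have c4 : Z0.ncard < N.ncard :=
    Set.ncard_lt_ncard (Set.ssubset_iff_subset_ne.2 ⟨hZN, fun h => hNZ h.symm⟩) (Set.toFinite _)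
  have hcov : N ⊆ (M ∪ D2_ob B x.2 (S.T k1)) ∪ D2_ob B x.2 (S.T k2) := by
    intro e he
    by_cases e1 : e ∈ D2_ob B x.2 (S.T k1)
    · exact Or.inl (Or.inr e1)
    by_cases e2 : e ∈ D2_ob B x.2 (S.T k2)
    · exact Or.inr e2
    · exact Or.inl (Or.inl ((hMm e).2 ⟨⟨hNx e he, e1, e2⟩, he⟩))
  have o1 := D2_ob_card B x.2 (S.T k1)
  have o2 := D2_ob_card B x.2 (S.T k2)
  have c5 : N.ncard ≤ M.ncard + 6 := by
    have e1 := Set.ncard_le_ncard hcov (Set.toFinite _)
    have e2 := Set.ncard_union_le (M ∪ D2_ob B x.2 (S.T k1)) (D2_ob B x.2 (S.T k2))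
    have e3 := Set.ncard_union_le M (D2_ob B x.2 (S.T k1))
    omega
  have ht1 : S.T k1 ∈ N := by
    by_contra hc
    have e0 : N ⊆ M ∪ D2_ob B x.2 (S.T k2) := by
      intro e he
      rcases hcov he with (e1 | e1) | e1
      · exact Or.inl e1
      · exact absurd ((D2_inv B x.2 hNr e1).1 he) hc
      · exact Or.inr e1
    have e1 := Set.ncard_le_ncard e0 (Set.toFinite _)
    have e2 := Set.ncard_union_le M (D2_ob B x.2 (S.T k2))
    omega
  have ht2 : S.T k2 ∈ N := by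
    by_contra hc
    have e0 : N ⊆ M ∪ D2_ob B x.2 (S.T k1) := by
      intro e he
      rcases hcov he with (e1 | e1) | e1
      · exact Or.inl e1
      · exact Or.inr e1
      · exact absurd ((D2_inv B x.2 hNr e1).1 he) hc
    have e1 := Set.ncard_le_ncard e0 (Set.toFinite _)
    have e2 := Set.ncard_union_le M (D2_ob B x.2 (S.T k1))
    omega
  have hTZ : ∀ k, S.T k ∉ Z0 := fun k h => S.T_ne k (hQx _ h)
  obtain ⟨D, hD⟩ : ∃ D : Set E, D = N \ Z0 := ⟨_, rfl⟩
  have hDm : ∀ e, e ∈ D ↔ e ∈ N ∧ e ∉ Z0 := by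
    intro e
    rw [hD]
    rfl
  have c6 : D.ncard = 3 := by
    have e1 := Set.ncard_sdiff_add_ncard_of_subset hZN (Set.toFinite _)
    rw [← hD] at e1
    omega
  have d1 : S.T k1 ∈ D := (hDm _).2 ⟨ht1, hTZ _⟩
  have d2 : S.T k2 ∈ D \ {S.T k1} := ⟨(hDm _).2 ⟨ht2, hTZ _⟩, fun h => h3 (S.T_inj hf h).symm⟩
  have c7 := Set.ncard_sdiff_singleton_add_one d1 (Set.toFinite _)
  have c8 := Set.ncard_sdiff_singleton_add_one d2 (Set.toFinite _)
  have c9 : ((D \ {S.T k1}) \ {S.T k2}).ncard = 1 := by omega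
  obtain ⟨r, hr⟩ := Set.ncard_eq_one.1 c9
  have hrD : (r ∈ D ∧ r ≠ S.T k1) ∧ r ≠ S.T k2 := by
    have : r ∈ (D \ {S.T k1}) \ {S.T k2} := by
      rw [hr]
      rfl
    exact this
  have hDr : ∀ e, e ∈ D ↔ e = S.T k1 ∨ e = S.T k2 ∨ e = r := by
    intro e
    constructor
    · intro he
      by_cases e1 : e = S.T k1
      · exact Or.inl e1
      by_cases e2 : e = S.T k2
      · exact Or.inr (Or.inl e2)
      · right; right
        have : e ∈ (D \ {S.T k1}) \ {S.T k2} := ⟨⟨he, e1⟩, e2⟩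
        rw [hr] at this
        exact this
    · rintro (rfl | rfl | rfl)
      · exact d1
      · exact d2.1
      · exact hrD.1.1
  -- the edge `ex z` is not in the neighbourhood
  have hexN : S.ex x.2 ∉ N := by
    intro h
    have m1 : S.ex x.2 ∈ D := (hDm _).2 ⟨h, hexZ⟩
    have m2 : S.m ∈ N := (D2_inv B x.2 hNr (Or.inr (S.hm x.2))).1 h
    have m3 : S.m ∉ Z0 := by
      intro h4
      apply (hQ h4).2.2
      rcases S.hm (!x.2) with h5 | h5
      · right
        rw [h5, B.r3]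
      · left
        rw [h5, B.r3]
    have m4 : S.m ∈ D := (hDm _).2 ⟨m2, m3⟩
    have m5 : ∀ k, S.m ≠ S.T k := by
      intro k h5
      apply S.T_ne k
      rw [← h5]
      exact S.m_p _
    have m6 : S.ex x.2 ≠ S.m := by
      intro h5
      have h6 := S.hy x.2
      rw [h5, S.m_p] at h6
      exact S.hxy h6
    have m7 : S.ex x.2 = r := by
      rcases (hDr _).1 m1 with h5 | h5 | h5
      · exact absurd h5.symm (S.T_ex _ _)
      · exact absurd h5.symm (S.T_ex _ _)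
      · exact h5
    have m8 : S.m = r := by
      rcases (hDr _).1 m4 with h5 | h5 | h5
      · exact absurd h5 (m5 _)
      · exact absurd h5 (m5 _)
      · exact h5
    exact m6 (m7.trans m8.symm)
  have hzz : ∀ z : Bool, z ≠ x.2 → z = !x.2 := by
    intro z hz
    revert hz
    generalize x.2 = w
    cases z <;> cases w <;> simp
  refine ⟨{
    Z := fun z e => if z = x.2 then e ∈ N else e ∈ Z0
    r := r
    hZ := ?_
    hZx := ?_
    hex := ?_
    hb := ?_
    hbd := ?_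
    hr := ?_ }⟩
  · intro z e
    by_cases hz : z = x.2
    · rw [if_pos hz, if_pos hz, hz]
      exact hNr e
    · rw [if_neg hz, if_neg hz, hzz z hz]
      exact hZ e
  · intro z e he
    by_cases hz : z = x.2
    · rw [if_pos hz] at he
      rw [hz]
      exact hNx e he
    · rw [if_neg hz] at he
      rw [hzz z hz]
      exact hQx e he
  · intro z z' he
    by_cases hz : z = x.2
    · rw [if_pos hz] at he
      by_cases hz' : z' = x.2
      · rw [hz'] at he
        exact hexN he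
      · rw [hzz z' hz'] at he
        exact hexN' he
    · rw [if_neg hz] at he
      by_cases hz' : z' = x.2
      · rw [hz'] at he
        exact hexZ he
      · rw [hzz z' hz'] at he
        exact hexZ' he
  · intro e he
    have hz : (!x.2) ≠ x.2 := by simp
    rw [if_neg hz] at he
    rw [if_pos rfl]
    exact hZN he
  · intro e
    have hz : (!x.2) ≠ x.2 := by simp
    rw [if_neg hz, if_pos rfl, ← hDm, hDr]
    constructor
    · rintro (h | h | h)
      · exact Or.inl ⟨k1, h1.symm, h.symm⟩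
      · exact Or.inl ⟨k2, h2.symm, h.symm⟩
      · exact Or.inr h
    · rintro (⟨k, hk, h⟩ | h)
      · have hk' : k = k1 ∨ k = k2 := D2_fin j k1 k2 k h1 h2 h3 hk
        rcases hk' with rfl | rfl
        · exact Or.inl h.symm
        · exact Or.inr (Or.inl h.symm)
      · exact Or.inr (Or.inr h)
  · have hrN : r ∈ N := ((hDm r).1 hrD.1.1).1
    by_cases hc : S.p (!x.2) r = x
    · right
      intro z
      by_cases hz : z = x.2
      · rw [hz]
        exact hNx r hrN
      · rw [hzz z hz]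
        exact hc
    · left
      rcases S.cls (hNx r hrN) hc with ⟨k, hk⟩ | h
      · have hkj : k = j := by
          have n1 : k ≠ k1 := by
            rintro rfl
            exact hrD.1.2 hk.symm
          have n2 : k ≠ k2 := by
            rintro rfl
            exact hrD.2 hk.symm
          by_contra n3
          rcases D2_fin j k1 k2 k h1 h2 h3 n3 with n4 | n4
          · exact n1 n4
          · exact n2 n4
        rw [← hkj]
        exact hk.symm
      · exact absurd (h ▸ hrN) hexN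

end Pool.Agent.PP
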