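import Mathlib

/-!
# [X-B] Two involutions

`inv2`: pass to `E × Bool` and the involutions without fixed points `σ' (e, b) = if σ e = e then (e, !b) else (σ e, b)`, `τ'` the same with `τ`.
For fixed-point-free involutions `σ'`, `τ'` of a finite set there is `c` with `c (σ' a) ≠ c a`, `c (τ' a) ≠ c a` for all `a`: let `ρ = τ' σ'` (a
permutation, `σ' ρ σ' = ρ⁻¹`); `a` and `σ' a` are in different `ρ`-orbits (if `ρ ^ (2 m) a = σ' a` then `σ'` fixes `ρ ^ m a`, if
`ρ ^ (2 m + 1) a = σ' a` then `τ'` fixes `ρ ^ (m + 1) a`; exponents in `ℤ` or `ℕ`), `σ'` induces an involution without fixed points on the set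
of the `ρ`-orbits; choose one orbit of every pair.  Any other proof is as good (e.g. the bipartiteness of a graph with maximal degree two
whose cycles alternate, or a walk argument).  Then `c e = c' (e, false)`.
-/

set_option autoImplicit false

open Finset Function

namespace Pool.Agent.PP

universe u

/-- A map without fixed points which is an involution has a 2-colouring which changes along it. -/
private lemma inv1 {Q : Type u} (s : Q → Q) (hs : ∀ q, s (s q) = q) (hf : ∀ q, s q ≠ q) :
    ∃ c : Q → Bool, ∀ q, c (s q) ≠ c q := by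
  classical
  refine ⟨fun q => decide (WellOrderingRel q (s q)), fun q => ?_⟩
  have h1 : WellOrderingRel q (s q) ∨ q = s q ∨ WellOrderingRel (s q) q :=
    trichotomous_of WellOrderingRel q (s q)
  have h2 : ¬ (WellOrderingRel q (s q) ∧ WellOrderingRel (s q) q) :=
    fun h => asymm_of WellOrderingRel h.1 h.2
  simp only [hs q]
  by_cases h3 : WellOrderingRel q (s q)
  · have h4 : ¬ WellOrderingRel (s q) q := fun h => h2 ⟨h3, h⟩
    simp [h3, h4]
  · have h4 : WellOrderingRel (s q) q := by
      rcases h1 with h | h | h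
      · exact absurd h h3
      · exact absurd h.symm (hf q)
      · exact h
    simp [h3, h4]

/-- The case of two involutions without fixed points. -/
private lemma inv2_free {E : Type u} (σ τ : E → E) (hσ : ∀ e, σ (σ e) = e) (hτ : ∀ e, τ (τ e) = e)
    (fσ : ∀ e, σ e ≠ e) (fτ : ∀ e, τ e ≠ e) :
    ∃ c : E → Bool, (∀ e, c (σ e) ≠ c e) ∧ ∀ e, c (τ e) ≠ c e := by
  classical
  let S : Equiv.Perm E := Function.Involutive.toPerm σ hσ
  let T : Equiv.Perm E := Function.Involutive.toPerm τ hτ
  have hS : ∀ e, S e = σ e := fun _ => rfl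
  have hT : ∀ e, T e = τ e := fun _ => rfl
  let ρ : Equiv.Perm E := T * S
  have hSS : S * S = 1 := by
    ext e
    simp [Equiv.Perm.mul_apply, hS, hσ]
  have hTT : T * T = 1 := by
    ext e
    simp [Equiv.Perm.mul_apply, hT, hτ]
  have hSi : S⁻¹ = S := inv_eq_of_mul_eq_one_left hSS
  have hTi : T⁻¹ = T := inv_eq_of_mul_eq_one_left hTT
  have hconj : S * ρ * S⁻¹ = ρ⁻¹ := by
    show S * (T * S) * S⁻¹ = (T * S)⁻¹
    rw [mul_inv_rev, hTi]
    rw [← mul_assoc, mul_assoc (S * T), mul_inv_cancel, mul_one, hSi]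
  have hconjz : ∀ m : ℤ, S * ρ ^ m = ρ ^ (-m) * S := by
    intro m
    have h := conj_zpow (i := m) (a := S) (b := ρ)
    rw [hconj, inv_zpow, ← zpow_neg] at h
    rw [h]
    simp [mul_assoc]
  have hap : ∀ (m : ℤ) (a : E), σ ((ρ ^ m) a) = (ρ ^ (-m)) (σ a) := by
    intro m a
    have h := congrArg (fun f : Equiv.Perm E => f a) (hconjz m)
    simpa [Equiv.Perm.mul_apply, hS] using h
  have hne : ∀ (k : ℤ) (a : E), (ρ ^ k) a ≠ σ a := by
    intro k a hk
    rcases Int.even_or_odd' k with ⟨m, hm | hm⟩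
    · apply fσ ((ρ ^ m) a)
      rw [hap, ← hk, ← Equiv.Perm.mul_apply, ← zpow_add, hm]
      congr 2
      ring
    · apply fτ ((ρ ^ (m + 1)) a)
      have h1 : (ρ ^ (m + 1)) a = σ ((ρ ^ m) a) := by
        rw [hap, ← hk, ← Equiv.Perm.mul_apply, ← zpow_add, hm]
        congr 2
        ring
      have h2 : τ (σ ((ρ ^ m) a)) = (ρ ^ (m + 1)) a := by
        rw [add_comm, zpow_add, zpow_one, Equiv.Perm.mul_apply]
        rfl
      calc τ ((ρ ^ (m + 1)) a) = τ (σ ((ρ ^ m) a)) := by rw [h1]
        _ = (ρ ^ (m + 1)) a := h2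
  let Z : Setoid E := Equiv.Perm.SameCycle.setoid ρ
  have hmap : ∀ a b : E, Z.r a b → Z.r (σ a) (σ b) := by
    rintro a b ⟨i, hi⟩
    refine ⟨-i, ?_⟩
    rw [← hap, hi]
  let s : Quotient Z → Quotient Z := Quotient.map σ hmap
  have hs : ∀ q, s (s q) = q := by
    intro q
    induction q using Quotient.inductionOn with
    | h a =>
      show Quotient.mk Z (σ (σ a)) = Quotient.mk Z a
      rw [hσ]
  have hf : ∀ q, s q ≠ q := by
    intro q
    induction q using Quotient.inductionOn with
    | h a =>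
      intro h
      have h1 : Quotient.mk Z (σ a) = Quotient.mk Z a := h
      have h2 : Z.r a (σ a) := Quotient.exact h1.symm
      obtain ⟨i, hi⟩ := h2
      exact hne i a hi
  obtain ⟨c, hc⟩ := inv1 s hs hf
  refine ⟨fun a => c (Quotient.mk Z a), fun a => hc (Quotient.mk Z a), fun a => ?_⟩
  have h1 : Quotient.mk Z (τ a) = Quotient.mk Z (σ a) := by
    apply Quotient.sound
    refine ⟨-1, ?_⟩
    rw [zpow_neg, zpow_one, Equiv.Perm.inv_eq_iff_eq]
    show τ a = τ (σ (σ a))
    rw [hσ]
  show c (Quotient.mk Z (τ a)) ≠ c (Quotient.mk Z a)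
  rw [h1]
  exact hc (Quotient.mk Z a)

theorem inv2 {E : Type u} [Finite E] (σ τ : E → E) (hσ : ∀ e, σ (σ e) = e) (hτ : ∀ e, τ (τ e) = e) :
    ∃ c : E → Bool, (∀ e, σ e ≠ e → c (σ e) ≠ c e) ∧ ∀ e, τ e ≠ e → c (τ e) ≠ c e := by
  classical
  let lift : (E → E) → E × Bool → E × Bool := fun f p => if f p.1 = p.1 then (p.1, !p.2) else (f p.1, p.2)
  have hl : ∀ f : E → E, (∀ e, f (f e) = e) → (∀ p, lift f (lift f p) = p) ∧ (∀ p, lift f p ≠ p) := by
    intro f hf
    constructor
    · rintro ⟨e, b⟩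
      by_cases h : f e = e
      · simp [lift, h]
      · have h' : ¬ e = f e := fun h' => h h'.symm
        simp [lift, h, hf, h']
    · rintro ⟨e, b⟩
      by_cases h : f e = e
      · simp [lift, h]
      · simp [lift, h]
  obtain ⟨c, h1, h2⟩ := inv2_free (lift σ) (lift τ) (hl σ hσ).1 (hl τ hτ).1 (hl σ hσ).2 (hl τ hτ).2
  refine ⟨fun e => c (e, false), fun e he => ?_, fun e he => ?_⟩
  · have h := h1 (e, false)
    have h3 : lift σ (e, false) = (σ e, false) := by simp [lift, he]
    rw [h3] at h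
    exact h
  · have h := h2 (e, false)
    have h3 : lift τ (e, false) = (τ e, false) := by simp [lift, he]
    rw [h3] at h
    exact h

end Pool.Agent.PP
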