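import Pool.Agent.Lib_MP_7c0803_x.FibDefs
import Pool.Agent.Lib_MP_7c0803_x.Inv2

/-!
# [X-D3] The colouring from a perfect matching

`z = x.2`, `T k = S.T k` the three edges at `x` (`S.T_def`), `{j, k1, k2} = {0, 1, 2}`.  An edge with exactly one end in the fibre of `x` is one of
`T 0, T 1, T 2, ex z` (the `z`-end is in the fibre) or `ex (!z)` (the `!z`-end): `S.cls`, `S.cls'`, `S.bd`.  `S.V j` is in `Defs.lean`.

`RV_match`: `M' = M ∪ {T k1, T k2, ex (!z)}` has exactly one edge at every vertex in the fibre of `x`.  `σ e` = the other edge `∉ M'` with the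
same `X`-end if `e ∉ M'` and `S.p false e = x`, else `σ e = e`; `τ` the same for `true`.  `inv2` gives `c1`; `c e = cl (!z)` if `e ∈ M'`, else
`cl z` if `c1 e = c1 (ex z)`, else `2`.  It remains to show `c (T j) = 2`: by `bd_par` the numbers of the edges with exactly one
end in the fibre and the colour `2`, resp. `cl (!z)`, have the same parity, the second number is three (`S.bd`, `T_inj`, `T_ex`, `ex_ne`).
-/

set_option autoImplicit false

open Finset Function

namespace Pool.Agent.PP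

universe u v

variable {E : Type u} {A : Type v} {B : CB E} {f : Fin 3 → Equiv.Perm A} {x y : A × Bool}

/-- `e` is in the orbit of `a` -/
private def D3_ob (B : CB E) (z : Bool) (a e : E) : Prop := e = a ∨ SO (B.r z) a e

private lemma D3_refl (B : CB E) (z : Bool) (a : E) : D3_ob B z a a := Or.inl rfl

private lemma D3_r (B : CB E) (z : Bool) (a : E) : D3_ob B z a (B.r z a) := Or.inr (Or.inl rfl)

private lemma D3_rr (B : CB E) (z : Bool) (a : E) : D3_ob B z a (B.r z (B.r z a)) := Or.inr (Or.inr rfl)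

private lemma D3_symm (B : CB E) (z : Bool) {a e : E} (h : D3_ob B z a e) : D3_ob B z e a := by
  rcases h with rfl | rfl | rfl
  · exact D3_refl B z _
  · exact Or.inr (Or.inr (B.r3 z a).symm)
  · exact Or.inr (Or.inl (B.r3 z a).symm)

private lemma D3_step (B : CB E) (z : Bool) {a e : E} (h : D3_ob B z a e) : D3_ob B z a (B.r z e) := by
  rcases h with rfl | rfl | rfl
  · exact D3_r B z _
  · exact D3_rr B z a
  · exact Or.inl (B.r3 z a)

private lemma D3_trans (B : CB E) (z : Bool) {a b c : E} (h : D3_ob B z a b) (h' : D3_ob B z b c) : D3_ob B z a c := by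
  rcases h' with rfl | rfl | rfl
  · exact h
  · exact D3_step B z h
  · exact D3_step B z (D3_step B z h)

private lemma D3_rr_ne (B : CB E) (z : Bool) (a : E) : B.r z (B.r z a) ≠ a := by
  intro h
  have h1 := B.r3 z a
  rw [h] at h1
  exact B.r1 z a h1

/-- `N` has exactly one edge at every vertex of `D` -/
private def D3_One (B : CB E) (z : Bool) (D : E → Prop) (N : Set E) : Prop :=
  ∀ e, D e → ∃! e', e' ∈ N ∧ D3_ob B z e e'

/-- the involution -/
private lemma D3_inv (B : CB E) (z : Bool) (D : E → Prop) (hD : ∀ e, D (B.r z e) ↔ D e) (N : Set E) (h : D3_One B z D N) :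
    ∃ σ : E → E, (∀ e, σ (σ e) = e) ∧ ∀ e, D e → e ∉ N → B.r z e ∉ N → σ e = B.r z e ∧ σ e ≠ e := by
  classical
  have huni : ∀ e, D e → ∀ a b, a ∈ N → b ∈ N → D3_ob B z e a → D3_ob B z e b → a = b := by
    intro e he a b ha hb ha' hb'
    obtain ⟨w, -, hw⟩ := h e he
    rw [hw a ⟨ha, ha'⟩, hw b ⟨hb, hb'⟩]
  have hex : ∀ e, D e → e ∉ N → B.r z e ∉ N → B.r z (B.r z e) ∈ N := by
    intro e he h1 h2
    obtain ⟨w, ⟨hw1, hw2⟩, -⟩ := h e he
    rcases hw2 with rfl | rfl | rfl
    · exact absurd hw1 h1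
    · exact absurd hw1 h2
    · exact hw1
  refine ⟨fun e => if D e ∧ e ∉ N then (if B.r z e ∈ N then B.r z (B.r z e) else B.r z e) else e, ?_, ?_⟩
  · intro e
    by_cases h0 : D e ∧ e ∉ N
    · by_cases h1 : B.r z e ∈ N
      · have h2 : B.r z (B.r z e) ∉ N := by
          intro h2
          exact B.r1 z _ (huni e h0.1 _ _ h2 h1 (D3_rr B z e) (D3_r B z e))
        have h3 : D (B.r z (B.r z e)) := by rw [hD, hD]; exact h0.1
        have h4 : B.r z (B.r z (B.r z e)) ∉ N := by rw [B.r3]; exact h0.2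
        show (if D (if D e ∧ e ∉ N then (if B.r z e ∈ N then B.r z (B.r z e) else B.r z e) else e) ∧ _ then _ else _) = e
        simp only [if_pos h0, if_pos h1, if_pos (And.intro h3 h2), if_neg h4]
        exact B.r3 z e
      · have h2 : B.r z (B.r z e) ∈ N := hex e h0.1 h0.2 h1
        have h3 : D (B.r z e) := by rw [hD]; exact h0.1
        show (if D (if D e ∧ e ∉ N then (if B.r z e ∈ N then B.r z (B.r z e) else B.r z e) else e) ∧ _ then _ else _) = e
        simp only [if_pos h0, if_neg h1, if_pos (And.intro h3 h1), if_pos h2]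
        exact B.r3 z e
    · show (if D (if D e ∧ e ∉ N then (if B.r z e ∈ N then B.r z (B.r z e) else B.r z e) else e) ∧ _ then _ else _) = e
      simp only [if_neg h0]
  · intro e he h1 h2
    show (if D e ∧ e ∉ N then (if B.r z e ∈ N then B.r z (B.r z e) else B.r z e) else e) = _ ∧
      (if D e ∧ e ∉ N then (if B.r z e ∈ N then B.r z (B.r z e) else B.r z e) else e) ≠ _
    rw [if_pos ⟨he, h1⟩, if_neg h2]
    exact ⟨rfl, B.r1 z e⟩

/-- not both `e` and `r e` are in `N` -/
private lemma D3_two (B : CB E) (z : Bool) (D : E → Prop) (N : Set E) (h : D3_One B z D N) {e : E} (he : D e) (h1 : e ∈ N) :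
    B.r z e ∉ N := by
  intro h2
  obtain ⟨w, -, hw⟩ := h e he
  have h3 := hw e ⟨h1, D3_refl B z e⟩
  have h4 := hw _ ⟨h2, D3_r B z e⟩
  exact B.r1 z e (h4.trans h3.symm)

private lemma D3_cl (z : Bool) : cl z ≠ cl (!z) ∧ (2 : Fin 3) ≠ cl z ∧ (2 : Fin 3) ≠ cl (!z) := by
  cases z <;> decide

private lemma D3_fin : ∀ j k1 k2 k : Fin 3, j ≠ k1 → j ≠ k2 → k1 ≠ k2 → k = j ∨ k = k1 ∨ k = k2 := by
  decide

/-- the colouring -/
private lemma D3_col [Finite E] (B : CB E) (D : Bool → E → Prop) (hD : ∀ z e, D z (B.r z e) ↔ D z e) (N : Set E)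
    (h : ∀ z, D3_One B z (D z) N) (a : E) (z0 : Bool) (ha : a ∉ N) :
    ∃ c : E → Fin 3, (∀ z e, D z e → c (B.r z e) ≠ c e) ∧ c a = cl z0 ∧ (∀ e ∈ N, c e = cl (!z0)) ∧
      ∀ e, e ∉ N → c e ≠ cl (!z0) := by
  classical
  obtain ⟨σ, s1, s2⟩ := D3_inv B false (D false) (hD false) N (h false)
  obtain ⟨τ, t1, t2⟩ := D3_inv B true (D true) (hD true) N (h true)
  obtain ⟨c1, hs, ht⟩ := inv2 σ τ s1 t1
  have hc1 : ∀ z e, D z e → e ∉ N → B.r z e ∉ N → c1 (B.r z e) ≠ c1 e := by
    intro z e he g1 g2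
    cases z
    · obtain ⟨g3, g4⟩ := s2 e he g1 g2
      rw [← g3]
      exact hs e g4
    · obtain ⟨g3, g4⟩ := t2 e he g1 g2
      rw [← g3]
      exact ht e g4
  obtain ⟨l1, l2, l3⟩ := D3_cl z0
  have key : ∀ e, e ∉ N → (if e ∈ N then cl (!z0) else if c1 e = c1 a then cl z0 else 2) ≠ cl (!z0) := by
    intro e he
    rw [if_neg he]
    by_cases g : c1 e = c1 a
    · rw [if_pos g]; exact l1
    · rw [if_neg g]; exact l3
  refine ⟨fun e => if e ∈ N then cl (!z0) else if c1 e = c1 a then cl z0 else 2, ?_, ?_, ?_, key⟩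
  · intro z e he
    show (if B.r z e ∈ N then cl (!z0) else if c1 (B.r z e) = c1 a then cl z0 else 2) ≠
      (if e ∈ N then cl (!z0) else if c1 e = c1 a then cl z0 else 2)
    by_cases g1 : e ∈ N
    · have g2 := D3_two B z (D z) N (h z) he g1
      have g3 := key _ g2
      rw [if_pos g1]
      exact g3
    · by_cases g2 : B.r z e ∈ N
      · have g3 := key _ g1
        rw [if_pos g2]
        exact g3.symm
      · have g3 := hc1 z e he g1 g2
        rw [if_neg g1, if_neg g2]
        by_cases g4 : c1 e = c1 a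
        · have g5 : ¬ c1 (B.r z e) = c1 a := fun g6 => g3 (g6.trans g4.symm)
          rw [if_pos g4, if_neg g5]
          exact l2
        · have g5 : c1 (B.r z e) = c1 a := by
            revert g3 g4
            generalize c1 e = u
            generalize c1 (B.r z e) = v
            generalize c1 a = w
            revert u v w
            decide
          rw [if_neg g4, if_pos g5]
          exact l2.symm
  · show (if a ∈ N then cl (!z0) else if c1 a = c1 a then cl z0 else 2) = cl z0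
    rw [if_neg ha, if_pos rfl]
  · intro e he
    show (if e ∈ N then cl (!z0) else if c1 e = c1 a then cl z0 else 2) = cl (!z0)
    rw [if_pos he]

theorem Star.RV_match [Finite E] (hf : Smp f) (S : Star B f x y) {j k1 k2 : Fin 3} (h1 : j ≠ k1) (h2 : j ≠ k2) (h3 : k1 ≠ k2)
    (hn : ¬ SO (B.r x.2) (S.T k1) (S.T k2)) (M : Set E) (hMP : M ⊆ S.PP k1 k2) (hMQ : M ⊆ S.QQ)
    (hP : ∀ e ∈ S.PP k1 k2, ∃! e', e' ∈ M ∧ (e' = e ∨ SO (B.r x.2) e e'))
    (hQ : ∀ e ∈ S.QQ, ∃! e', e' ∈ M ∧ (e' = e ∨ SO (B.r (!x.2)) e e')) : S.R j := by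
  classical
  obtain ⟨N, hN⟩ : ∃ N : Set E, ∀ e, e ∈ N ↔ (e ∈ M ∨ e = S.T k1 ∨ e = S.T k2 ∨ e = S.ex (!x.2)) :=
    ⟨{e | e ∈ M ∨ e = S.T k1 ∨ e = S.T k2 ∨ e = S.ex (!x.2)}, fun e => Iff.rfl⟩
  have hoP : ∀ {z : Bool} {a e : E}, D3_ob B z a e → S.p z e = S.p z a := by
    intro z a e h
    rcases h with rfl | h
    · rfl
    · exact SO_inv B S.p S.hp h
  have hexp : S.p x.2 (S.ex (!x.2)) ≠ x := by
    have h5 := S.hy (!x.2)
    rw [Bool.not_not] at h5
    rw [h5]
    exact S.hxy.symm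
  have hexp' : S.p (!x.2) (S.ex x.2) ≠ x := by
    rw [S.hy]
    exact S.hxy.symm
  have hn' : ¬ D3_ob B x.2 (S.T k1) (S.T k2) := by
    rintro (h | h)
    · exact h3 (S.T_inj hf h).symm
    · exact hn h
  -- the matching at the `z`-ends
  have one1 : D3_One B x.2 (fun e => S.p x.2 e = x) N := by
    intro e he
    have he' : S.p x.2 e = x := he
    by_cases g1 : D3_ob B x.2 (S.T k1) e
    · refine ⟨S.T k1, ⟨(hN _).2 (Or.inr (Or.inl rfl)), D3_symm B _ g1⟩, ?_⟩
      rintro w ⟨hw, hw'⟩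
      have g2 : D3_ob B x.2 (S.T k1) w := D3_trans B _ g1 hw'
      rcases (hN w).1 hw with h | h | h | h
      · have h4 := hMP h
        rcases g2 with g2 | g2
        · exact g2
        · exact absurd g2 h4.2.2.1
      · exact h
      · rw [h] at g2
        exact absurd g2 hn'
      · exfalso
        apply hexp
        rw [← h, hoP hw', he']
    · by_cases g2 : D3_ob B x.2 (S.T k2) e
      · refine ⟨S.T k2, ⟨(hN _).2 (Or.inr (Or.inr (Or.inl rfl))), D3_symm B _ g2⟩, ?_⟩
        rintro w ⟨hw, hw'⟩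
        have g3 : D3_ob B x.2 (S.T k2) w := D3_trans B _ g2 hw'
        rcases (hN w).1 hw with h | h | h | h
        · have h4 := hMP h
          rcases g3 with g3 | g3
          · exact g3
          · exact absurd g3 h4.2.2.2.2
        · rw [h] at g3
          exact absurd (D3_symm B _ g3) hn'
        · exact h
        · exfalso
          apply hexp
          rw [← h, hoP hw', he']
      · have heP : e ∈ S.PP k1 k2 :=
          ⟨he', fun h => g1 (Or.inl h), fun h => g1 (Or.inr h), fun h => g2 (Or.inl h), fun h => g2 (Or.inr h)⟩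
        obtain ⟨w, ⟨hw1, hw2⟩, hw3⟩ := hP e heP
        refine ⟨w, ⟨(hN w).2 (Or.inl hw1), hw2⟩, ?_⟩
        rintro w' ⟨hw, hw'⟩
        rcases (hN w').1 hw with h | h | h | h
        · exact hw3 w' ⟨h, hw'⟩
        · rw [h] at hw'
          exact absurd (D3_symm B _ hw') g1
        · rw [h] at hw'
          exact absurd (D3_symm B _ hw') g2
        · exfalso
          apply hexp
          rw [← h, hoP hw', he']
  -- the matching at the other ends
  have one2 : D3_One B (!x.2) (fun e => S.p (!x.2) e = x) N := by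
    intro e he
    have he' : S.p (!x.2) e = x := he
    by_cases g1 : D3_ob B (!x.2) (S.ex (!x.2)) e
    · refine ⟨S.ex (!x.2), ⟨(hN _).2 (Or.inr (Or.inr (Or.inr rfl))), D3_symm B _ g1⟩, ?_⟩
      rintro w ⟨hw, hw'⟩
      have g2 : D3_ob B (!x.2) (S.ex (!x.2)) w := D3_trans B _ g1 hw'
      rcases (hN w).1 hw with h | h | h | h
      · have h4 := hMQ h
        rcases g2 with g2 | g2
        · exact g2
        · exact absurd g2 h4.2.2
      · exfalso
        apply S.T_ne k1
        rw [← h, hoP hw', he']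
      · exfalso
        apply S.T_ne k2
        rw [← h, hoP hw', he']
      · exact h
    · have heQ : e ∈ S.QQ := ⟨he', fun h => g1 (Or.inl h), fun h => g1 (Or.inr h)⟩
      obtain ⟨w, ⟨hw1, hw2⟩, hw3⟩ := hQ e heQ
      refine ⟨w, ⟨(hN w).2 (Or.inl hw1), hw2⟩, ?_⟩
      rintro w' ⟨hw, hw'⟩
      rcases (hN w').1 hw with h | h | h | h
      · exact hw3 w' ⟨h, hw'⟩
      · exfalso
        apply S.T_ne k1
        rw [← h, hoP hw', he']
      · exfalso
        apply S.T_ne k2
        rw [← h, hoP hw', he']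
      · rw [h] at hw'
        exact absurd (D3_symm B _ hw') g1
  have hzz : ∀ z : Bool, z ≠ x.2 → z = !x.2 := by
    intro z hz
    revert hz
    generalize x.2 = w
    cases z <;> cases w <;> simp
  have one : ∀ z, D3_One B z (fun e => S.p z e = x) N := by
    intro z
    by_cases hz : z = x.2
    · rw [hz]; exact one1
    · rw [hzz z hz]; exact one2
  have exN : S.ex x.2 ∉ N := by
    intro h
    rcases (hN _).1 h with h | h | h | h
    · exact hexp' (hMQ h).1
    · exact S.T_ex _ _ h.symm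
    · exact S.T_ex _ _ h.symm
    · exact S.ex_ne _ h
  have TjN : S.T j ∉ N := by
    intro h
    rcases (hN _).1 h with h | h | h | h
    · exact S.T_ne j (hMQ h).1
    · exact h1 (S.T_inj hf h)
    · exact h2 (S.T_inj hf h)
    · exact S.T_ex _ _ h
  obtain ⟨c, hc1, hc2, hc3, hc4⟩ := D3_col B (fun z e => S.p z e = x) (fun z e => by
    show S.p z (B.r z e) = x ↔ S.p z e = x
    rw [S.hp]) N one (S.ex x.2) x.2 exN
  obtain ⟨l1, l2, l3⟩ := D3_cl x.2
  have k1N : S.T k1 ∈ N := (hN _).2 (Or.inr (Or.inl rfl))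
  have k2N : S.T k2 ∈ N := (hN _).2 (Or.inr (Or.inr (Or.inl rfl)))
  have exN' : S.ex (!x.2) ∈ N := (hN _).2 (Or.inr (Or.inr (Or.inr rfl)))
  -- the parity
  have p1 := bd_par B S.p S.hp x c hc1 (cl (!x.2))
  have p2 := bd_par B S.p S.hp x c hc1 2
  have q1 : ({e | ¬ (S.p false e = x ↔ S.p true e = x) ∧ c e = cl (!x.2)} : Set E).ncard = 3 := by
    rw [Set.ncard_eq_three]
    refine ⟨S.T k1, S.T k2, S.ex (!x.2), fun h => h3 (S.T_inj hf h), S.T_ex _ _, S.T_ex _ _, ?_⟩
    ext e
    simp only [Set.mem_ofPred_eq, Set.mem_insert_iff, Set.mem_singleton_iff]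
    rw [S.bd]
    constructor
    · rintro ⟨⟨k, rfl⟩ | ⟨z, rfl⟩, h⟩
      · rcases D3_fin j k1 k2 k h1 h2 h3 with rfl | rfl | rfl
        · exact absurd h (hc4 _ TjN)
        · exact Or.inl rfl
        · exact Or.inr (Or.inl rfl)
      · by_cases hz : z = x.2
        · rw [hz, hc2] at h
          exact absurd h l1
        · rw [hzz z hz]
          exact Or.inr (Or.inr rfl)
    · rintro (rfl | rfl | rfl)
      · exact ⟨Or.inl ⟨_, rfl⟩, hc3 _ k1N⟩
      · exact ⟨Or.inl ⟨_, rfl⟩, hc3 _ k2N⟩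
      · exact ⟨Or.inr ⟨_, rfl⟩, hc3 _ exN'⟩
  have q2 : ({e | ¬ (S.p false e = x ↔ S.p true e = x) ∧ c e = 2} : Set E).Nonempty := by
    by_contra hne
    rw [Set.not_nonempty_iff_eq_empty] at hne
    rw [hne] at p2
    rw [q1, ← p2] at p1
    simp at p1
    exact absurd p1 (by decide)
  obtain ⟨e, he, he2⟩ := q2
  have cTj : c (S.T j) = 2 := by
    rcases (S.bd e).1 he with ⟨k, rfl⟩ | ⟨z, rfl⟩
    · rcases D3_fin j k1 k2 k h1 h2 h3 with rfl | rfl | rfl
      · exact he2
      · exact absurd (he2.symm.trans (hc3 _ k1N)) l3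
      · exact absurd (he2.symm.trans (hc3 _ k2N)) l3
    · by_cases hz : z = x.2
      · rw [hz, hc2] at he2
        exact absurd he2.symm l2
      · rw [hzz z hz, hc3 _ exN'] at he2
        exact absurd he2.symm l3
  refine ⟨c, fun z e he => hc1 z e he, ?_, ?_⟩
  · intro z
    by_cases hz : z = x.2
    · rw [hz]; exact hc2
    · rw [hzz z hz]; exact hc3 _ exN'
  · intro k
    show c (S.T k) = pat j (cl (!x.2)) k
    unfold pat
    rcases D3_fin j k1 k2 k h1 h2 h3 with rfl | rfl | rfl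
    · rw [if_pos rfl]; exact cTj
    · rw [if_neg h1.symm]; exact hc3 _ k1N
    · rw [if_neg h2.symm]; exact hc3 _ k2N

end Pool.Agent.PP
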