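import Pool.Agent.Lib_MP_7c0803_x.Base

/-!
# [X-C] Hall's theorem for a multigraph with rotations

`P` is a set of `z`-vertices (an `r z`-invariant set of edges: the edges whose `z`-end belongs to the set), `Q` a set of `!z`-vertices, with the
same number of vertices (all orbits have three elements: `Konig_fib` in `Lib_MP_7c0803_pp/Konig.lean`, private).  Either there is a perfect
matching `M` between `P` and `Q` or a set `Z ⊆ Q` of `!z`-vertices with less than `|Z|` neighbours in `P`.
Use `Finset.all_card_le_biUnion_card_iff_exists_injective` for the `!z`-orbits in `Q` and the `z`-orbits in `P` (compare `Konig_hall`); an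
injective map between finite sets of the same size is bijective.
-/

set_option autoImplicit false

open Finset Function

namespace Pool.Agent.PP

universe u

open Classical in
/-- the orbit of a permutation of order three -/
private noncomputable def Hall_orb {E : Type u} (s : Equiv.Perm E) (e : E) : Finset E := {e, s e, s (s e)}

private lemma Hall_mem {E : Type u} (s : Equiv.Perm E) (e e' : E) : e' ∈ Hall_orb s e ↔ (e' = e ∨ SO s e e') := by
  simp [Hall_orb, SO]

private lemma Hall_self {E : Type u} (s : Equiv.Perm E) (e : E) : e ∈ Hall_orb s e := (Hall_mem s e e).2 (Or.inl rfl)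

private lemma Hall_s {E : Type u} (s : Equiv.Perm E) (s3 : ∀ e, s (s (s e)) = e) (e : E) :
    Hall_orb s (s e) = Hall_orb s e := by
  unfold Hall_orb
  rw [s3]
  ext a
  simp only [Finset.mem_insert, Finset.mem_singleton]
  tauto

private lemma Hall_eq {E : Type u} (s : Equiv.Perm E) (s3 : ∀ e, s (s (s e)) = e) (e e' : E) :
    Hall_orb s e' = Hall_orb s e ↔ (e' = e ∨ SO s e e') := by
  constructor
  · intro h
    rw [← Hall_mem, ← h]
    exact Hall_self s e'
  · rintro (h | h | h)
    · rw [h]
    · rw [h, Hall_s s s3]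
    · rw [h, Hall_s s s3, Hall_s s s3]

private lemma Hall_card {E : Type u} [DecidableEq E] (s : Equiv.Perm E) (s3 : ∀ e, s (s (s e)) = e) (s1 : ∀ e, s e ≠ e)
    (S : Finset E) (hS : ∀ e, s e ∈ S ↔ e ∈ S) : S.card = 3 * (S.image (Hall_orb s)).card := by
  rw [Finset.card_eq_sum_card_image (Hall_orb s) S, Finset.sum_const_nat (m := 3)]
  · ring
  · intro y hy
    obtain ⟨e0, he0, rfl⟩ := Finset.mem_image.1 hy
    have h2 : s (s e0) ≠ e0 := by
      intro h
      apply s1 e0
      have := congrArg s h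
      rw [s3] at this
      exact this.symm
    have h : S.filter (fun e => Hall_orb s e = Hall_orb s e0) = {e0, s e0, s (s e0)} := by
      ext e
      rw [Finset.mem_filter, Hall_eq s s3]
      simp only [Finset.mem_insert, Finset.mem_singleton, SO]
      constructor
      · exact fun h => h.2
      · intro h
        refine ⟨?_, h⟩
        rcases h with rfl | rfl | rfl
        · exact he0
        · exact (hS _).2 he0
        · exact (hS _).2 ((hS _).2 he0)
    rw [h, Finset.card_insert_of_notMem, Finset.card_insert_of_notMem, Finset.card_singleton]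
    · simp only [Finset.mem_singleton]
      exact (s1 _).symm
    · simp only [Finset.mem_insert, Finset.mem_singleton, not_or]
      exact ⟨(s1 _).symm, h2.symm⟩

theorem hall_cb {E : Type u} [Finite E] (B : CB E) (z : Bool) (P Q : Set E) (hP : ∀ e, B.r z e ∈ P ↔ e ∈ P)
    (hQ : ∀ e, B.r (!z) e ∈ Q ↔ e ∈ Q) (hc : P.ncard = Q.ncard) :
    (∃ M : Set E, M ⊆ P ∧ M ⊆ Q ∧ (∀ e ∈ P, ∃! e', e' ∈ M ∧ (e' = e ∨ SO (B.r z) e e')) ∧
      ∀ e ∈ Q, ∃! e', e' ∈ M ∧ (e' = e ∨ SO (B.r (!z)) e e')) ∨
    ∃ Z : Set E, (∀ e, B.r (!z) e ∈ Z ↔ e ∈ Z) ∧ Z ⊆ Q ∧ Z.Nonempty ∧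
      ({e | e ∈ P ∧ (e ∈ Z ∨ B.r z e ∈ Z ∨ B.r z (B.r z e) ∈ Z)} : Set E).ncard < Z.ncard := by
  classical
  have := Fintype.ofFinite E
  set s := B.r z with hs
  set t := B.r (!z) with ht
  have s3 : ∀ e, s (s (s e)) = e := B.r3 z
  have s1 : ∀ e, s e ≠ e := B.r1 z
  have t3 : ∀ e, t (t (t e)) = e := B.r3 (!z)
  have t1 : ∀ e, t e ≠ e := B.r1 (!z)
  have hc' : ((P.toFinset).image (Hall_orb s)).card = ((Q.toFinset).image (Hall_orb t)).card := by
    have h1 := Hall_card s s3 s1 P.toFinset (by simpa using hP)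
    have h2 := Hall_card t t3 t1 Q.toFinset (by simpa using hQ)
    rw [Set.ncard_eq_toFinset_card', Set.ncard_eq_toFinset_card'] at hc
    omega
  set Vq := (Q.toFinset).image (Hall_orb t) with hVq
  set N : Vq → Finset (Finset E) := fun y => ((P.toFinset ∩ Q.toFinset).filter fun e => Hall_orb t e = y.1).image (Hall_orb s)
    with hN
  by_cases hall : ∀ A : Finset Vq, A.card ≤ (A.biUnion N).card
  · left
    obtain ⟨f, hf, hft⟩ := (Finset.all_card_le_biUnion_card_iff_exists_injective _).1 hall
    have hm : ∀ y, ∃ e, e ∈ P ∧ e ∈ Q ∧ Hall_orb t e = y.1 ∧ Hall_orb s e = f y := by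
      intro y
      have h1 := hft y
      rw [hN] at h1
      simp only [Finset.mem_image, Finset.mem_filter, Finset.mem_inter, Set.mem_toFinset] at h1
      obtain ⟨e, ⟨⟨h2, h3⟩, h4⟩, h5⟩ := h1
      exact ⟨e, h2, h3, h4, h5⟩
    choose m hmP hmQ hmt hms using hm
    have himg : (univ.image f) = (P.toFinset).image (Hall_orb s) := by
      apply Finset.eq_of_subset_of_card_le
      · intro v hv
        obtain ⟨y, _, rfl⟩ := Finset.mem_image.1 hv
        rw [← hms y]
        exact Finset.mem_image_of_mem _ (by simpa using hmP y)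
      · rw [Finset.card_image_of_injective _ hf, Finset.card_univ, Fintype.card_coe, hc']
    refine ⟨Set.range m, ?_, ?_, ?_, ?_⟩
    · rintro _ ⟨y, rfl⟩
      exact hmP y
    · rintro _ ⟨y, rfl⟩
      exact hmQ y
    · intro e he
      have h1 : Hall_orb s e ∈ univ.image f := by
        rw [himg]
        exact Finset.mem_image_of_mem _ (by simpa using he)
      obtain ⟨y, _, hy⟩ := Finset.mem_image.1 h1
      refine ⟨m y, ⟨⟨y, rfl⟩, ?_⟩, ?_⟩
      · rw [← Hall_eq s s3, hms, hy]
      · rintro _ ⟨⟨y', rfl⟩, h2⟩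
        rw [← Hall_eq s s3, hms, ← hy] at h2
        rw [hf h2]
    · intro e he
      have h1 : Hall_orb t e ∈ Vq := Finset.mem_image_of_mem _ (by simpa using he)
      refine ⟨m ⟨_, h1⟩, ⟨⟨_, rfl⟩, ?_⟩, ?_⟩
      · rw [← Hall_eq t t3, hmt]
      · rintro _ ⟨⟨y', rfl⟩, h2⟩
        rw [← Hall_eq t t3, hmt] at h2
        have h3 : y' = ⟨Hall_orb t e, h1⟩ := Subtype.ext h2
        rw [h3]
  · right
    push Not at hall
    obtain ⟨A, hA⟩ := hall
    set Z : Set E := {e | ∃ y ∈ A, Hall_orb t e = y.1} with hZ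
    have hZt : ∀ e, t e ∈ Z ↔ e ∈ Z := by
      intro e
      simp only [hZ, Set.mem_ofPred_eq, Hall_s t t3]
    have hZQ : Z ⊆ Q := by
      rintro e ⟨y, hy, h1⟩
      obtain ⟨e0, he0, h2⟩ := Finset.mem_image.1 y.2
      rw [← h2, Hall_eq t t3] at h1
      have he0' : e0 ∈ Q := by simpa using he0
      rcases h1 with h1 | h1 | h1
      · rw [h1]
        exact he0'
      · rw [h1]
        exact (hQ _).2 he0'
      · rw [h1]
        exact (hQ _).2 ((hQ _).2 he0')
    have hZi : (Z.toFinset).image (Hall_orb t) = A.image Subtype.val := by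
      ext v
      simp only [Finset.mem_image, Set.mem_toFinset]
      constructor
      · rintro ⟨e, ⟨y, hy, h1⟩, rfl⟩
        exact ⟨y, hy, h1.symm⟩
      · rintro ⟨y, hy, rfl⟩
        obtain ⟨e0, he0, h2⟩ := Finset.mem_image.1 y.2
        exact ⟨e0, ⟨y, hy, h2⟩, h2⟩
    have hZc : Z.ncard = 3 * A.card := by
      rw [Set.ncard_eq_toFinset_card', Hall_card t t3 t1 Z.toFinset (by simpa using hZt), hZi,
        Finset.card_image_of_injective _ Subtype.val_injective]
    refine ⟨Z, hZt, hZQ, ?_, ?_⟩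
    · rw [← Set.ncard_pos]
      omega
    · set W : Set E := {e | e ∈ P ∧ (e ∈ Z ∨ s e ∈ Z ∨ s (s e) ∈ Z)} with hW
      have hWs : ∀ e, s e ∈ W ↔ e ∈ W := by
        intro e
        simp only [hW, Set.mem_ofPred_eq, s3, hP]
        tauto
      have hWi : (W.toFinset).image (Hall_orb s) ⊆ A.biUnion N := by
        intro v hv
        obtain ⟨e, he, rfl⟩ := Finset.mem_image.1 hv
        rw [Set.mem_toFinset] at he
        have key : ∀ e' : E, e' ∈ P → e' ∈ Z → Hall_orb s e' ∈ A.biUnion N := by
          rintro e' h1 h2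
          have h3 := hZQ h2
          obtain ⟨y, hy, h4⟩ := h2
          rw [Finset.mem_biUnion]
          refine ⟨y, hy, ?_⟩
          simp only [hN, Finset.mem_image, Finset.mem_filter, Finset.mem_inter, Set.mem_toFinset]
          exact ⟨e', ⟨⟨h1, h3⟩, h4⟩, rfl⟩
        obtain ⟨h1, h2 | h2 | h2⟩ := he
        · exact key e h1 h2
        · rw [← Hall_s s s3]
          exact key _ ((hP _).2 h1) h2
        · rw [← Hall_s s s3, ← Hall_s s s3]
          exact key _ ((hP _).2 ((hP _).2 h1)) h2
      have hWc := Hall_card s s3 s1 W.toFinset (by simpa using hWs)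
      rw [hZc, Set.ncard_eq_toFinset_card', hWc]
      have := Finset.card_le_card hWi
      omega

end Pool.Agent.PP
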