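import Pool.Agent.Lib_MP_7c0803_x.FibA
import Pool.Agent.Lib_MP_7c0803_x.FibB
import Pool.Agent.Lib_MP_7c0803_x.FibC
import Pool.Agent.Lib_MP_7c0803_x.Hall

/-!
# [X-D4] The fibre of `x`: `S.R j` or an obstruction

`z = x.2`, `T k = S.T k` the three edges at `x` (`S.T_def`), `{j, k1, k2} = {0, 1, 2}`.  An edge with exactly one end in the fibre of `x` is one of
`T 0, T 1, T 2, ex z` (the `z`-end is in the fibre) or `ex (!z)` (the `!z`-end): `S.cls`, `S.cls'`, `S.bd`.  `S.V j` is in `Defs.lean`.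

`RV`: from `RV_same`, `RV_hall`, `RV_match` by `hall_cb` for `S.PP k1 k2`, `S.QQ`: `#{p z = x} = #{both ends in the fibre} + 4`,
`#{p (!z) = x} = #{both} + 1` (`S.cls`, `S.cls'`, `T_inj`, `T_ex`), the two orbits of `T k1`, `T k2` have six elements, the orbit of `ex (!z)` has three.
-/

set_option autoImplicit false

open Finset Function

namespace Pool.Agent.PP

universe u v

variable {E : Type u} {A : Type v} {B : CB E} {f : Fin 3 → Equiv.Perm A} {x y : A × Bool}

/-- the orbit of `a` is invariant -/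
private lemma RV_orb {E : Type u} (B : CB E) (z : Bool) (a e : E) :
    (B.r z e ≠ a ∧ ¬ SO (B.r z) a (B.r z e)) ↔ (e ≠ a ∧ ¬ SO (B.r z) a e) := by
  have h1 : B.r z e = a ↔ e = B.r z (B.r z a) := by
    constructor
    · rintro rfl
      exact (B.r3 z e).symm
    · rintro rfl
      exact B.r3 z a
  have h2 : B.r z e = B.r z a ↔ e = a := (B.r z).injective.eq_iff
  have h3 : B.r z e = B.r z (B.r z a) ↔ e = B.r z a := (B.r z).injective.eq_iff
  unfold SO
  rw [Ne, Ne, h1, h2, h3]
  tauto

/-- the orbit of `a` has three elements -/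
private lemma RV_orb3 {E : Type u} (B : CB E) (z : Bool) (a : E) :
    ({e | e = a ∨ SO (B.r z) a e} : Set E).ncard = 3 := by
  rw [Set.ncard_eq_three]
  refine ⟨a, B.r z a, B.r z (B.r z a), (B.r1 z a).symm, ?_, (B.r1 z (B.r z a)).symm, ?_⟩
  · intro h
    have h1 := B.r3 z a
    rw [← h] at h1
    exact B.r1 z a h1
  · ext e
    simp only [SO, Set.mem_ofPred_eq, Set.mem_insert_iff, Set.mem_singleton_iff]

/-- all edges of the orbit of `a` have the same `z`-end -/
private lemma RV_orbp {x y : A × Bool} (S : Star B f x y) {z : Bool} {a e : E} (h : e = a ∨ SO (B.r z) a e) :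
    S.p z e = S.p z a := by
  rcases h with rfl | h
  · rfl
  · exact SO_inv B S.p S.hp h

theorem Star.RV [Finite E] (hf : Smp f) (hC : B.Cn) (S : Star B f x y) (j : Fin 3) : S.R j ∨ Nonempty (S.V j) := by
  obtain ⟨k1, k2, h1, h2, h3⟩ : ∃ k1 k2 : Fin 3, j ≠ k1 ∧ j ≠ k2 ∧ k1 ≠ k2 := by
    have : ∀ j : Fin 3, ∃ k1 k2 : Fin 3, j ≠ k1 ∧ j ≠ k2 ∧ k1 ≠ k2 := by decide
    exact this j
  by_cases hn : SO (B.r x.2) (S.T k1) (S.T k2)
  · exact Or.inr (S.RV_same hf h1 h2 h3 hn)
  -- the sets for Hall's theorem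
  have hP : ∀ e, B.r x.2 e ∈ S.PP k1 k2 ↔ e ∈ S.PP k1 k2 := by
    intro e
    have ha := RV_orb B x.2 (S.T k1) e
    have hb := RV_orb B x.2 (S.T k2) e
    show (S.p x.2 (B.r x.2 e) = x ∧ _ ∧ _ ∧ _ ∧ _) ↔ (S.p x.2 e = x ∧ _ ∧ _ ∧ _ ∧ _)
    rw [S.hp]
    tauto
  have hQ : ∀ e, B.r (!x.2) e ∈ S.QQ ↔ e ∈ S.QQ := by
    intro e
    have ha := RV_orb B (!x.2) (S.ex (!x.2)) e
    show (S.p (!x.2) (B.r (!x.2) e) = x ∧ _ ∧ _) ↔ (S.p (!x.2) e = x ∧ _ ∧ _)
    rw [S.hp]
    tauto
  -- counting
  have e1 : ({e | S.p x.2 e = x} : Set E).ncard = ({e | S.p x.2 e = x ∧ S.p (!x.2) e = x} : Set E).ncard + 4 := by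
    have hD : ({S.T j, S.T k1, S.T k2, S.ex x.2} : Set E).ncard = 4 := by
      rw [Set.ncard_insert_of_notMem, Set.ncard_eq_three.2 ⟨S.T k1, S.T k2, S.ex x.2, ?_, ?_, ?_, rfl⟩]
      · exact fun h => h3 (S.T_inj hf h)
      · exact S.T_ex _ _
      · exact S.T_ex _ _
      · simp only [Set.mem_insert_iff, Set.mem_singleton_iff, not_or]
        exact ⟨fun h => h1 (S.T_inj hf h), fun h => h2 (S.T_inj hf h), S.T_ex _ _⟩
    have hU : ({e | S.p x.2 e = x} : Set E) =
        {e | S.p x.2 e = x ∧ S.p (!x.2) e = x} ∪ {S.T j, S.T k1, S.T k2, S.ex x.2} := by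
      ext e
      simp only [Set.mem_ofPred_eq, Set.mem_union, Set.mem_insert_iff, Set.mem_singleton_iff]
      constructor
      · intro h
        by_cases h' : S.p (!x.2) e = x
        · exact Or.inl ⟨h, h'⟩
        · right
          rcases S.cls h h' with ⟨k, rfl⟩ | h4
          · have hk : k = j ∨ k = k1 ∨ k = k2 := by
              have : ∀ j k1 k2 k : Fin 3, j ≠ k1 → j ≠ k2 → k1 ≠ k2 → (k = j ∨ k = k1 ∨ k = k2) := by decide
              exact this j k1 k2 k h1 h2 h3
            rcases hk with rfl | rfl | rfl <;> simp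
          · exact Or.inr (Or.inr (Or.inr h4))
      · rintro (h | rfl | rfl | rfl | rfl)
        · exact h.1
        · exact S.T_p _
        · exact S.T_p _
        · exact S.T_p _
        · exact S.hx _
    have hdis : Disjoint ({e | S.p x.2 e = x ∧ S.p (!x.2) e = x} : Set E) {S.T j, S.T k1, S.T k2, S.ex x.2} := by
      rw [Set.disjoint_left]
      intro e he he'
      simp only [Set.mem_ofPred_eq, Set.mem_insert_iff, Set.mem_singleton_iff] at he he'
      rcases he' with rfl | rfl | rfl | rfl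
      · exact S.T_ne _ he.2
      · exact S.T_ne _ he.2
      · exact S.T_ne _ he.2
      · have := S.hy x.2
        rw [he.2] at this
        exact S.hxy this
    rw [hU, Set.ncard_union_eq hdis (Set.toFinite _) (Set.toFinite _), hD]
  have e2 : ({e | S.p (!x.2) e = x} : Set E).ncard = ({e | S.p x.2 e = x ∧ S.p (!x.2) e = x} : Set E).ncard + 1 := by
    have hU : ({e | S.p (!x.2) e = x} : Set E) =
        {e | S.p x.2 e = x ∧ S.p (!x.2) e = x} ∪ {S.ex (!x.2)} := by
      ext e
      simp only [Set.mem_ofPred_eq, Set.mem_union, Set.mem_singleton_iff]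
      constructor
      · intro h
        by_cases h' : S.p x.2 e = x
        · exact Or.inl ⟨h', h⟩
        · exact Or.inr (S.cls' h h')
      · rintro (h | rfl)
        · exact h.2
        · exact S.hx _
    have hdis : Disjoint ({e | S.p x.2 e = x ∧ S.p (!x.2) e = x} : Set E) {S.ex (!x.2)} := by
      rw [Set.disjoint_left]
      intro e he he'
      simp only [Set.mem_ofPred_eq, Set.mem_singleton_iff] at he he'
      rw [he'] at he
      have := S.hy (!x.2)
      rw [Bool.not_not, he.1] at this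
      exact S.hxy this
    rw [hU, Set.ncard_union_eq hdis (Set.toFinite _) (Set.toFinite _), Set.ncard_singleton]
  have e3 : ({e | S.p x.2 e = x} : Set E).ncard = (S.PP k1 k2).ncard + 6 := by
    have hO : Disjoint ({e | e = S.T k1 ∨ SO (B.r x.2) (S.T k1) e} : Set E)
        {e | e = S.T k2 ∨ SO (B.r x.2) (S.T k2) e} := by
      rw [Set.disjoint_left]
      intro e he he'
      simp only [Set.mem_ofPred_eq] at he he'
      apply hn
      have ne : S.T k2 ≠ S.T k1 := fun h => h3 (S.T_inj hf h).symm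
      have r3a := B.r3 x.2 (S.T k1)
      have r3b := B.r3 x.2 (S.T k2)
      unfold SO at he he' ⊢
      rcases he with h4 | h4 | h4 <;> rcases he' with h5 | h5 | h5
      · exact absurd (h5.symm.trans h4) ne
      · right
        rw [← h4, h5, B.r3]
      · left
        rw [← h4, h5, B.r3]
      · left
        rw [← h5, h4]
      · exact absurd ((B.r x.2).injective (h5.symm.trans h4)) ne
      · right
        have h6 : B.r x.2 (S.T k2) = S.T k1 := (B.r x.2).injective (h5.symm.trans h4)
        rw [← h6, B.r3]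
      · right
        rw [← h5, h4]
      · left
        exact (B.r x.2).injective (h5.symm.trans h4)
      · exact absurd ((B.r x.2).injective ((B.r x.2).injective (h5.symm.trans h4))) ne
    have hU : ({e | S.p x.2 e = x} : Set E) = S.PP k1 k2 ∪
        ({e | e = S.T k1 ∨ SO (B.r x.2) (S.T k1) e} ∪ {e | e = S.T k2 ∨ SO (B.r x.2) (S.T k2) e}) := by
      ext e
      simp only [Star.PP, Set.mem_ofPred_eq, Set.mem_union]
      constructor
      · intro h
        by_cases a1 : e = S.T k1 ∨ SO (B.r x.2) (S.T k1) e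
        · exact Or.inr (Or.inl a1)
        · by_cases a2 : e = S.T k2 ∨ SO (B.r x.2) (S.T k2) e
          · exact Or.inr (Or.inr a2)
          · rw [not_or] at a1 a2
            exact Or.inl ⟨h, a1.1, a1.2, a2.1, a2.2⟩
      · rintro (h | h | h)
        · exact h.1
        · rw [RV_orbp S h]
          exact S.T_p _
        · rw [RV_orbp S h]
          exact S.T_p _
    have hdis : Disjoint (S.PP k1 k2)
        ({e | e = S.T k1 ∨ SO (B.r x.2) (S.T k1) e} ∪ {e | e = S.T k2 ∨ SO (B.r x.2) (S.T k2) e}) := by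
      rw [Set.disjoint_left]
      intro e he he'
      simp only [Star.PP, Set.mem_ofPred_eq, Set.mem_union] at he he'
      tauto
    rw [hU, Set.ncard_union_eq hdis (Set.toFinite _) (Set.toFinite _),
      Set.ncard_union_eq hO (Set.toFinite _) (Set.toFinite _), RV_orb3, RV_orb3]
  have e4 : ({e | S.p (!x.2) e = x} : Set E).ncard = S.QQ.ncard + 3 := by
    have hU : ({e | S.p (!x.2) e = x} : Set E) = S.QQ ∪
        {e | e = S.ex (!x.2) ∨ SO (B.r (!x.2)) (S.ex (!x.2)) e} := by
      ext e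
      simp only [Star.QQ, Set.mem_ofPred_eq, Set.mem_union]
      constructor
      · intro h
        by_cases a1 : e = S.ex (!x.2) ∨ SO (B.r (!x.2)) (S.ex (!x.2)) e
        · exact Or.inr a1
        · rw [not_or] at a1
          exact Or.inl ⟨h, a1.1, a1.2⟩
      · rintro (h | h)
        · exact h.1
        · rw [RV_orbp S h]
          exact S.hx _
    have hdis : Disjoint S.QQ
        ({e | e = S.ex (!x.2) ∨ SO (B.r (!x.2)) (S.ex (!x.2)) e} : Set E) := by
      rw [Set.disjoint_left]
      intro e he he'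
      simp only [Star.QQ, Set.mem_ofPred_eq] at he he'
      tauto
    rw [hU, Set.ncard_union_eq hdis (Set.toFinite _) (Set.toFinite _), RV_orb3]
  have hc : (S.PP k1 k2).ncard = S.QQ.ncard := by omega
  rcases hall_cb B x.2 (S.PP k1 k2) S.QQ hP hQ hc with ⟨M, hMP, hMQ, hM1, hM2⟩ | ⟨Z0, hZ, hZQ, hne, hlt⟩
  · exact Or.inl (S.RV_match hf h1 h2 h3 hn M hMP hMQ hM1 hM2)
  · exact Or.inr (S.RV_hall hf hC h1 h2 h3 hn Z0 hZ hZQ hne hlt)

end Pool.Agent.PP
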