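import Pool.Agent.Lib_MP_7c0803_x.FibDefs

/-!
# [X-D1] Two edges at `x` with the same end

`z = x.2`, `T k = S.T k` the three edges at `x` (`S.T_def`), `{j, k1, k2} = {0, 1, 2}`.  An edge with exactly one end in the fibre of `x` is one of
`T 0, T 1, T 2, ex z` (the `z`-end is in the fibre) or `ex (!z)` (the `!z`-end): `S.cls`, `S.cls'`, `S.bd`.  `S.V j` is in `Defs.lean`.

`RV_same`: `T k1`, `T k2` have the same `z`-end.  `Z z = {the three edges of this orbit}`, `Z (!z) = ∅`, `r` = the third edge of the orbit.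
`r ≠ ex z`: `m` is in the orbit of `ex z`, but `S.p (!z) m = x` and `S.p (!z) (T k) ≠ x`.  So `r = T j` or `r` is inside (`S.cls`).
-/

set_option autoImplicit false

open Finset Function

namespace Pool.Agent.PP

universe u v

variable {E : Type u} {A : Type v} {B : CB E} {f : Fin 3 → Equiv.Perm A} {x y : A × Bool}

private lemma FibA_fin3 {j k1 k2 : Fin 3} (h1 : j ≠ k1) (h2 : j ≠ k2) (h3 : k1 ≠ k2) (k : Fin 3) :
    k ≠ j ↔ (k = k1 ∨ k = k2) := by
  revert j k1 k2 k; decide

/-- the third edge of the orbit of `a`, `b` -/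
private lemma FibA_third (B : CB E) (z : Bool) {a b : E} (h : SO (B.r z) a b) :
    ∃ r, r ≠ a ∧ r ≠ b ∧ (∀ e, (e = a ∨ e = b ∨ e = r) → (B.r z e = a ∨ B.r z e = b ∨ B.r z e = r)) ∧
      (∀ e, SO (B.r z) e r → e = a ∨ e = b) ∧ SO (B.r z) a r := by
  have h3 := B.r3 z a
  have hinj := (B.r z).injective
  have n1 : B.r z a ≠ a := B.r1 z a
  have n2 : B.r z (B.r z a) ≠ B.r z a := B.r1 z _
  have n3 : B.r z (B.r z a) ≠ a := by
    intro hh
    rw [hh] at h3
    exact n1 h3
  rcases h with h | h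
  · refine ⟨B.r z (B.r z a), n3, by rw [h]; exact n2, ?_, ?_, Or.inr rfl⟩
    · rintro e (rfl | rfl | rfl)
      · right; left; exact h.symm
      · right; right; rw [h]
      · left; exact h3
    · rintro e (he | he)
      · right; rw [h]; exact (hinj he).symm
      · left; exact (hinj (hinj he)).symm
  · refine ⟨B.r z a, n1, by rw [h]; exact fun h' => n2 h'.symm, ?_, ?_, Or.inl rfl⟩
    · rintro e (rfl | rfl | rfl)
      · right; right; rfl
      · left; rw [h]; exact h3
      · right; left; exact h.symm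
    · rintro e (he | he)
      · left; exact (hinj he).symm
      · right
        rw [h]
        have := hinj he
        -- `a = r e`, so `r (r a) = r (r (r e)) = e`
        rw [this]
        exact (B.r3 z e).symm

theorem Star.RV_same [Finite E] (hf : Smp f) (S : Star B f x y) {j k1 k2 : Fin 3} (h1 : j ≠ k1) (h2 : j ≠ k2) (h3 : k1 ≠ k2)
    (h : SO (B.r x.2) (S.T k1) (S.T k2)) : Nonempty (S.V j) := by
  obtain ⟨r, r1, r2, horb, hso, hr⟩ := FibA_third B x.2 h
  have hp : ∀ e, (e = S.T k1 ∨ e = S.T k2 ∨ e = r) → S.p x.2 e = x := by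
    rintro e (rfl | rfl | rfl)
    · exact S.T_p k1
    · exact S.T_p k2
    · rw [SO_inv B S.p S.hp hr]; exact S.T_p k1
  have hrex : r ≠ S.ex x.2 := by
    intro hh
    have hm := S.hm x.2
    rw [← hh] at hm
    have hmp := S.m_p (!x.2)
    rcases hso _ hm with h4 | h4
    · rw [h4] at hmp; exact S.T_ne k1 hmp
    · rw [h4] at hmp; exact S.T_ne k2 hmp
  have hrot : ∀ e, (e = S.T k1 ∨ e = S.T k2 ∨ e = r) ↔ (B.r x.2 e = S.T k1 ∨ B.r x.2 e = S.T k2 ∨ B.r x.2 e = r) := by
    intro e
    constructor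
    · exact horb e
    · intro h4
      have h5 := horb _ (horb _ h4)
      rwa [B.r3] at h5
  refine ⟨⟨fun z e => z = x.2 ∧ (e = S.T k1 ∨ e = S.T k2 ∨ e = r), r, ?_, ?_, ?_, ?_, ?_, ?_⟩⟩
  · intro z e
    constructor
    · rintro ⟨hz, he⟩
      subst hz
      exact ⟨rfl, (hrot e).2 he⟩
    · rintro ⟨hz, he⟩
      subst hz
      exact ⟨rfl, (hrot e).1 he⟩
  · rintro z e ⟨hz, he⟩
    subst hz
    exact hp e he
  · rintro z z' ⟨hz, he⟩
    have hpe := hp _ he
    have hz' := S.ex_p z' x.2 hpe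
    subst hz'
    rcases he with he | he | he
    · exact S.T_ex k1 _ he.symm
    · exact S.T_ex k2 _ he.symm
    · exact hrex he.symm
  · rintro e ⟨hz, -⟩
    exact absurd hz (by cases x.2 <;> simp)
  · intro e
    have hnz : ¬ ((!x.2) = x.2) := by cases x.2 <;> simp
    constructor
    · rintro ⟨⟨-, he⟩, -⟩
      rcases he with he | he | he
      · left; exact ⟨k1, h1.symm, by rw [he]; rfl⟩
      · left; exact ⟨k2, h2.symm, by rw [he]; rfl⟩
      · right; exact he
    · rintro (⟨k, hk, rfl⟩ | rfl)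
      · refine ⟨⟨rfl, ?_⟩, fun h6 => hnz h6.1⟩
        rcases (FibA_fin3 h1 h2 h3 k).1 hk with rfl | rfl
        · left; rfl
        · right; left; rfl
      · exact ⟨⟨rfl, Or.inr (Or.inr rfl)⟩, fun h6 => hnz h6.1⟩
  · by_cases h4 : S.p (!x.2) r = x
    · right
      intro z
      have h5 : S.p x.2 r = x := hp r (Or.inr (Or.inr rfl))
      by_cases hz : z = x.2
      · rw [hz]; exact h5
      · have : z = !x.2 := by
          revert hz
          cases z <;> cases x.2 <;> simp
        rw [this]; exact h4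
    · left
      rcases S.cls (hp r (Or.inr (Or.inr rfl))) h4 with ⟨k, hk⟩ | hk
      · by_cases hkj : k = j
        · rw [← hk, hkj]; rfl
        · rcases (FibA_fin3 h1 h2 h3 k).1 hkj with rfl | rfl
          · exact absurd hk.symm r1
          · exact absurd hk.symm r2
      · exact absurd hk hrex

end Pool.Agent.PP
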