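import Pool.Agent.Lib_MP_7c0803_x.Cnt1
import Pool.Agent.Lib_MP_7c0803_x.Cnt2

/-!
# The sets for Hall's theorem in the fibre of `x`
-/

set_option autoImplicit false

open Finset Function

namespace Pool.Agent.PP

universe u v

variable {E : Type u} {A : Type v} {B : CB E} {f : Fin 3 → Equiv.Perm A} {x y : A × Bool}

/-- the set `P` for `k1`, `k2` -/
def Star.PP (S : Star B f x y) (k1 k2 : Fin 3) : Set E :=
  {e | S.p x.2 e = x ∧ e ≠ S.T k1 ∧ ¬ SO (B.r x.2) (S.T k1) e ∧ e ≠ S.T k2 ∧ ¬ SO (B.r x.2) (S.T k2) e}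

/-- the set `Q` -/
def Star.QQ (S : Star B f x y) : Set E :=
  {e | S.p (!x.2) e = x ∧ e ≠ S.ex (!x.2) ∧ ¬ SO (B.r (!x.2)) (S.ex (!x.2)) e}

end Pool.Agent.PP
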