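import Pool.Agent.Lib_MP_7c0803_x.Shift

/-!
# `Good (cyf 7 1 5)`: the graph with 14 vertices

`tb14`: certificates `(j, k, N, N')` (`ck`) for the first vertex in the position `0` (number `0` and number `7`) and the second vertex with number
`0, 1, ..`; found by computer.
-/

set_option autoImplicit false
set_option maxRecDepth 100000

open Finset Function

namespace Pool.Agent.PP

def T14 : ℕ := 283728798469285662206861035206897712395893320867779501162072096

def NT14 : ℕ := 59758212634815258500420948321031893004658273919520281887781127

def tb14 : List (List (List (ℕ × ℕ × ℕ × ℕ))) := [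
  [[],
   [(0, 0, 2483720578434, 1256888305026), (1, 1, 447903831624, 2483969214024), (1, 2, 2480949315912, 654062201160)],
   [(0, 0, 2303588395074, 2277562212738), (0, 1, 2277566157378, 2287683606594), (1, 2, 2480949319752, 447907780104)],
   [(0, 2, 2480957331522, 2303588640834), (1, 0, 2483973408264, 431750780424), (1, 1, 447908025864, 1659340424712)],
   [(0, 1, 2277834588738, 2483989013634), (1, 1, 2483989136904, 628560855624), (2, 0, 1688299972704, 451350250080)],
   [(0, 0, 2498136938562, 1261183271298), (1, 0, 1673500133640, 2498129172552), (2, 1, 2501303211168, 645630362208)],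
   [(0, 0, 1547670938754, 1518380290626), (0, 2, 2552443998786, 2578466236482), (1, 1, 1737924643080, 1753825486920)],
   [(0, 0, 2277566091842, 2303588329538)],
   [(1, 1, 2483969213960, 447903831560)],
   [(0, 0, 2303335934018, 2483720578178), (1, 1, 418861695560, 2483720701448), (2, 2, 2513169434720, 2484123354272)],
   [(0, 1, 2480957069378, 2277818597954), (1, 0, 2480949303368, 2483720689160), (2, 2, 2513169422432, 448310416544)],
   [(0, 2, 2277817811522, 2480956282946), (1, 1, 628544078408, 448159434248), (2, 0, 628449706592, 451081015904)],
   [(2, 2, 2513118304352, 451283141216)],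
   [(0, 0, 1256888304002, 431754351170), (1, 2, 1669205166344, 2493834205256), (2, 1, 1675647615392, 2484123353504)]],
  [[(0, 0, 2500083156502, 2480906012950)],
   [(0, 0, 447903769990, 2499826754962), (1, 2, 654062201161, 1688031537505), (2, 1, 447903831625, 448061916769)],
   [(2, 2, 2513169438817, 2484123358369)],
   [(0, 2, 2483977291270, 2512968296530), (1, 1, 1659340424713, 628699267489), (2, 0, 2483973408265, 2500280849569)],
   [(0, 1, 2512984025170, 2483993019910), (1, 0, 1688299972705, 644623729249), (2, 2, 2513185413217, 451598762401)],
   [(0, 0, 2498137000198, 436250706514), (1, 1, 1676417770657, 645630362209), (2, 2, 2514192046177, 452356883041)],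
   [(1, 1, 1727961334369, 1744367092129)],
   [],
   [(0, 0, 419315417490, 2500075267218), (0, 2, 2500083156498, 2480906012946), (1, 1, 654062201097, 1656316332297)],
   [(0, 0, 2512715589714, 447903769734), (1, 0, 654062200905, 1688031537249), (2, 1, 451081814625, 2483720701449)],
   [(0, 1, 2483977029126, 419070837330), (1, 1, 628450493025, 1659340162569), (2, 0, 2480949303369, 2484123341985)],
   [(0, 2, 2512967247954, 2480956344582), (1, 0, 628449706593, 644350550433), (1, 1, 644855464353, 628544078409)],
   [(0, 0, 2480906012934, 431955740166), (0, 1, 2500083156486, 2512715589894), (1, 2, 1688232863841, 644805132705)],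
   [(0, 0, 431955739218, 447903768966), (1, 1, 1675647615393, 1659241857633), (1, 2, 1685011638369, 1669205166345)]]]

theorem good14 : Good (cyf 7 1 5) := by
  refine good_cyf 1 5 T14 NT14 tb14 ?_ ?_ ?_ ?_ ?_ ?_ ?_ ?_ ?_ ?_ ?_ ?_
  · decide
  · have : ∀ a b, viN 7 a = viN 7 b → a = b := by decide
    exact fun a b h => this a b h
  · decide
  · decide
  · decide
  · decide
  · unfold Smp
    decide
  · decide
  · decide
  · decide +kernel
  · decide +kernel
  · decide +kernel

end Pool.Agent.PP
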