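import Pool.Agent.Lib_MP_7c0803_x.Trans1
import Pool.Agent.Lib_MP_7c0803_x.CDefs
import Pool.Agent.Lib_MP_7c0803_kb.Ks

/-!
# [X-M2] The contraction of the simple graph

`toCB_ends` (`Lib_MP_7c0803_hon/R.lean`): `vx e`, `vy e` are the ends of the edge `e`; two edges have the same `X`-end iff they are equal or `SO s`.
`BGr f` is in `Lib_MP_7c0803_kb/Ks.lean`.

[X-M2] `contr_of_octr`: `π v = C.p false e` if `v = vx e`, `C.p true e` if `v = vy e` (well defined by `C.hp`).  Connected fibres by `fib_conn`.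
-/

set_option autoImplicit false

open Finset Function

namespace Pool.Agent.PP

open SimpleGraph

universe u v

variable {V : Type u} {G : SimpleGraph V} {A : Type v}

private lemma Trans2_so {E : Type u} {B : CB E} {f : Fin 3 → Equiv.Perm A} (C : OCtr B f) (z : Bool) {e e' : E}
    (h : e' = e ∨ SO (B.r z) e e') : C.p z e' = C.p z e := by
  rcases h with rfl | rfl | rfl
  · rfl
  · exact C.hp z e
  · rw [C.hp, C.hp]

theorem contr_of_octr [Finite V] (M : Emb G) (κ : G.Coloring Bool) (hcub : ∀ v, (G.neighborSet v).ncard = 3) (hG : G.Connected)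
    (f : Fin 3 → Equiv.Perm A) (hf : Smp f) (C : OCtr (toCB M κ hcub) f) : ContractsOnto G (BGr f) := by
  classical
  have hC : (toCB M κ hcub).Cn := cn_of_connected M κ hcub hG
  obtain ⟨vx, vy, hends, hκx, hκy, hx, hy, hsurj⟩ := toCB_ends M κ hcub
  -- the two ends
  let vz : Bool → G.edgeSet → V := fun z e => if z then vy e else vx e
  have hvz : ∀ z e, vz z ((toCB M κ hcub).r z e) = vz z e := by
    rintro (_ | _) e
    · exact ((hx e ((toCB M κ hcub).s e)).2 (Or.inr (Or.inl rfl))).symm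
    · exact ((hy e ((toCB M κ hcub).t e)).2 (Or.inr (Or.inl rfl))).symm
  have hs : ∀ v, ∃ z e, vz z e = v := by
    intro v
    rcases hv : κ v with _ | _
    · obtain ⟨e, he⟩ := (hsurj v).2 hv
      exact ⟨true, e, he⟩
    · obtain ⟨e, he⟩ := (hsurj v).1 hv
      exact ⟨false, e, he⟩
  have hκz : ∀ z e, κ (vz z e) = !z := by
    rintro (_ | _) e
    · exact hκx e
    · exact hκy e
  have hadj : ∀ e : G.edgeSet, G.Adj (vx e) (vy e) := fun e => by
    have h := e.2
    rw [hends] at h
    exact h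
  have hadjz : ∀ z (e : G.edgeSet), G.Adj (vz z e) (vz (!z) e) := by
    rintro (_ | _) e
    · exact hadj e
    · exact (hadj e).symm
  have hπ : ∀ v, ∃ w : A × Bool, ∀ z e, vz z e = v → C.p z e = w := by
    intro v
    obtain ⟨z, e, he⟩ := hs v
    refine ⟨C.p z e, ?_⟩
    intro z' e' he'
    have h1 : z' = z := by
      have h2 := hκz z' e'
      rw [he', ← he, hκz] at h2
      exact (Bool.not_inj h2).symm
    subst h1
    have h3 : vz z' e = vz z' e' := he.trans he'.symm
    apply Trans2_so C z'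
    cases z'
    · exact (hx e e').1 h3
    · exact (hy e e').1 h3
  choose π hπ' using hπ
  have hp : ∀ z e, π (vz z e) = C.p z e := fun z e => (hπ' _ z e rfl).symm
  have hp0 : ∀ e, π (vx e) = C.p false e := fun e => hp false e
  have hp1 : ∀ e, π (vy e) = C.p true e := fun e => hp true e
  -- adjacent vertices
  have hedge : ∀ u v, G.Adj u v → ∃ z e, u = vz z e ∧ v = vz (!z) e := by
    intro u v h
    have h1 := hends ⟨s(u, v), h⟩
    rcases Sym2.eq_iff.1 h1 with ⟨h2, h3⟩ | ⟨h2, h3⟩
    · exact ⟨false, _, h2, h3⟩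
    · exact ⟨true, _, h2, h3⟩
  have hqadj : ∀ z (q : A × Fin 3), (BGr f).Adj (en f q z) (en f q (!z)) := by
    rintro (_ | _) ⟨a, j⟩
    · exact Or.inl ⟨rfl, rfl, j, rfl⟩
    · exact Or.inr ⟨rfl, rfl, j, rfl⟩
  refine ⟨π, ?_, ?_, ?_⟩
  · intro w
    have hne : Nonempty {v | π v = w} := by
      refine ⟨⟨vz w.2 (C.i (ie f w 0)), ?_⟩⟩
      show π (vz w.2 (C.i (ie f w 0))) = w
      rw [hp, C.hi, en_ie]
    have := hne
    refine ⟨?_⟩
    rintro ⟨a, ha⟩ ⟨b, hb⟩
    let Z : Bool → G.edgeSet → Prop := fun z e =>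
      ∃ h : π (vz z e) = w, (G.induce {v | π v = w}).Reachable ⟨a, ha⟩ ⟨vz z e, h⟩
    have hcongr : ∀ u v : V, u = v → ∀ (h : π u = w), (G.induce {v | π v = w}).Reachable ⟨a, ha⟩ ⟨u, h⟩ →
        ∃ h' : π v = w, (G.induce {v | π v = w}).Reachable ⟨a, ha⟩ ⟨v, h'⟩ := by
      rintro u v rfl h h1
      exact ⟨h, h1⟩
    have hZ : ∀ z e, Z z ((toCB M κ hcub).r z e) ↔ Z z e := by
      intro z e
      constructor
      · rintro ⟨h, h1⟩
        exact hcongr _ _ (hvz z e) h h1
      · rintro ⟨h, h1⟩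
        exact hcongr _ _ (hvz z e).symm h h1
    have hw : ∀ z e, Z z e → C.p z e = w := by
      rintro z e ⟨h, -⟩
      rw [← hp]
      exact h
    have hstep : ∀ z e, C.p (!z) e = w → Z z e → Z (!z) e := by
      rintro z e h0 ⟨h, h1⟩
      refine ⟨(hp _ _).trans h0, h1.trans ?_⟩
      apply SimpleGraph.Adj.reachable
      exact hadjz z e
    have hin : ∀ e, C.p false e = w → C.p true e = w → (Z false e ↔ Z true e) := by
      intro e h0 h1
      exact ⟨hstep false e h1, hstep true e h0⟩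
    rcases fib_conn hC hf C w Z hZ hw hin with h | h
    · obtain ⟨z, e, he⟩ := hs a
      exfalso
      apply h z e
      have h1 := hcongr a (vz z e) he.symm ha (SimpleGraph.Reachable.refl _)
      exact h1
    · obtain ⟨z, e, he⟩ := hs b
      obtain ⟨h1, h2⟩ := h z e (by rw [← hp, he]; exact hb)
      subst he
      exact h2
  · intro u v h
    obtain ⟨z, e, rfl, rfl⟩ := hedge u v h
    rcases C.hin e with h1 | ⟨q, rfl⟩
    · left
      cases z
      · rw [hp, hp]
        exact h1
      · rw [hp, hp]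
        exact h1.symm
    · right
      rw [hp, hp, C.hi, C.hi]
      exact hqadj z q
  · intro x y hxy
    have hq : ∃ z q, x = en f q z ∧ y = en f q (!z) := by
      rcases hxy with ⟨h1, h2, j, h3⟩ | ⟨h1, h2, j, h3⟩
      · exact ⟨false, (x.1, j), Prod.ext rfl h1, Prod.ext h3.symm h2⟩
      · exact ⟨true, (y.1, j), Prod.ext h3.symm h2, Prod.ext rfl h1⟩
    obtain ⟨z, q, rfl, rfl⟩ := hq
    refine ⟨(vz z (C.i q), vz (!z) (C.i q)), ⟨hadjz z _, ?_, ?_⟩, ?_⟩
    · show π (vz z (C.i q)) = en f q z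
      rw [hp, C.hi]
    · show π (vz (!z) (C.i q)) = en f q (!z)
      rw [hp, C.hi]
    rintro ⟨u, v⟩ ⟨h1, h2, h3⟩
    obtain ⟨z', e, hu, hv⟩ := hedge u v h1
    change π u = en f q z at h2
    change π v = en f q (!z) at h3
    rw [hu, hp] at h2
    rw [hv, hp] at h3
    have hpne : C.p false e ≠ C.p true e := by
      intro h4
      have h5 : C.p z' e = C.p (!z') e := by
        cases z'
        · exact h4
        · exact h4.symm
      rw [h2, h3] at h5
      have h6 := congrArg Prod.snd h5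
      simp at h6
    rcases C.hin e with h4 | ⟨q', rfl⟩
    · exact absurd h4 hpne
    rw [C.hi] at h2 h3
    have hz : z' = z := congrArg Prod.snd h2
    subst hz
    have hqq : q' = q := by
      apply hf.en_inj
      intro z
      rcases Bool.eq_or_eq_not z z' with h | h
      · rw [h]; exact h2
      · rw [h]; exact h3
    subst hqq
    rw [hu, hv]

end Pool.Agent.PP
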