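import Pool.Agent.Lib_MP_7c0803_x.Conv1
import Pool.Agent.Lib_MP_7c0803_x.CDefs
import Pool.Agent.Lib_MP_7c0803_kb.Ks

/-!
# [X-M4] From a contraction of the simple graph

`toCB_ends` (`Lib_MP_7c0803_hon/R.lean`): `vx e`, `vy e` are the ends of the edge `e`; two edges have the same `X`-end iff they are equal or `SO s`.
`BGr f` is in `Lib_MP_7c0803_kb/Ks.lean`.

[X-M4] `ctr_of_contr`: `p false e = π (vx e)`, `p true e = π (vy e)`, `i (a, j)` = the unique edge between the fibres of `(a, false)` and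
`(f j a, true)`.
-/

set_option autoImplicit false

open Finset Function

namespace Pool.Agent.PP

open SimpleGraph

universe u v

variable {V : Type u} {G : SimpleGraph V} {A : Type v}

theorem ctr_of_contr (M : Emb G) (κ : G.Coloring Bool) (hcub : ∀ v, (G.neighborSet v).ncard = 3)
    (f : Fin 3 → Equiv.Perm A) (hf : Smp f) (h : ContractsOnto G (BGr f)) : Nonempty (Ctr (toCB M κ hcub) f) := by
  classical
  obtain ⟨π, -, h2, h3⟩ := h
  obtain ⟨vx, vy, hends, hκx, hκy, hx, hy, -⟩ := toCB_ends M κ hcub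
  have hadj : ∀ e : G.edgeSet, G.Adj (vx e) (vy e) := fun e => by
    have h := e.2
    rw [hends] at h
    exact h
  have hq : ∀ q : A × Fin 3, (BGr f).Adj (en f q false) (en f q true) := by
    rintro ⟨a, j⟩
    exact Or.inl ⟨rfl, rfl, j, rfl⟩
  choose d hd hu using fun q => h3 _ _ (hq q)
  let i : A × Fin 3 → G.edgeSet := fun q => ⟨s((d q).1, (d q).2), (hd q).1⟩
  have hi : ∀ q, ((d q).1 = vx (i q) ∧ (d q).2 = vy (i q)) ∨ ((d q).1 = vy (i q) ∧ (d q).2 = vx (i q)) := by
    intro q
    have h4 : s((d q).1, (d q).2) = s(vx (i q), vy (i q)) := hends (i q)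
    exact Sym2.eq_iff.1 h4
  refine ⟨⟨fun z e => if z then π (vy e) else π (vx e), ?_, i, ?_, ?_⟩⟩
  · rintro (_ | _) e
    · exact congrArg π ((hx e ((toCB M κ hcub).s e)).2 (Or.inr (Or.inl rfl))).symm
    · exact congrArg π ((hy e ((toCB M κ hcub).t e)).2 (Or.inr (Or.inl rfl))).symm
  · intro q
    rcases hi q with ⟨h4, h5⟩ | ⟨h4, h5⟩
    · left
      rintro (_ | _)
      · show π (vx (i q)) = en f q false
        rw [← h4]
        exact (hd q).2.1
      · show π (vy (i q)) = en f q true
        rw [← h5]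
        exact (hd q).2.2
    · right
      rintro (_ | _)
      · show π (vx (i q)) = en f q true
        rw [← h5]
        exact (hd q).2.2
      · show π (vy (i q)) = en f q false
        rw [← h4]
        exact (hd q).2.1
  · intro e
    rcases h2 _ _ (hadj e) with h4 | ⟨h4, h5, j, h6⟩ | ⟨h4, h5, j, h6⟩
    · exact Or.inl h4
    · right
      refine ⟨((π (vx e)).1, j), ?_⟩
      have h7 := hu ((π (vx e)).1, j) (vx e, vy e) ⟨hadj e, Prod.ext rfl h4, Prod.ext h6.symm h5⟩
      apply Subtype.ext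
      show s((d ((π (vx e)).1, j)).1, (d ((π (vx e)).1, j)).2) = (e : Sym2 V)
      rw [← h7, hends e]
    · right
      refine ⟨((π (vy e)).1, j), ?_⟩
      have h7 := hu ((π (vy e)).1, j) (vy e, vx e) ⟨(hadj e).symm, Prod.ext rfl h4, Prod.ext h6.symm h5⟩
      apply Subtype.ext
      show s((d ((π (vy e)).1, j)).1, (d ((π (vy e)).1, j)).2) = (e : Sym2 V)
      rw [← h7, hends e]
      exact Sym2.eq_swap

end Pool.Agent.PP
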