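import Pool.Agent.Lib_MP_7c0803_x.Desc
import Pool.Agent.Lib_MP_7c0803_x.Conv
import Pool.Agent.Lib_MP_7c0803_x.Trans2
import Pool.Agent.Lib_MP_7c0803_x.Trans3
import Pool.Agent.Lib_MP_7c0803_x.Cyc2
import Pool.Agent.Lib_MP_7c0803_x.G14
import Pool.Agent.Lib_MP_7c0803_x.G20
import Pool.Agent.Lib_MP_7c0803_x.G18

/-!
# Cubic bipartite graphs on surfaces of Euler characteristic at least zero
-/

set_option autoImplicit false

open Finset Function

namespace Pool.Agent.PP

open SimpleGraph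

universe u

variable {V : Type u} {G : SimpleGraph V}

/-- **The criterion for all cubic bipartite graphs of Euler characteristic at least zero.** -/
theorem nonneg_all [Finite V] (M : Emb G) (κ : G.Coloring Bool) (hcub : ∀ v, (G.neighborSet v).ncard = 3)
    (hG : G.Connected) (hχ : Nat.card G.edgeSet ≤ Nat.card V + Nat.card M.Face) :
    Kc G.lineGraph 3 = 1 ↔ EvenFlips G ∧ ¬ ContractsOnto G (Hon (Lt (2, 1) (-7, 0))) ∧
      ¬ ContractsOnto G (Hon (Lt (2, 1) (-10, 0))) ∧ ¬ ContractsOnto G kleinGraph := by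
  classical
  have : Fintype G.edgeSet := Fintype.ofFinite _
  have hC := cn_of_connected M κ hcub hG
  constructor
  · intro h
    have hcon := (Kc_iff M κ hcub).1 h
    refine ⟨fun c c' => kc_necessary M κ hcub h c c', ?_, ?_, ?_⟩
    · intro hc
      obtain ⟨φ⟩ := hon14
      obtain ⟨C⟩ := ctr_of_contr M κ hcub _ good14.smp (hc.iso φ.symm)
      obtain ⟨i⟩ := ht14
      exact ncon_T14 (i.Con.2 (C.con good14.smp hcon))
    · intro hc
      obtain ⟨φ⟩ := hon20
      obtain ⟨C⟩ := ctr_of_contr M κ hcub _ good20.smp (hc.iso φ.symm)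
      obtain ⟨i⟩ := ht20
      exact ncon_T20 (i.Con.2 (C.con good20.smp hcon))
    · intro hc
      rw [kleinGraph_eq] at hc
      obtain ⟨C⟩ := ctr_of_contr M κ hcub _ good18.smp hc
      exact kb_small.1 (C.con good18.smp hcon)
  · rintro ⟨hE, h14, h20, h18⟩
    by_contra hK
    have hnc : ¬ (toCB M κ hcub).Con := fun h => hK ((Kc_iff M κ hcub).2 h)
    have hp : (toCB M κ hcub).PC := (PC_iff M κ hcub).2 hE
    rcases exists_octr good14 good20 good18 _ _ (toCB M κ hcub) (twE M κ) le_rfl hp hnc hC ((chi0_iff M κ hcub).1 hχ) with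
      ⟨⟨C⟩⟩ | ⟨⟨C⟩⟩ | ⟨⟨C⟩⟩
    · obtain ⟨φ⟩ := hon14
      exact h14 ((contr_of_octr M κ hcub hG _ good14.smp C).iso φ)
    · obtain ⟨φ⟩ := hon20
      exact h20 ((contr_of_octr M κ hcub hG _ good20.smp C).iso φ)
    · rw [kleinGraph_eq] at h18
      exact h18 (contr_of_octr M κ hcub hG _ good18.smp C)

end Pool.Agent.PP
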