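import Pool.Agent.Lib_MP_7c0803_x.Ck

/-!
# `Good` from a table of certificates
-/

set_option autoImplicit false

open Finset Function

namespace Pool.Agent.PP

universe v

/-- the list contains a pair of numbers less than three with the property `P` -/
def pan (l : List (ℕ × ℕ)) (P : ℕ → ℕ → Bool) : Bool := l.any (fun p => Nat.ble p.1 2 && Nat.ble p.2 2 && P p.1 p.2)

lemma pan_iff {l : List (ℕ × ℕ)} {P : ℕ → ℕ → Bool} (h : pan l P = true) :
    ∃ j k : Fin 3, (j.val, k.val) ∈ l ∧ P j.val k.val = true := by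
  unfold pan at h
  rw [List.any_eq_true] at h
  obtain ⟨⟨a, b⟩, hm, h1⟩ := h
  simp only [Bool.and_eq_true, Nat.ble_eq] at h1
  exact ⟨⟨a, by omega⟩, ⟨b, by omega⟩, hm, h1.2⟩

/-- the check for the pair of vertices `x`, `y` and the positions `q`, `q'` -/
def gc1 (NT : ℕ) (pr : ℕ → ℕ → List (ℕ × ℕ)) (x y q q' : ℕ) : Bool :=
  pan (pr x y) (fun j k => !Nat.beq j q && !Nat.beq k q') ||
  (Nat.beq (evx NT x q) (evx NT y q') && pan (pr x y) (fun _ k => !Nat.beq k q') && pan (pr x y) (fun j _ => !Nat.beq j q)) ||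
  (pan (pr x y) (fun _ k => !Nat.beq k q') && pan (pr (evx NT x q) y) (fun j k => !Nat.beq j q && !Nat.beq k q'))

/-- the whole check -/
def gck (NT n : ℕ) (pr : ℕ → ℕ → List (ℕ × ℕ)) : Bool :=
  (List.range (2 * n)).all (fun x => (List.range 3).all (fun j => pan (pr x (evx NT x j)) (fun a b => Nat.beq a j && Nat.beq b j))) &&
  (List.range (2 * n)).all (fun x => (List.range (2 * n)).all (fun y =>
    Nat.beq x y || Nat.beq (evx NT x 0) y || Nat.beq (evx NT x 1) y || Nat.beq (evx NT x 2) y ||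
      (List.range 3).all (fun q => (List.range 3).all (fun q' => gc1 NT pr x y q q'))))

private lemma Gk_beq {a b : ℕ} : Nat.beq a b = true ↔ a = b := by rw [Nat.beq_eq]

private lemma Gk_nbeq {a b : Fin 3} (h : (!Nat.beq a.val b.val) = true) : a ≠ b := by
  intro h1
  subst h1
  rw [Bool.not_eq_true', ← Bool.not_eq_true, Gk_beq] at h
  exact h rfl

theorem good_of_gck {A : Type v} [Fintype A] [DecidableEq A] (f : Fin 3 → Equiv.Perm A) (NT n : ℕ) (vi : A × Bool → ℕ)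
    (h1 : ∀ w, vi w < 2 * n) (h2 : Injective vi) (h6 : ∀ w (l : Fin 3), evx NT (vi w) l.val = vi (nb f w l)) (hs : Smp f)
    (pr : ℕ → ℕ → List (ℕ × ℕ)) (hB : ∀ x y (j k : Fin 3), x ≠ y → (j.val, k.val) ∈ pr (vi x) (vi y) → Both f x j y k)
    (hg : gck NT n pr = true) : Good f := by
  unfold gck at hg
  rw [Bool.and_eq_true] at hg
  obtain ⟨g1, g2⟩ := hg
  have r3 : ∀ j : Fin 3, j.val ∈ List.range 3 := fun j => List.mem_range.2 j.isLt
  refine ⟨hs, ?_, ?_⟩
  · intro x j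
    have a1 := (List.all_eq_true.1 g1) (vi x) (List.mem_range.2 (h1 x))
    have a2 := (List.all_eq_true.1 a1) j.val (r3 j)
    obtain ⟨a, b, hm, h⟩ := pan_iff a2
    rw [Bool.and_eq_true, Gk_beq, Gk_beq] at h
    obtain ⟨ha, hb⟩ := h
    have ha' : a = j := Fin.ext ha
    have hb' : b = j := Fin.ext hb
    subst ha'
    rw [hb', h6] at hm
    exact hB _ _ _ _ (nb_ne f x a).symm hm
  · intro x y hxy hadj q q'
    have a1 := (List.all_eq_true.1 g2) (vi x) (List.mem_range.2 (h1 x))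
    have a2 := (List.all_eq_true.1 a1) (vi y) (List.mem_range.2 (h1 y))
    have b0 : ∀ l : Fin 3, ¬ Nat.beq (evx NT (vi x) l.val) (vi y) = true := by
      intro l h
      rw [Gk_beq, h6] at h
      exact hadj l (h2 h)
    simp only [Bool.or_eq_true] at a2
    rcases a2 with (((a2 | a2) | a2) | a2) | a2
    · rw [Gk_beq] at a2
      exact absurd (h2 a2) hxy
    · exact absurd a2 (b0 0)
    · exact absurd a2 (b0 1)
    · exact absurd a2 (b0 2)
    have a3 := (List.all_eq_true.1 ((List.all_eq_true.1 a2) q.val (r3 q))) q'.val (r3 q')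
    unfold gc1 at a3
    rw [Bool.or_eq_true, Bool.or_eq_true, Bool.and_eq_true, Bool.and_eq_true, Bool.and_eq_true, Gk_beq, h6, h6] at a3
    rcases a3 with (a3 | ⟨⟨e1, e2⟩, e3⟩) | ⟨e1, e2⟩
    · left
      obtain ⟨j, k, hm, h⟩ := pan_iff a3
      rw [Bool.and_eq_true] at h
      exact ⟨j, k, Gk_nbeq h.1, Gk_nbeq h.2, hB _ _ _ _ hxy hm⟩
    · right; left
      obtain ⟨j, k, hm, h⟩ := pan_iff e2
      obtain ⟨j', k', hm', h'⟩ := pan_iff e3
      exact ⟨h2 e1, ⟨j, k, Gk_nbeq h, hB _ _ _ _ hxy hm⟩, ⟨j', k', Gk_nbeq h', hB _ _ _ _ hxy hm'⟩⟩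
    · right; right
      obtain ⟨j, k, hm, h⟩ := pan_iff e1
      obtain ⟨j', k', hm', h'⟩ := pan_iff e2
      rw [Bool.and_eq_true] at h'
      exact ⟨⟨j, k, Gk_nbeq h, hB _ _ _ _ hxy hm⟩, ⟨j', k', Gk_nbeq h'.1, Gk_nbeq h'.2, hB _ _ _ _ (hadj q) hm'⟩⟩

/-- the entry for `x`, `y` of a table -/
def tbe (tb : List (List (List (ℕ × ℕ × ℕ × ℕ)))) (x y : ℕ) : List (ℕ × ℕ × ℕ × ℕ) := (tb.getD x []).getD y []

/-- the pairs of the entry -/
def tbp (l : List (ℕ × ℕ × ℕ × ℕ)) : List (ℕ × ℕ) := l.map (fun r => (r.1, r.2.1))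

/-- all certificates of the entry are correct -/
def tbc (T n x y : ℕ) (l : List (ℕ × ℕ × ℕ × ℕ)) : Bool := l.all (fun r => ck T n x r.1 y r.2.1 r.2.2.1 r.2.2.2)

lemma tbc_mem {T n x y : ℕ} {l : List (ℕ × ℕ × ℕ × ℕ)} (h : tbc T n x y l = true) {j k : ℕ} (hm : (j, k) ∈ tbp l) :
    ∃ N N', ck T n x j y k N N' = true := by
  unfold tbp at hm
  rw [List.mem_map] at hm
  obtain ⟨⟨a, b, c, d⟩, hm, he⟩ := hm
  have h1 := (List.all_eq_true.1 h) _ hm
  simp only [Prod.mk.injEq] at he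
  obtain ⟨rfl, rfl⟩ := he
  exact ⟨c, d, h1⟩

end Pool.Agent.PP
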