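import Pool.Agent.Lib_MP_7c0803_hon.R
import Pool.Agent.Lib_MP_7c0803_tor.Final

/-!
# [XT-P1] The hexagonal grid on a finite quotient of `ℤ × ℤ` has an embedding in the torus

Adapt `Lib_MP_7c0803_tor/HeaEmb.lean` (there for the Heawood graph, finished): the darts of `Hon L` are pairs (vertex, slot `0, 1, 2`): the slot `k` of
the vertex `(p, true)` leads to `(p + δ k, false)`, the slot `k` of `(q, false)` to `(q - δ k, true)`, `δ = 0, (1, 0), (0, 1)`; the three neighbours are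
different by `h1`, `h2`, `h3`.  Rotation: slot `k ↦ k + 1` at all vertices (with the same direction at both kinds of vertices the faces are the hexagons as in `HeaEmb`;
check this on the labels).  No twisted edges.  The hexagons are labelled by the elements of the quotient: a function on the states which is
invariant under `next` and `back` and surjective onto `(ℤ × ℤ) ⧸ L` (as `HeaEmb_F`; e.g. for a state `(d, true)` with the `X`-end `p` and the slot `k`, traversed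
from the `X`-end: label `p + c k`; for the others by invariance).  `|E| = 3 N`, `|V| = 2 N` (`edge_count`).
-/

set_option autoImplicit false

open Finset Function

namespace Pool.Agent.PP

open SimpleGraph

private def HonEmb_dz : Fin 3 → ℤ × ℤ
  | 0 => 0
  | 1 => (1, 0)
  | 2 => (0, 1)

private def HonEmb_d (L : AddSubgroup (ℤ × ℤ)) (k : Fin 3) : (ℤ × ℤ) ⧸ L := ((HonEmb_dz k : ℤ × ℤ) : (ℤ × ℤ) ⧸ L)

private def HonEmb_nx (L : AddSubgroup (ℤ × ℤ)) (u : ((ℤ × ℤ) ⧸ L) × Bool) (k : Fin 3) : ((ℤ × ℤ) ⧸ L) × Bool :=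
  if u.2 = true then (u.1 + HonEmb_d L k, false) else (u.1 - HonEmb_d L k, true)

private lemma HonEmb_d_zero (L : AddSubgroup (ℤ × ℤ)) : HonEmb_d L 0 = 0 := rfl

private lemma HonEmb_rel (L : AddSubgroup (ℤ × ℤ)) (u v : ((ℤ × ℤ) ⧸ L) × Bool) :
    HonRel L u v ↔ u.2 = true ∧ v.2 = false ∧ ∃ k, v.1 = u.1 + HonEmb_d L k := by
  unfold HonRel
  refine and_congr Iff.rfl (and_congr Iff.rfl ⟨?_, ?_⟩)
  · rintro (h | h | h)
    · exact ⟨0, by rw [HonEmb_d_zero, add_zero]; exact h⟩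
    · exact ⟨1, h⟩
    · exact ⟨2, h⟩
  · rintro ⟨k, hk⟩
    fin_cases k
    · left
      have h : v.1 = u.1 + HonEmb_d L 0 := hk
      rw [h, HonEmb_d_zero, add_zero]
    · right; left; exact hk
    · right; right; exact hk

private lemma HonEmb_adj_iff (L : AddSubgroup (ℤ × ℤ)) (u v : ((ℤ × ℤ) ⧸ L) × Bool) :
    (Hon L).Adj u v ↔ ∃ k, v = HonEmb_nx L u k := by
  have h0 : (Hon L).Adj u v ↔ HonRel L u v ∨ HonRel L v u := Iff.rfl
  rw [h0, HonEmb_rel, HonEmb_rel]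
  obtain ⟨p, a⟩ := u
  obtain ⟨q, b⟩ := v
  constructor
  · rintro (⟨h1, h2, k, hk⟩ | ⟨h1, h2, k, hk⟩)
    · refine ⟨k, ?_⟩
      simp only at h1 h2 hk
      subst h1 h2
      unfold HonEmb_nx
      rw [if_pos rfl, hk]
    · refine ⟨k, ?_⟩
      simp only at h1 h2 hk
      subst h1 h2
      unfold HonEmb_nx
      rw [if_neg Bool.false_ne_true, hk]
      simp
  · rintro ⟨k, hk⟩
    unfold HonEmb_nx at hk
    cases a with
    | true =>
      rw [if_pos rfl] at hk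
      left
      exact ⟨rfl, congrArg Prod.snd hk, k, congrArg Prod.fst hk⟩
    | false =>
      rw [if_neg Bool.false_ne_true] at hk
      right
      refine ⟨congrArg Prod.snd hk, rfl, k, ?_⟩
      have := congrArg Prod.fst hk
      simp only at this
      rw [this]
      simp

private lemma HonEmb_dinj (L : AddSubgroup (ℤ × ℤ)) (h1 : ((1, 0) : ℤ × ℤ) ∉ L) (h2 : ((0, 1) : ℤ × ℤ) ∉ L)
    (h3 : ((1, -1) : ℤ × ℤ) ∉ L) : Function.Injective (HonEmb_d L) := by
  have key : ∀ a b : ℤ × ℤ, ((a : ℤ × ℤ) : (ℤ × ℤ) ⧸ L) = ((b : ℤ × ℤ) : (ℤ × ℤ) ⧸ L) → a - b ∈ L := by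
    intro a b h
    rw [← sub_eq_zero, ← QuotientAddGroup.mk_sub, QuotientAddGroup.eq_zero_iff] at h
    exact h
  have hz : ∀ i j : Fin 3, i ≠ j → HonEmb_dz i - HonEmb_dz j = (1, 0) ∨ HonEmb_dz j - HonEmb_dz i = (1, 0) ∨
      HonEmb_dz i - HonEmb_dz j = (0, 1) ∨ HonEmb_dz j - HonEmb_dz i = (0, 1) ∨
      HonEmb_dz i - HonEmb_dz j = (1, -1) ∨ HonEmb_dz j - HonEmb_dz i = (1, -1) := by decide
  intro i j hij
  by_contra hne
  have e1 := key _ _ hij
  have e2 := key _ _ hij.symm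
  rcases hz i j hne with h | h | h | h | h | h
  · exact h1 (h ▸ e1)
  · exact h1 (h ▸ e2)
  · exact h2 (h ▸ e1)
  · exact h2 (h ▸ e2)
  · exact h3 (h ▸ e1)
  · exact h3 (h ▸ e2)

private lemma HonEmb_nx2 (L : AddSubgroup (ℤ × ℤ)) (u : ((ℤ × ℤ) ⧸ L) × Bool) (k : Fin 3) :
    HonEmb_nx L (HonEmb_nx L u k) k = u := by
  obtain ⟨p, a⟩ := u
  cases a <;> simp [HonEmb_nx]

private lemma HonEmb_nxinj (L : AddSubgroup (ℤ × ℤ)) (hd : Function.Injective (HonEmb_d L)) (u : ((ℤ × ℤ) ⧸ L) × Bool) :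
    Function.Injective (HonEmb_nx L u) := by
  intro k k' h
  obtain ⟨p, a⟩ := u
  unfold HonEmb_nx at h
  cases a with
  | true =>
    rw [if_pos rfl, if_pos rfl] at h
    exact hd (add_left_cancel (congrArg Prod.fst h))
  | false =>
    rw [if_neg Bool.false_ne_true, if_neg Bool.false_ne_true] at h
    exact hd (sub_right_injective (congrArg Prod.fst h))

/-- the dart with a given start and slot -/
private def HonEmb_psi (L : AddSubgroup (ℤ × ℤ)) (p : (((ℤ × ℤ) ⧸ L) × Bool) × Fin 3) : (Hon L).Dart :=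
  ⟨(p.1, HonEmb_nx L p.1 p.2), (HonEmb_adj_iff L _ _).2 ⟨p.2, rfl⟩⟩

private lemma HonEmb_psi_bij (L : AddSubgroup (ℤ × ℤ)) (hd : Function.Injective (HonEmb_d L)) :
    Function.Bijective (HonEmb_psi L) := by
  constructor
  · rintro ⟨u, k⟩ ⟨u', k'⟩ h
    have e1 : u = u' := congrArg (fun d : (Hon L).Dart => d.fst) h
    subst e1
    have e2 : HonEmb_nx L u k = HonEmb_nx L u k' := congrArg (fun d : (Hon L).Dart => d.snd) h
    rw [HonEmb_nxinj L hd u e2]
  · intro d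
    obtain ⟨k, hk⟩ := (HonEmb_adj_iff L _ _).1 d.adj
    refine ⟨(d.fst, k), ?_⟩
    apply Dart.ext
    show (d.fst, HonEmb_nx L d.fst k) = d.toProd
    rw [← hk]

private noncomputable def HonEmb_ph (L : AddSubgroup (ℤ × ℤ)) (hd : Function.Injective (HonEmb_d L)) :
    (Hon L).Dart ≃ (((ℤ × ℤ) ⧸ L) × Bool) × Fin 3 := (Equiv.ofBijective _ (HonEmb_psi_bij L hd)).symm

private noncomputable def HonEmb_rot (L : AddSubgroup (ℤ × ℤ)) (hd : Function.Injective (HonEmb_d L)) :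
    Equiv.Perm (Hon L).Dart :=
  ((HonEmb_ph L hd).trans (Equiv.prodCongr (Equiv.refl _) (Equiv.addRight 1))).trans (HonEmb_ph L hd).symm

variable {L : AddSubgroup (ℤ × ℤ)} {hd : Function.Injective (HonEmb_d L)}

private lemma HonEmb_ph_fst (d : (Hon L).Dart) : (HonEmb_ph L hd d).1 = d.fst := by
  have h : HonEmb_psi L (HonEmb_ph L hd d) = d := (HonEmb_ph L hd).symm_apply_apply d
  exact congrArg (fun d : (Hon L).Dart => d.fst) h

private lemma HonEmb_rot_ph (d : (Hon L).Dart) :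
    HonEmb_ph L hd (HonEmb_rot L hd d) = ((HonEmb_ph L hd d).1, (HonEmb_ph L hd d).2 + 1) := by
  unfold HonEmb_rot
  rw [Equiv.trans_apply, Equiv.apply_symm_apply, Equiv.trans_apply]
  rfl

private lemma HonEmb_rotinv_ph (d : (Hon L).Dart) :
    HonEmb_ph L hd ((HonEmb_rot L hd).symm d) = ((HonEmb_ph L hd d).1, (HonEmb_ph L hd d).2 + 2) := by
  obtain ⟨d', rfl⟩ := (HonEmb_rot L hd).surjective d
  rw [Equiv.symm_apply_apply, HonEmb_rot_ph]
  have h : ∀ k : Fin 3, k + 1 + 2 = k := by decide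
  show _ = ((HonEmb_ph L hd d').1, (HonEmb_ph L hd d').2 + 1 + 2)
  rw [h]

private lemma HonEmb_symm_ph (d : (Hon L).Dart) :
    HonEmb_ph L hd d.symm = (HonEmb_nx L (HonEmb_ph L hd d).1 (HonEmb_ph L hd d).2, (HonEmb_ph L hd d).2) := by
  have h : HonEmb_psi L (HonEmb_ph L hd d) = d := (HonEmb_ph L hd).symm_apply_apply d
  have h2 : HonEmb_psi L (HonEmb_nx L (HonEmb_ph L hd d).1 (HonEmb_ph L hd d).2, (HonEmb_ph L hd d).2) = d.symm := by
    conv_rhs => rw [← h]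
    apply Dart.ext
    show (HonEmb_nx L (HonEmb_ph L hd d).1 (HonEmb_ph L hd d).2,
      HonEmb_nx L (HonEmb_nx L (HonEmb_ph L hd d).1 (HonEmb_ph L hd d).2) (HonEmb_ph L hd d).2) =
      (HonEmb_nx L (HonEmb_ph L hd d).1 (HonEmb_ph L hd d).2, (HonEmb_ph L hd d).1)
    rw [HonEmb_nx2]
  rw [← h2]
  exact (HonEmb_ph L hd).apply_symm_apply _

/-- the embedding -/
private noncomputable def HonEmb_M (L : AddSubgroup (ℤ × ℤ)) (hd : Function.Injective (HonEmb_d L)) : Emb (Hon L) where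
  rot := HonEmb_rot L hd
  rot_fst d := by
    have h := congrArg Prod.fst (HonEmb_rot_ph (hd := hd) d)
    rw [HonEmb_ph_fst] at h
    exact h.trans (HonEmb_ph_fst d)
  rot_trans d d' h := by
    have h3 : ∀ k k' : Fin 3, k' = k ∨ k' = k + 1 ∨ k' = k + 1 + 1 := by decide
    have e1 : (HonEmb_ph L hd d).1 = (HonEmb_ph L hd d').1 := by rw [HonEmb_ph_fst, HonEmb_ph_fst, h]
    rcases h3 (HonEmb_ph L hd d).2 (HonEmb_ph L hd d').2 with h4 | h4 | h4
    · refine ⟨0, (HonEmb_ph L hd).injective ?_⟩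
      rw [pow_zero, Equiv.Perm.one_apply]
      exact Prod.ext e1 h4.symm
    · refine ⟨1, (HonEmb_ph L hd).injective ?_⟩
      rw [pow_one, HonEmb_rot_ph]
      exact Prod.ext e1 h4.symm
    · refine ⟨2, (HonEmb_ph L hd).injective ?_⟩
      rw [pow_two, Equiv.Perm.mul_apply, HonEmb_rot_ph, HonEmb_rot_ph]
      exact Prod.ext e1 h4.symm
  tw := fun _ => false
  tw_symm := fun _ => rfl

private def HonEmb_T (L : AddSubgroup (ℤ × ℤ)) (u : ((ℤ × ℤ) ⧸ L) × Bool) (k : Fin 3) : (ℤ × ℤ) ⧸ L :=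
  if u.2 = true then u.1 + HonEmb_d L k + HonEmb_d L (k + 2) else u.1 + HonEmb_d L (k + 1)

private def HonEmb_F (L : AddSubgroup (ℤ × ℤ)) (u : ((ℤ × ℤ) ⧸ L) × Bool) (k : Fin 3) (o : Bool) : (ℤ × ℤ) ⧸ L :=
  if o = true then HonEmb_T L u k else HonEmb_T L (HonEmb_nx L u k) k

private lemma HonEmb_F1 (u : ((ℤ × ℤ) ⧸ L) × Bool) (k : Fin 3) :
    HonEmb_T L (HonEmb_nx L u k) (k + 1) = HonEmb_T L u k := by
  have h : ∀ k : Fin 3, k + 1 + 1 = k + 2 := by decide
  have h' : ∀ k : Fin 3, k + 1 + 2 = k := by decide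
  obtain ⟨p, a⟩ := u
  cases a with
  | true => simp [HonEmb_nx, HonEmb_T, h]
  | false =>
    simp only [HonEmb_nx, HonEmb_T, h', Bool.false_eq_true, if_false, if_true]
    abel

private lemma HonEmb_F2 (u : ((ℤ × ℤ) ⧸ L) × Bool) (k : Fin 3) :
    HonEmb_F L (HonEmb_nx L u k) (k + 2) false = HonEmb_F L u k false := by
  have h' : ∀ k : Fin 3, k + 2 + 1 = k := by decide
  have h := HonEmb_F1 (L := L) (HonEmb_nx L (HonEmb_nx L u k) (k + 2)) (k + 2)
  rw [HonEmb_nx2, h'] at h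
  exact h.symm

private lemma HonEmb_F3 (u : ((ℤ × ℤ) ⧸ L) × Bool) (k : Fin 3) (o : Bool) :
    HonEmb_F L (HonEmb_nx L u k) k (!o) = HonEmb_F L u k o := by
  cases o with
  | true =>
    show HonEmb_T L (HonEmb_nx L (HonEmb_nx L u k) k) k = HonEmb_T L u k
    rw [HonEmb_nx2]
  | false => rfl

private noncomputable def HonEmb_f (L : AddSubgroup (ℤ × ℤ)) (hd : Function.Injective (HonEmb_d L))
    (a : (Hon L).Dart × Bool) : (ℤ × ℤ) ⧸ L :=
  HonEmb_F L (HonEmb_ph L hd a.1).1 (HonEmb_ph L hd a.1).2 a.2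

private lemma HonEmb_next (a : (Hon L).Dart × Bool) :
    HonEmb_f L hd ((HonEmb_M L hd).next a) = HonEmb_f L hd a := by
  obtain ⟨d, o⟩ := a
  cases o with
  | true =>
    have e : (HonEmb_M L hd).next (d, true) = (HonEmb_rot L hd d.symm, true) := rfl
    rw [e]
    unfold HonEmb_f
    show HonEmb_F L (HonEmb_ph L hd (HonEmb_rot L hd d.symm)).1 (HonEmb_ph L hd (HonEmb_rot L hd d.symm)).2 true = _
    rw [HonEmb_rot_ph, HonEmb_symm_ph]
    exact HonEmb_F1 _ _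
  | false =>
    have e : (HonEmb_M L hd).next (d, false) = ((HonEmb_rot L hd).symm d.symm, false) := rfl
    rw [e]
    unfold HonEmb_f
    show HonEmb_F L (HonEmb_ph L hd ((HonEmb_rot L hd).symm d.symm)).1
      (HonEmb_ph L hd ((HonEmb_rot L hd).symm d.symm)).2 false = _
    rw [HonEmb_rotinv_ph, HonEmb_symm_ph]
    exact HonEmb_F2 _ _

private lemma HonEmb_back (a : (Hon L).Dart × Bool) :
    HonEmb_f L hd ((HonEmb_M L hd).back a) = HonEmb_f L hd a := by
  obtain ⟨d, o⟩ := a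
  have e : (HonEmb_M L hd).back (d, o) = (d.symm, !o) := by
    show (d.symm, !(xor o false)) = _
    rw [Bool.xor_false]
  rw [e]
  unfold HonEmb_f
  show HonEmb_F L (HonEmb_ph L hd d.symm).1 (HonEmb_ph L hd d.symm).2 (!o) = _
  rw [HonEmb_symm_ph]
  exact HonEmb_F3 _ _ _

private lemma HonEmb_surj (i : (ℤ × ℤ) ⧸ L) : ∃ a, HonEmb_f L hd a = i := by
  refine ⟨((HonEmb_ph L hd).symm ((i - HonEmb_d L 1, false), 0), true), ?_⟩
  unfold HonEmb_f
  rw [Equiv.apply_symm_apply]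
  show HonEmb_T L (i - HonEmb_d L 1, false) 0 = i
  unfold HonEmb_T
  rw [if_neg Bool.false_ne_true]
  simp

theorem hon_emb (L : AddSubgroup (ℤ × ℤ)) (hL : Finite ((ℤ × ℤ) ⧸ L)) (h1 : ((1, 0) : ℤ × ℤ) ∉ L) (h2 : ((0, 1) : ℤ × ℤ) ∉ L)
    (h3 : ((1, -1) : ℤ × ℤ) ∉ L) : ∃ M : Emb (Hon L), (∀ d, M.tw d = false) ∧
    Nat.card (Hon L).edgeSet ≤ Nat.card (((ℤ × ℤ) ⧸ L) × Bool) + Nat.card M.Face := by
  classical
  have hd := HonEmb_dinj L h1 h2 h3
  have hDart : Finite (Hon L).Dart := Finite.of_equiv _ (HonEmb_ph L hd).symm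
  have hFace : Finite (HonEmb_M L hd).Face := Quot.finite _
  let g : (HonEmb_M L hd).Face → (ℤ × ℤ) ⧸ L := Quot.lift (HonEmb_f L hd) (by
    rintro a b (h | h)
    · rw [← h, HonEmb_next]
    · rw [← h, HonEmb_back])
  have hg : Function.Surjective g := by
    intro i
    obtain ⟨a, ha⟩ := HonEmb_surj (hd := hd) i
    exact ⟨Quot.mk _ a, ha⟩
  have hcard := Nat.card_le_card_of_surjective g hg
  let κ : (Hon L).Coloring Bool := Coloring.mk (fun v => v.2) (by
    rintro u v (h | h)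
    · rw [h.1, h.2.1]; decide
    · rw [h.1, h.2.1]; decide)
  have hcub : ∀ v, ((Hon L).neighborSet v).ncard = 3 := by
    intro v
    have e1 : (Hon L).neighborSet v = Set.range (HonEmb_nx L v) := by
      ext w
      rw [SimpleGraph.mem_neighborSet, HonEmb_adj_iff, Set.mem_range]
      exact ⟨fun ⟨k, hk⟩ => ⟨k, hk.symm⟩, fun ⟨k, hk⟩ => ⟨k, hk.symm⟩⟩
    rw [e1, ← Set.image_univ, Set.ncard_image_of_injective _ (HonEmb_nxinj L hd v), Set.ncard_univ]
    simp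
  have h4 := edge_count κ hcub
  have h5 : Nat.card (((ℤ × ℤ) ⧸ L) × Bool) = Nat.card ((ℤ × ℤ) ⧸ L) * 2 := by
    rw [Nat.card_prod]
    simp
  exact ⟨HonEmb_M L hd, fun _ => rfl, by omega⟩

end Pool.Agent.PP
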