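import Pool.Agent.Lib_MP_7c0803_x.Cyc2

/-!
# [XT-P2] The circulant graphs are connected, cubic, bipartite, without 4-cycles

Transport along `hon14 : Nonempty (BGr (cyf 7 1 5) ≃g Hon (Lt (2, 1) (-7, 0)))`, `hon20`; for `BGr (cyf 7 1 5)`, `BGr (cyf 10 1 8)` (finite graphs on `ZMod N × Bool`)
by `decide` on suitable reformulations (neighbours of `(x, false)`: `(x, true), (x + a, true), (x + b, true)`; connected: a walk, or every vertex is
reachable from `(0, false)` since `(x, false) ~ (x + a, true) ~ (x + a, false)`).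
-/

set_option autoImplicit false

open Finset Function

namespace Pool.Agent.PP

open SimpleGraph

universe u

/-- connected, cubic, bipartite, no 4-cycle -/
structure CubFacts {W : Type u} (H : SimpleGraph W) : Prop where
  con : H.Connected
  cub : ∀ w, (H.neighborSet w).ncard = 3
  bip : H.Colorable 2
  four : ∀ a b c d, H.Adj a b → H.Adj b c → H.Adj c d → H.Adj d a → a = c ∨ b = d

theorem CubFacts.iso {W W' : Type u} {H : SimpleGraph W} {H' : SimpleGraph W'} (φ : H ≃g H') (h : CubFacts H) : CubFacts H' := by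
  refine ⟨φ.connected_iff.1 h.con, ?_, ?_, ?_⟩
  · intro w
    have he : H'.neighborSet w = φ '' (H.neighborSet (φ.symm w)) := by
      ext x
      constructor
      · intro hx
        refine ⟨φ.symm x, ?_, φ.apply_symm_apply x⟩
        show H.Adj (φ.symm w) (φ.symm x)
        exact φ.symm.map_adj_iff.2 hx
      · rintro ⟨y, hy, rfl⟩
        show H'.Adj w (φ y)
        have h1 : H'.Adj (φ (φ.symm w)) (φ y) := φ.map_adj_iff.2 hy
        rwa [φ.apply_symm_apply] at h1
    rw [he, Set.ncard_image_of_injective _ φ.injective]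
    exact h.cub _
  · exact h.bip.of_hom φ.symm.toHom
  · intro a b c d h1 h2 h3 h4
    have := h.four (φ.symm a) (φ.symm b) (φ.symm c) (φ.symm d) (φ.symm.map_adj_iff.2 h1)
      (φ.symm.map_adj_iff.2 h2) (φ.symm.map_adj_iff.2 h3) (φ.symm.map_adj_iff.2 h4)
    rcases this with h5 | h5
    · exact Or.inl (φ.symm.injective h5)
    · exact Or.inr (φ.symm.injective h5)

private lemma HonFacts_four {N : ℕ} {a b : ZMod N}
    (h4 : ∀ i j k l : Fin 3, dl a b i - dl a b j + dl a b k - dl a b l = 0 → i = j ∨ i = l)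
    {x y z w : ZMod N} {i j k l : Fin 3} (e1 : x + dl a b i = y) (e2 : z + dl a b j = y)
    (e3 : z + dl a b k = w) (e4 : x + dl a b l = w) : x = z ∨ y = w := by
  have h := h4 i j k l (by
    have h1 : x + dl a b i = z + dl a b j := e1.trans e2.symm
    have h2 : x + dl a b l = z + dl a b k := e4.trans e3.symm
    have h3 : dl a b i - dl a b j + dl a b k - dl a b l =
      (x + dl a b i) - (z + dl a b j) - ((x + dl a b l) - (z + dl a b k)) := by ring
    rw [h3, h1, h2]
    ring)
  rcases h with h | h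
  · left
    subst h
    exact add_right_cancel (e1.trans e2.symm)
  · right
    subst h
    exact e1.symm.trans e4

private lemma HonFacts_BGr (N : ℕ) (a b : ZMod N) (hinj : Function.Injective (dl a b))
    (hgen : ∀ x : ZMod N, ∃ n : ℕ, x = n • a)
    (h4 : ∀ i j k l : Fin 3, dl a b i - dl a b j + dl a b k - dl a b l = 0 → i = j ∨ i = l) :
    CubFacts (BGr (cyf N a b)) := by
  have hc : ∀ j x, cyf N a b j x = x + dl a b j := fun _ _ => rfl
  have adj : ∀ x y, (BGr (cyf N a b)).Adj x y ↔ ((x.2 = false ∧ y.2 = true ∧ ∃ j, x.1 + dl a b j = y.1) ∨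
      (y.2 = false ∧ x.2 = true ∧ ∃ j, y.1 + dl a b j = x.1)) := fun x y => Iff.rfl
  refine ⟨?_, ?_, ?_, ?_⟩
  · rw [connected_iff_exists_forall_reachable]
    refine ⟨(0, false), ?_⟩
    have step : ∀ x : ZMod N, (BGr (cyf N a b)).Reachable (x, false) (x + a, false) := by
      intro x
      have a1 : (BGr (cyf N a b)).Adj (x, false) (x + a, true) :=
        (adj _ _).2 (Or.inl ⟨rfl, rfl, 1, by simp⟩)
      have a2 : (BGr (cyf N a b)).Adj (x + a, true) (x + a, false) :=
        (adj _ _).2 (Or.inr ⟨rfl, rfl, 0, by simp⟩)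
      exact a1.reachable.trans a2.reachable
    have hn : ∀ n : ℕ, (BGr (cyf N a b)).Reachable (0, false) (n • a, false) := by
      intro n
      induction n with
      | zero => rw [zero_smul]
      | succ n ih =>
        rw [succ_nsmul]
        exact ih.trans (step _)
    have hf : ∀ x : ZMod N, (BGr (cyf N a b)).Reachable (0, false) (x, false) := by
      intro x
      obtain ⟨n, hx⟩ := hgen x
      rw [hx]
      exact hn n
    rintro ⟨x, t⟩
    cases t
    · exact hf x
    · have a1 : (BGr (cyf N a b)).Adj (x, false) (x, true) :=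
        (adj _ _).2 (Or.inl ⟨rfl, rfl, 0, by simp⟩)
      exact (hf x).trans a1.reachable
  · rintro ⟨x, t⟩
    cases t
    · have he : (BGr (cyf N a b)).neighborSet (x, false) =
          (fun j : Fin 3 => ((x + dl a b j, true) : ZMod N × Bool)) '' Set.univ := by
        ext ⟨y, s⟩
        constructor
        · intro h
          rcases (adj _ _).1 h with ⟨_, h2, j, h3⟩ | ⟨_, h2, _⟩
          · exact ⟨j, trivial, Prod.ext h3 h2.symm⟩
          · exact absurd h2 (by simp)
        · rintro ⟨j, _, h⟩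
          exact (adj _ _).2 (Or.inl ⟨rfl, (congrArg Prod.snd h).symm, j, congrArg Prod.fst h⟩)
      rw [he, Set.ncard_image_of_injective, Set.ncard_univ, Nat.card_eq_fintype_card, Fintype.card_fin]
      intro j k hjk
      exact hinj (add_left_cancel (congrArg Prod.fst hjk))
    · have he : (BGr (cyf N a b)).neighborSet (x, true) =
          (fun j : Fin 3 => ((x - dl a b j, false) : ZMod N × Bool)) '' Set.univ := by
        ext ⟨y, s⟩
        constructor
        · intro h
          rcases (adj _ _).1 h with ⟨h2, _⟩ | ⟨h2, _, j, h3⟩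
          · exact absurd h2 (by simp)
          · exact ⟨j, trivial, Prod.ext (sub_eq_of_eq_add h3.symm) h2.symm⟩
        · rintro ⟨j, _, h⟩
          exact (adj _ _).2 (Or.inr ⟨(congrArg Prod.snd h).symm, rfl, j,
            (eq_sub_iff_add_eq.1 (congrArg Prod.fst h).symm)⟩)
      rw [he, Set.ncard_image_of_injective, Set.ncard_univ, Nat.card_eq_fintype_card, Fintype.card_fin]
      intro j k hjk
      exact hinj (sub_right_injective (congrArg Prod.fst hjk))
  · have h := (Coloring.mk (G := BGr (cyf N a b)) (fun p : ZMod N × Bool => p.2) (by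
      intro p q hpq
      rcases (adj _ _).1 hpq with ⟨h1, h2, _⟩ | ⟨h1, h2, _⟩
      · rw [h1, h2]; decide
      · rw [h1, h2]; decide)).colorable
    simpa using h
  · rintro ⟨x, s⟩ ⟨y, t⟩ ⟨z, r⟩ ⟨w, p⟩ h1 h2 h3 h4'
    rcases (adj _ _).1 h1 with ⟨hs, ht, i, e1⟩ | ⟨ht, hs, i, e1⟩
    · rcases (adj _ _).1 h2 with ⟨ht', _⟩ | ⟨hr, _, j, e2⟩
      · rw [ht] at ht'; exact absurd ht' (by decide)
      rcases (adj _ _).1 h3 with ⟨_, hp, k, e3⟩ | ⟨_, hr', _⟩
      swap
      · rw [hr] at hr'; exact absurd hr' (by decide)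
      rcases (adj _ _).1 h4' with ⟨hp', _⟩ | ⟨_, _, l, e4⟩
      · rw [hp] at hp'; exact absurd hp' (by decide)
      rcases HonFacts_four h4 e1 e2 e3 e4 with h | h
      · exact Or.inl (Prod.ext h (hs.trans hr.symm))
      · exact Or.inr (Prod.ext h (ht.trans hp.symm))
    · rcases (adj _ _).1 h2 with ⟨_, hr, j, e2⟩ | ⟨_, ht', _⟩
      swap
      · rw [ht] at ht'; exact absurd ht' (by decide)
      rcases (adj _ _).1 h3 with ⟨hr', _⟩ | ⟨hp, _, k, e3⟩
      · rw [hr] at hr'; exact absurd hr' (by decide)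
      rcases (adj _ _).1 h4' with ⟨_, _, l, e4⟩ | ⟨_, hp', _⟩
      swap
      · rw [hp] at hp'; exact absurd hp' (by decide)
      rcases HonFacts_four h4 e2 e3 e4 e1 with h | h
      · exact Or.inr (Prod.ext h (ht.trans hp.symm))
      · exact Or.inl (Prod.ext h.symm (hs.trans hr.symm))

theorem facts14 : CubFacts (Hon (Lt (2, 1) (-7, 0))) := by
  obtain ⟨φ⟩ := hon14
  refine CubFacts.iso φ (HonFacts_BGr 7 1 5 ?_ ?_ ?_)
  · decide
  · intro x
    exact ⟨x.val, by simp⟩
  · decide

theorem facts20 : CubFacts (Hon (Lt (2, 1) (-10, 0))) := by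
  obtain ⟨φ⟩ := hon20
  refine CubFacts.iso φ (HonFacts_BGr 10 1 8 ?_ ?_ ?_)
  · decide
  · intro x
    exact ⟨x.val, by simp⟩
  · decide

end Pool.Agent.PP
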