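import Pool.Agent.Lib_MP_7c0803_x.HonFacts
import Pool.Agent.Lib_MP_7c0803_tor.KEmb
import Pool.Agent.Lib_MP_7c0803_tor.Fam

/-!
# [XT-P3] The graph with 18 vertices; the two lattices

`klein_facts` in `Lib_MP_7c0803_tor` gives connected, bipartite, cubic; the 4-cycles by `decide` (neighbours of `(p, false)`: `(kf 2 2 0 j p, true)`).
`finite14`, `finite20`: `mem_Lt'`; finiteness e.g. by `mem_21`, `uiso_cyc` (`Lib_MP_7c0803_tor`), a surjection from `Fin 7`, or the isomorphism with `ZMod 7` used in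
`Cyc2.lean`.
-/

set_option autoImplicit false

open Finset Function

namespace Pool.Agent.PP

open SimpleGraph

universe u

private lemma HF2_nb (p : Fin 3 × Fin 3) (y : (Fin 3 × Fin 3) × Bool) :
    kleinGraph.Adj (p, false) y ↔ ∃ j, y = (kf 2 2 0 j p, true) := by
  constructor
  · rintro (⟨-, h2, j, hj⟩ | ⟨-, h2, -⟩)
    · exact ⟨j, Prod.ext hj.symm h2⟩
    · exact Bool.noConfusion h2
  · rintro ⟨j, rfl⟩
    exact Or.inl ⟨rfl, rfl, j, rfl⟩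

private lemma HF2_four_aux : ∀ (a c : Fin 3 × Fin 3) (i j k l : Fin 3), kf 2 2 0 i a = kf 2 2 0 j c →
    kf 2 2 0 k c = kf 2 2 0 l a → a = c ∨ kf 2 2 0 i a = kf 2 2 0 k c := by
  decide +kernel

private lemma HF2_snd {x y : (Fin 3 × Fin 3) × Bool} (h : kleinGraph.Adj x y) : y.2 = !x.2 := by
  rcases h with ⟨h1, h2, -⟩ | ⟨h1, h2, -⟩
  · rw [h1, h2]; rfl
  · rw [h1, h2]; rfl

private lemma HF2_four_f {a b c d : (Fin 3 × Fin 3) × Bool} (ha : a.2 = false) (h1 : kleinGraph.Adj a b)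
    (h2 : kleinGraph.Adj b c) (h3 : kleinGraph.Adj c d) (h4 : kleinGraph.Adj d a) : a = c ∨ b = d := by
  obtain ⟨p, ba⟩ := a
  have hb : b.2 = !ba := HF2_snd h1
  have hc : c.2 = !b.2 := HF2_snd h2
  obtain ⟨q, bc⟩ := c
  simp only at ha hb hc
  rw [hb, Bool.not_not, ha] at hc
  subst ha
  subst hc
  obtain ⟨i, rfl⟩ := (HF2_nb p b).1 h1
  obtain ⟨l, rfl⟩ := (HF2_nb p d).1 h4.symm
  obtain ⟨j, hj⟩ := (HF2_nb q _).1 h2.symm
  obtain ⟨k, hk⟩ := (HF2_nb q _).1 h3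
  have e1 := congrArg Prod.fst hj
  have e2 := congrArg Prod.fst hk
  simp only at e1 e2
  rcases HF2_four_aux p q i j k l e1 e2.symm with h | h
  · left; rw [h]
  · right; rw [h, ← e2]

theorem facts18 : CubFacts kleinGraph := by
  obtain ⟨h1, h2, h3, -, -⟩ := klein_facts
  refine ⟨h1, h3, h2, ?_⟩
  intro a b c d hab hbc hcd hda
  cases ha : a.2 with
  | false => exact HF2_four_f ha hab hbc hcd hda
  | true =>
    have hb : b.2 = false := by rw [HF2_snd hab, ha]; rfl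
    rcases HF2_four_f hb hbc hcd hda hab with h | h
    · exact Or.inr h
    · exact Or.inl h.symm

private lemma HF2_fin (n : ℕ) [NeZero n] (L : AddSubgroup (ℤ × ℤ)) (hL : ∀ x : ℤ × ℤ, x ∈ L ↔ (n : ℤ) ∣ 1 * x.1 + (-2) * x.2) :
    Finite ((ℤ × ℤ) ⧸ L) := by
  let φ : ℤ × ℤ →+ ZMod n :=
    { toFun := fun x => ((1 * x.1 + (-2) * x.2 : ℤ) : ZMod n)
      map_zero' := by simp
      map_add' := by intro x y; simp only [Prod.fst_add, Prod.snd_add]; push_cast; ring }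
  have h : L = φ.ker := by
    ext x
    rw [hL, AddMonoidHom.mem_ker]
    exact (ZMod.intCast_zmod_eq_zero_iff_dvd _ n).symm
  rw [h]
  exact Finite.of_injective (QuotientAddGroup.kerLift φ) (QuotientAddGroup.kerLift_injective φ)

theorem finite14 : Finite ((ℤ × ℤ) ⧸ Lt (2, 1) (-7, 0)) ∧ ((1, 0) : ℤ × ℤ) ∉ Lt (2, 1) (-7, 0) ∧ ((0, 1) : ℤ × ℤ) ∉ Lt (2, 1) (-7, 0) ∧
    ((1, -1) : ℤ × ℤ) ∉ Lt (2, 1) (-7, 0) := by
  refine ⟨HF2_fin 7 _ (fun x => mem_21 7 x), ?_, ?_, ?_⟩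
  · rw [mem_21 7]; norm_num
  · rw [mem_21 7]; norm_num
  · rw [mem_21 7]; norm_num

theorem finite20 : Finite ((ℤ × ℤ) ⧸ Lt (2, 1) (-10, 0)) ∧ ((1, 0) : ℤ × ℤ) ∉ Lt (2, 1) (-10, 0) ∧ ((0, 1) : ℤ × ℤ) ∉ Lt (2, 1) (-10, 0) ∧
    ((1, -1) : ℤ × ℤ) ∉ Lt (2, 1) (-10, 0) := by
  refine ⟨HF2_fin 10 _ (fun x => mem_21 10 x), ?_, ?_, ?_⟩
  · rw [mem_21 10]; norm_num
  · rw [mem_21 10]; norm_num
  · rw [mem_21 10]; norm_num

end Pool.Agent.PP
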