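import Pool.Agent.Lib_MP_7c0803_x.Glue1
import Pool.Agent.Lib_MP_7c0803_x.Glue2

/-!
# [X-H] Two colourings of different parity

`not_PC`: `φ`, `φ'` from `Both`; `c0` a proper colouring (`exists_P`); `c1` from `S.R j`, `c2` from `S.symm.R k` with the colours `0`, `1` exchanged
(`c2 (S.ex z) = cl z`, `c2 (S.i (ie f y l)) = pat k (cl y.2) l`).  For `w ≠ x, y` let `σ w`, `σ' w` be the permutations of `loc_perm` with
`σ w (c0 (S.i (ie f w l))) = φ (ie f w l)`, `σ' w (..) = φ' (ie f w l)` (the edges with exactly one end in the fibre of `w` are the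
three edges `S.i (ie f w l)`, by `S.hin`, `S.hx`, `S.hy`).  `L w = c1` for `w = x`, `c2` for `w = y`, `σ w ∘ c0` else, `L'` with `σ'`.
`L (p false e) e = L (p true e) e`: by `S.hin` (for `e = S.i q` both are `φ q`, for `e = S.ex z` both are `cl z`).  `glue_P` gives two proper
colourings, `glue_par` (`D w = (w ≠ x ∧ w ≠ y)`, `ε w = sg (φ (ie f w 1) - φ (ie f w 0)) + sg (φ' (ie f w 1) - φ' (ie f w 0))`, `perm_eps`)
and `cpar f x y φ ≠ cpar f x y φ'` give `par ≠ par'`.
-/

set_option autoImplicit false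

open Finset Function

namespace Pool.Agent.PP

universe u v

variable {E : Type u} {A : Type v} {B : CB E} {f : Fin 3 → Equiv.Perm A} {x y : A × Bool}

lemma NPC_swap_cl : ∀ z : Bool, Equiv.swap (0 : Fin 3) 1 (cl z) = cl (!z) := by decide

lemma NPC_swap_pat : ∀ (k : Fin 3) (z : Bool) (l : Fin 3),
    Equiv.swap (0 : Fin 3) 1 (pat k (cl (!z)) l) = pat k (cl z) l := by decide

lemma NPC_inj (S : Star B f x y) (hf : Smp f) (w : A × Bool) : Injective (fun l => S.i (ie f w l)) := by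
  intro k l h
  have h1 : ie f w k = ie f w l := hf.en_inj (fun z => by rw [← S.hi z, ← S.hi z]; exact congrArg (S.p z) h)
  have := congrArg Prod.snd h1
  simpa using this

lemma NPC_bd (S : Star B f x y) {w : A × Bool} (hwx : w ≠ x) (hwy : w ≠ y) (e : E) :
    ¬ (S.p false e = w ↔ S.p true e = w) ↔ ∃ k, S.i (ie f w k) = e := by
  constructor
  · intro h
    rcases S.hin e with h1 | ⟨q, rfl⟩ | ⟨z, rfl⟩
    · exact absurd (by rw [h1]) h
    · refine ⟨q.2, ?_⟩
      have h2 : en f q false = w ∨ en f q true = w := by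
        by_contra h3
        push Not at h3
        apply h
        rw [S.hi, S.hi]
        exact iff_of_false h3.1 h3.2
      rcases h2 with h2 | h2
      · rw [← (en_eq f h2).2]
      · rw [← (en_eq f h2).2]
    · exfalso
      have h1 := S.hx z
      have h2 := S.hy z
      apply h
      cases z
      · rw [h1]
        rw [Bool.not_false] at h2
        rw [h2]
        exact iff_of_false (Ne.symm hwx) (Ne.symm hwy)
      · rw [h1]
        rw [Bool.not_true] at h2
        rw [h2]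
        exact iff_of_false (Ne.symm hwy) (Ne.symm hwx)
  · rintro ⟨k, rfl⟩ h
    rw [S.hi, S.hi] at h
    have h1 := en_ie f w k
    have h2 := en_ie' f w k
    have h3 := nb_ne f w k
    rw [← h2] at h3
    revert h1 h3
    generalize w.2 = z
    cases z <;> intro h1 h3 <;> simp_all

/-- the local colourings -/
lemma NPC_loc [Finite E] (hf : Smp f) (S : Star B f x y) {j k : Fin 3} (c0 c1 c2 : E → Fin 3) (h0 : B.P c0)
    (h1i : ∀ l, c1 (S.i (ie f x l)) = pat j (cl (!x.2)) l) (h2i : ∀ l, c2 (S.i (ie f y l)) = pat k (cl y.2) l)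
    (φ : A × Fin 3 → Fin 3) (hφ : Cok f x j y k φ) :
    ∃ L : A × Bool → E → Fin 3, L x = c1 ∧ L y = c2 ∧
      (∀ w, w ≠ x → w ≠ y → ∃ σ : Equiv.Perm (Fin 3), ∀ e, L w e = σ (c0 e)) ∧
      ∀ w l, L w (S.i (ie f w l)) = φ (ie f w l) := by
  classical
  have hr := (B.P_r c0).1 h0
  have hσ : ∀ w : A × Bool, ∃ σ : Equiv.Perm (Fin 3), w ≠ x → w ≠ y → ∀ l, σ (c0 (S.i (ie f w l))) = φ (ie f w l) := by
    intro w
    by_cases hw : w ≠ x ∧ w ≠ y
    · obtain ⟨σ, hσ⟩ := loc_perm B S.p S.hp w (fun l => S.i (ie f w l)) (NPC_inj S hf w)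
        (fun e => NPC_bd S hw.1 hw.2 e) c0 (fun z e _ => hr z e) (fun l => φ (ie f w l)) (hφ.1 w hw.1 hw.2)
      exact ⟨σ, fun _ _ => hσ⟩
    · exact ⟨1, fun h h' => absurd ⟨h, h'⟩ hw⟩
  choose σ hσ using hσ
  have hyx : y ≠ x := S.hxy.symm
  refine ⟨fun w => if w = x then c1 else if w = y then c2 else fun e => σ w (c0 e), ?_, ?_, ?_, ?_⟩
  · simp
  · simp [hyx]
  · intro w hwx hwy
    refine ⟨σ w, fun e => ?_⟩
    simp [hwx, hwy]
  · intro w l
    by_cases hwx : w = x
    · subst hwx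
      simp only [if_true]
      rw [h1i, hφ.2.1]
    · by_cases hwy : w = y
      · subst hwy
        simp only [if_true, if_neg hwx]
        rw [h2i, hφ.2.2]
      · simp only [if_neg hwx, if_neg hwy]
        exact hσ w hwx hwy l

theorem Star.not_PC [Fintype E] [Fintype A] [DecidableEq A] (hf : Smp f) (S : Star B f x y) {j k : Fin 3}
    (hb : Both f x j y k) (h1 : S.R j) (h2 : S.symm.R k) : ¬ B.PC := by
  intro hPC
  obtain ⟨φ, φ', hφ, hφ', hne⟩ := hb
  obtain ⟨c0, h0⟩ := exists_P B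
  have hr := (B.P_r c0).1 h0
  obtain ⟨c1, h1r, h1x, h1i⟩ := h1
  obtain ⟨c2', h2r', h2x', h2i'⟩ := h2
  obtain ⟨c2, hc2⟩ : ∃ c2 : E → Fin 3, ∀ e, c2 e = Equiv.swap (0 : Fin 3) 1 (c2' e) := ⟨_, fun _ => rfl⟩
  have h2r : ∀ z e, S.p z e = y → c2 (B.r z e) ≠ c2 e := by
    intro z e h h'
    rw [hc2, hc2] at h'
    exact h2r' z e h ((Equiv.swap (0 : Fin 3) 1).injective h')
  have h2x : ∀ z, c2 (S.ex z) = cl z := by
    intro z
    have h : c2' (S.ex (!(!z))) = cl (!z) := h2x' (!z)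
    rw [Bool.not_not] at h
    rw [hc2, h, NPC_swap_cl, Bool.not_not]
  have h2i : ∀ l, c2 (S.i (ie f y l)) = pat k (cl y.2) l := by
    intro l
    have h : c2' (S.i (ie f y l)) = pat k (cl (!y.2)) l := h2i' l
    rw [hc2, h, NPC_swap_pat]
  obtain ⟨L, hLx, hLy, hLσ, hLi⟩ := NPC_loc hf S c0 c1 c2 h0 h1i h2i φ hφ
  obtain ⟨L', hLx', hLy', hLσ', hLi'⟩ := NPC_loc hf S c0 c1 c2 h0 h1i h2i φ' hφ'
  have key : ∀ (M : A × Bool → E → Fin 3) (ψ : A × Fin 3 → Fin 3), M x = c1 → M y = c2 →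
      (∀ w, w ≠ x → w ≠ y → ∃ σ : Equiv.Perm (Fin 3), ∀ e, M w e = σ (c0 e)) →
      (∀ w l, M w (S.i (ie f w l)) = ψ (ie f w l)) →
      (∀ z e, M (S.p z e) (B.r z e) ≠ M (S.p z e) e) ∧ ∀ e, M (S.p false e) e = M (S.p true e) e := by
    intro M ψ hMx hMy hMσ hMi
    constructor
    · intro z e
      by_cases hx : S.p z e = x
      · rw [hx, hMx]
        exact h1r z e hx
      · by_cases hy : S.p z e = y
        · rw [hy, hMy]
          exact h2r z e hy
        · obtain ⟨σ, hσ⟩ := hMσ _ hx hy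
          rw [hσ, hσ]
          intro h
          exact hr z e (σ.injective h)
    · intro e
      rcases S.hin e with h | ⟨q, rfl⟩ | ⟨z, rfl⟩
      · rw [h]
      · have h : ∀ z, M (S.p z (S.i q)) (S.i q) = ψ q := by
          intro z
          rw [S.hi]
          have h3 := hMi (en f q z) q.2
          rwa [ie_en] at h3
        rw [h, h]
      · have h3 := S.hx z
        have h4 := S.hy z
        have h5 : M (S.p z (S.ex z)) (S.ex z) = cl z := by rw [h3, hMx, h1x]
        have h6 : M (S.p (!z) (S.ex z)) (S.ex z) = cl z := by rw [h4, hMy, h2x]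
        cases z
        · rw [Bool.not_false] at h6
          rw [h5, h6]
        · rw [Bool.not_true] at h6
          rw [h5, h6]
  obtain ⟨hL, hc⟩ := key L φ hLx hLy hLσ hLi
  obtain ⟨hL', hc'⟩ := key L' φ' hLx' hLy' hLσ' hLi'
  have hP := glue_P B S.p S.hp L hL hc
  have hP' := glue_P B S.p S.hp L' hL' hc'
  have hpar := glue_par B S.p S.hp L L' hc hc' (fun w => w ≠ x ∧ w ≠ y)
    (by
      intro w hw
      by_cases hwx : w = x
      · rw [hwx, hLx, hLx']
      · by_cases hwy : w = y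
        · rw [hwy, hLy, hLy']
        · exact absurd ⟨hwx, hwy⟩ hw)
    (fun w => sg (φ (ie f w 1) - φ (ie f w 0)) + sg (φ' (ie f w 1) - φ' (ie f w 0)))
    (by
      intro z e hw
      obtain ⟨σ, hσ⟩ := hLσ _ hw.1 hw.2
      obtain ⟨σ', hσ'⟩ := hLσ' _ hw.1 hw.2
      show sg (L (S.p z e) (B.r z e) - L (S.p z e) e) + sg (L' (S.p z e) (B.r z e) - L' (S.p z e) e) =
        sg (φ (ie f (S.p z e) 1) - φ (ie f (S.p z e) 0)) + sg (φ' (ie f (S.p z e) 1) - φ' (ie f (S.p z e) 0))
      rw [← hLi, ← hLi, ← hLi', ← hLi', hσ, hσ, hσ, hσ, hσ', hσ', hσ', hσ']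
      refine perm_eps σ σ' _ _ _ _ (hr z e) ?_
      intro h
      have h3 : L (S.p z e) (S.i (ie f (S.p z e) 1)) = L (S.p z e) (S.i (ie f (S.p z e) 0)) := by
        rw [hσ, hσ, h]
      rw [hLi, hLi] at h3
      have h4 := hφ.1 _ hw.1 hw.2 h3
      exact absurd h4 (by decide))
    (by
      intro w hw
      have h3 : {e | ¬ (S.p false e = w ↔ S.p true e = w)} = (fun l => S.i (ie f w l)) '' Set.univ := by
        ext e
        rw [Set.image_univ]
        exact NPC_bd S hw.1 hw.2 e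
      rw [h3, Set.ncard_image_of_injective _ (NPC_inj S hf w), Set.ncard_univ, Nat.card_eq_fintype_card, Fintype.card_fin]
      decide)
  rw [hPC _ _ hP hP'] at hpar
  rw [Finset.sum_add_distrib] at hpar
  have h5 : ∀ a b c : ZMod 2, a + a = b + c → b = c := by decide
  exact hne (h5 _ _ _ hpar)

end Pool.Agent.PP
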