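import Pool.Agent.Lib_MP_7c0803_x.Cnt1

/-!
# [X-E3] Moving the fibre

`v : S.V j`, `z = x.2`.

[X-E3] `relabel` (`v.r` inside, `nb f x j ≠ y`): `p' z e = nb f x j` if `p z e = x` and `¬ v.Z z e`, else `p z e`; `i'` as in `contrI`; `ex`, `m`, `m'` are
the same.  The obstruction for the new `Star` at `nb f x j`: `Z' z e ↔ S.p z e = nb f x j`, `r' = S.T j`.  The fibre of `y` does not change:
`p' z e = y ↔ p z e = y`, and `ie f y k ≠ ie f x j`.
-/

set_option autoImplicit false

open Finset Function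

namespace Pool.Agent.PP

universe u v

variable {E : Type u} {A : Type v} {B : CB E} {f : Fin 3 → Equiv.Perm A} {x y : A × Bool}

open Classical in
/-- the changed projection -/
noncomputable def Star.V.pn {S : Star B f x y} {j : Fin 3} (v : S.V j) (z : Bool) (e : E) : A × Bool :=
  if S.p z e = x ∧ ¬ v.Z z e then nb f x j else S.p z e

open Classical in
/-- the changed edges -/
noncomputable def Star.V.jn {S : Star B f x y} {j : Fin 3} (v : S.V j) (q : A × Fin 3) : E :=
  if q = ie f x j then v.r else S.i q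

section
variable {S : Star B f x y} {j : Fin 3} (v : S.V j)

lemma Star.V.pn_n {z : Bool} {e : E} (h : S.p z e = x) (h' : ¬ v.Z z e) : v.pn z e = nb f x j := by
  unfold Star.V.pn
  rw [if_pos ⟨h, h'⟩]

lemma Star.V.pn_Z {z : Bool} {e : E} (h : v.Z z e) : v.pn z e = S.p z e := by
  unfold Star.V.pn
  rw [if_neg (fun h1 => h1.2 h)]

lemma Star.V.pn_ne {z : Bool} {e : E} (h : S.p z e ≠ x) : v.pn z e = S.p z e := by
  unfold Star.V.pn
  rw [if_neg (fun h1 => h h1.1)]

lemma Star.V.pn_r (z : Bool) (e : E) : v.pn z (B.r z e) = v.pn z e := by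
  unfold Star.V.pn
  rw [S.hp, v.hZ]

lemma Star.V.jn_r : v.jn (ie f x j) = v.r := by
  unfold Star.V.jn
  rw [if_pos rfl]

lemma Star.V.jn_ne {q : A × Fin 3} (h : q ≠ ie f x j) : v.jn q = S.i q := by
  unfold Star.V.jn
  rw [if_neg h]

lemma Star.V.Z_Tn {k : Fin 3} (hk : k ≠ j) : v.Z x.2 (S.T k) :=
  ((v.hbd (S.T k)).2 (Or.inl ⟨k, hk, rfl⟩)).1

/-- an edge with both ends in a fibre of `S` has both ends in one fibre of `pn`, or it is `v.r` -/
lemma Star.V.pn_in {e : E} (h : S.p false e = S.p true e) : v.pn false e = v.pn true e ∨ e = v.r := by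
  by_cases hx : S.p false e = x
  · have hx' : S.p true e = x := h.symm.trans hx
    have hz : ∀ z, S.p z e = x := by
      intro z
      cases z
      · exact hx
      · exact hx'
    by_cases hr : e = v.r
    · exact Or.inr hr
    · left
      have key : v.Z x.2 e → v.Z (!x.2) e := by
        intro h1
        by_contra h2
        rcases (v.hbd e).1 ⟨h1, h2⟩ with ⟨k, -, h3⟩ | h3
        · exact S.T_ne k (by rw [S.T_def, h3]; exact hz _)
        · exact hr h3
      have iff1 : v.Z x.2 e ↔ v.Z (!x.2) e := ⟨key, v.hb e⟩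
      have iff2 : v.Z false e ↔ v.Z true e := by
        revert iff1
        generalize x.2 = z
        cases z
        · exact fun h => h
        · exact fun h => h.symm
      by_cases h1 : v.Z false e
      · rw [v.pn_Z h1, v.pn_Z (iff2.1 h1), h]
      · rw [v.pn_n hx h1, v.pn_n hx' (fun h2 => h1 (iff2.2 h2))]
  · left
    rw [v.pn_ne hx, v.pn_ne (fun h1 => hx (h.trans h1)), h]

/-- the `j`-th edge at `x` does not leave the set -/
lemma Star.V.not_Z_T (hf : Smp f) (h : ∀ z, S.p z v.r = x) : ¬ v.Z x.2 (S.T j) := by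
  intro h2
  have h3 : ¬ v.Z (!x.2) (S.T j) := fun h4 => S.T_ne j (v.hZx _ _ h4)
  rcases (v.hbd (S.T j)).1 ⟨h2, h3⟩ with ⟨k, hk, h4⟩ | h4
  · exact hk (S.T_inj hf h4)
  · exact S.T_ne j (by rw [h4]; exact h _)

lemma Star.V.pn_T (hf : Smp f) (h : ∀ z, S.p z v.r = x) (z : Bool) : v.pn z (S.T j) = nb f x j := by
  by_cases hz : z = x.2
  · subst hz
    exact v.pn_n (S.T_p j) (v.not_Z_T hf h)
  · have hz' : z = !x.2 := by
      revert hz
      generalize x.2 = w
      cases z <;> cases w <;> simp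
    subst hz'
    rw [v.pn_ne (S.T_ne j), S.T_p']

/-- the fibre of `y` is the same -/
lemma Star.V.pn_y (hy : nb f x j ≠ y) (z : Bool) (e : E) : v.pn z e = y ↔ S.p z e = y := by
  by_cases h1 : S.p z e = x ∧ ¬ v.Z z e
  · rw [v.pn_n h1.1 h1.2, h1.1]
    exact iff_of_false hy S.hxy
  · unfold Star.V.pn
    rw [if_neg h1]

lemma Star.ie_y (S : Star B f x y) (hy : nb f x j ≠ y) (l : Fin 3) : ie f y l ≠ ie f x j := by
  intro h
  have h1 := en_ie f y l
  rw [h] at h1
  by_cases hz : y.2 = x.2
  · rw [hz, en_ie] at h1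
    exact S.hxy h1
  · have hz' : y.2 = !x.2 := by
      revert hz
      generalize x.2 = w
      generalize y.2 = z
      cases z <;> cases w <;> simp
    rw [hz', en_ie'] at h1
    exact hy h1

lemma Star.V.jn_y (hy : nb f x j ≠ y) (l : Fin 3) : v.jn (ie f y l) = S.i (ie f y l) :=
  v.jn_ne (S.ie_y hy l)

/-- the new `Star` -/
noncomputable def Star.V.st (hf : Smp f) (h : ∀ z, S.p z v.r = x) (hy : nb f x j ≠ y) : Star B f (nb f x j) y where
  p := v.pn
  hp := v.pn_r
  i := v.jn
  hi z q := by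
    have hZr := (v.hbd v.r).2 (Or.inr rfl)
    by_cases hq : q = ie f x j
    · subst hq
      rw [v.jn_r]
      by_cases hz : z = x.2
      · subst hz
        rw [v.pn_Z hZr.1, h, en_ie]
      · have hz' : z = !x.2 := by
          revert hz
          generalize x.2 = w
          cases z <;> cases w <;> simp
        subst hz'
        rw [v.pn_n (h _) hZr.2, en_ie']
    · rw [v.jn_ne hq]
      by_cases h1 : S.p z (S.i q) = x
      · obtain ⟨h2, h3⟩ := S.i_p h1
        have hj : q.2 ≠ j := by
          intro h4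
          apply hq
          rw [h3, ← h4]
        have h4 : v.Z z (S.i q) := by
          rw [h3, h2]
          exact v.Z_Tn hj
        rw [v.pn_Z h4, S.hi]
      · rw [v.pn_ne h1, S.hi]
  ex := S.ex
  hx z := v.pn_n (S.hx z) (v.hex z z)
  hy z := by rw [v.pn_ne (by rw [S.hy]; exact S.hxy.symm), S.hy]
  hne z q := by
    by_cases hq : q = ie f x j
    · subst hq
      rw [v.jn_r]
      intro h1
      have h2 := h (!z)
      rw [h1, S.hy] at h2
      exact S.hxy h2.symm
    · rw [v.jn_ne hq]
      exact S.hne z q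
  hin e := by
    rcases S.hin e with h1 | ⟨q, h1⟩ | h1
    · rcases v.pn_in h1 with h2 | h2
      · exact Or.inl h2
      · exact Or.inr (Or.inl ⟨ie f x j, by rw [v.jn_r, h2]⟩)
    · by_cases hq : q = ie f x j
      · left
        have he : S.T j = e := by rw [S.T_def, ← hq, h1]
        subst he
        rw [v.pn_T hf h, v.pn_T hf h]
      · exact Or.inr (Or.inl ⟨q, by rw [v.jn_ne hq, h1]⟩)
    · exact Or.inr (Or.inr h1)
  m := S.m
  hm := S.hm
  m' := S.m'
  hm' := S.hm'
  hxy := hy

/-- an edge of `S` with an end in the fibre of `nb f x j` -/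
lemma Star.nb_cls (S : Star B f x y) (hy : nb f x j ≠ y) {z : Bool} {e : E} (h : S.p z e = nb f x j) :
    S.p false e = S.p true e ∨ (z = !x.2 ∧ ∃ k, S.i (ie f (nb f x j) k) = e) := by
  rcases S.hin e with h1 | ⟨q, rfl⟩ | ⟨z', rfl⟩
  · exact Or.inl h1
  · right
    rw [S.hi] at h
    obtain ⟨h2, h3⟩ := en_eq f h
    exact ⟨h2, q.2, by rw [← h3]⟩
  · exfalso
    by_cases hz : z = z'
    · subst hz
      rw [S.hx] at h
      exact nb_ne f x j h.symm
    · have hz' : z = !z' := by
        revert hz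
        cases z <;> cases z' <;> simp
      subst hz'
      rw [S.hy] at h
      exact hy h.symm

/-- the obstruction at the new place -/
def Star.V.ob (hf : Smp f) (h : ∀ z, S.p z v.r = x) (hy : nb f x j ≠ y) : (v.st hf h hy).V j where
  Z z e := S.p z e = nb f x j
  r := S.T j
  hZ z e := by rw [S.hp]
  hZx z e h1 := by
    show v.pn z e = nb f x j
    rw [v.pn_ne (by rw [h1]; exact nb_ne f x j), h1]
  hex z z' := by
    show ¬ S.p z (S.ex z') = nb f x j
    intro h1
    rcases S.nb_cls hy h1 with h2 | ⟨-, k, h2⟩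
    · have h3 := S.hx z'
      have h4 := S.hy z'
      have h5 := S.hxy
      revert h3 h4
      cases z' <;> intro h3 h4 <;> simp_all
    · exact S.hne _ _ h2
  hb e h1 := by
    have h1' : S.p x.2 e = nb f x j := by
      have := h1
      simp only [nb_snd, Bool.not_not] at this
      exact this
    show S.p (!x.2) e = nb f x j
    rcases S.nb_cls hy h1' with h2 | ⟨h2, -⟩
    · revert h1'
      generalize x.2 = w
      cases w <;> simp [h2]
    · exact absurd h2 (by simp)
  hbd e := by
    show (S.p (!x.2) e = nb f x j ∧ ¬ S.p (!!x.2) e = nb f x j) ↔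
      ((∃ k, k ≠ j ∧ v.jn (ie f (nb f x j) k) = e) ∨ e = S.T j)
    rw [Bool.not_not]
    constructor
    · rintro ⟨h1, h2⟩
      rcases S.nb_cls hy h1 with h3 | ⟨-, k, h3⟩
      · exfalso
        apply h2
        revert h1
        generalize x.2 = w
        cases w <;> simp [h3]
      · by_cases hk : k = j
        · right
          rw [S.T_def, ← ie_nb, ← h3, hk]
        · left
          refine ⟨k, hk, ?_⟩
          rw [v.jn_ne, h3]
          intro h4
          exact hk (by simpa using congrArg Prod.snd h4)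
    · rintro (⟨k, hk, h1⟩ | h1)
      · rw [v.jn_ne (fun h4 => hk (by simpa using congrArg Prod.snd h4))] at h1
        subst h1
        rw [S.hi, S.hi]
        have h5 := en_ie f (nb f x j) k
        have h6 := en_ie' f (nb f x j) k
        simp only [nb_snd, Bool.not_not] at h5 h6
        rw [h5, h6]
        exact ⟨rfl, nb_ne f _ k⟩
      · subst h1
        rw [S.T_p, S.T_p']
        exact ⟨rfl, fun h2 => nb_ne f x j h2.symm⟩
  hr := Or.inr fun z => v.pn_T hf h z

end

theorem Star.relabel (hf : Smp f) (S : Star B f x y) {j : Fin 3} (v : S.V j) (h : ∀ z, S.p z v.r = x) (hy : nb f x j ≠ y) :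
    ∃ S' : Star B f (nb f x j) y, Nonempty (S'.V j) ∧ (∀ k, S.symm.R k → S'.symm.R k) ∧
      ∀ k, Nonempty (S.symm.V k) → Nonempty (S'.symm.V k) := by
  refine ⟨v.st hf h hy, ⟨v.ob hf h hy⟩, ?_, ?_⟩
  · rintro k ⟨c, h1, h2, h3⟩
    refine ⟨c, fun z e h4 => h1 z e ((v.pn_y hy z e).1 h4), h2, fun l => ?_⟩
    have h5 : (v.st hf h hy).symm.i (ie f y l) = S.symm.i (ie f y l) := v.jn_y hy l
    rw [h5]
    exact h3 l
  · rintro k ⟨w⟩
    have h5 : ∀ l, (v.st hf h hy).symm.i (ie f y l) = S.symm.i (ie f y l) := fun l => v.jn_y hy l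
    refine ⟨⟨w.Z, w.r, w.hZ, fun z e h4 => (v.pn_y hy z e).2 (w.hZx z e h4), w.hex, w.hb, fun e => ?_, ?_⟩⟩
    · rw [w.hbd e]
      simp only [h5]
    · rw [h5]
      rcases w.hr with h6 | h6
      · exact Or.inl h6
      · exact Or.inr fun z => (v.pn_y hy z _).2 (h6 z)

end Pool.Agent.PP
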