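import Pool.Agent.Lib_MP_7c0803_x.RelA

/-!
# [X-E4] Two obstructions

`z = x.2`.

[X-E4] `two_V`: `v : S.V j`, `v' : S.V k`, `j ≠ k`.  `U z = Z z ∪ Z' z`, `I z = Z z ∩ Z' z`.  `#U z - #U (!z) + #I z - #I (!z) = 6`; the third edge `T l`
(`l ≠ j, k`) is in `I z`, not in `I (!z)` and `I (!z) ⊆ I z`; with `card3` `#I z ≥ #I (!z) + 3`, so `#U z ≤ #U (!z) + 3`, and `T 0, T 1, T 2` are in
`U z \ U (!z)`.  So `U` is an obstruction for `j` with `r = T j` (if `v'.Z z (T j)`: by `hbd` for `v'`, `j ≠ k`); use `contrT`.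
-/

set_option autoImplicit false

open Finset Function

namespace Pool.Agent.PP

universe u v

variable {E : Type u} {A : Type v} {B : CB E} {f : Fin 3 → Equiv.Perm A} {x y : A × Bool}

/-- an obstruction has three more edges on the side of `x` -/
lemma Star.V.ncard_eq [Finite E] (hf : Smp f) {S : Star B f x y} {j : Fin 3} (v : S.V j) :
    {e | v.Z x.2 e}.ncard = {e | v.Z (!x.2) e}.ncard + 3 := by
  classical
  set g : Fin 3 → E := fun l => if l = j then v.r else S.T l with hg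
  have hinj : Injective g := by
    intro a b hab
    simp only [hg] at hab
    by_cases ha : a = j <;> by_cases hb : b = j
    · rw [ha, hb]
    · rw [if_pos ha, if_neg hb] at hab
      exfalso
      rcases v.hr with h1 | h1
      · exact hb (S.T_inj hf (by rw [← hab, h1]; rfl))
      · exact S.T_ne b (by rw [← hab]; exact h1 _)
    · rw [if_neg ha, if_pos hb] at hab
      exfalso
      rcases v.hr with h1 | h1
      · exact ha (S.T_inj hf (by rw [hab, h1]; rfl))
      · exact S.T_ne a (by rw [hab]; exact h1 _)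
    · rw [if_neg ha, if_neg hb] at hab
      exact S.T_inj hf hab
  have hD : {e | v.Z x.2 e} \ {e | v.Z (!x.2) e} = Set.range g := by
    ext e
    rw [Set.mem_sdiff, Set.mem_ofPred_eq, Set.mem_ofPred_eq, v.hbd]
    constructor
    · rintro (⟨l, hl, rfl⟩ | rfl)
      · exact ⟨l, by simp only [hg, if_neg hl]; rfl⟩
      · exact ⟨j, by simp [hg]⟩
    · rintro ⟨l, rfl⟩
      by_cases hl : l = j
      · right
        simp [hg, hl]
      · left
        exact ⟨l, hl, by simp only [hg, if_neg hl]; rfl⟩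
  have h3 : (Set.range g).ncard = 3 := by
    rw [← Set.image_univ, Set.ncard_image_of_injective _ hinj, Set.ncard_univ]
    simp
  have h4 := Set.ncard_sdiff_add_ncard_of_subset (s := {e | v.Z (!x.2) e}) (t := {e | v.Z x.2 e})
    (fun e he => v.hb e he)
  rw [hD, h3] at h4
  omega

theorem Star.two_V [Finite E] (hf : Smp f) (S : Star B f x y) {j k : Fin 3} (hjk : j ≠ k) (v : S.V j) (v' : S.V k) :
    Nonempty (OCtr B f) := by
  classical
  -- no edge `T l` has its other end in one of the sets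
  have hnT : ∀ l, ¬ v.Z (!x.2) (S.T l) := fun l h => S.T_ne l (v.hZx _ _ h)
  have hnT' : ∀ l, ¬ v'.Z (!x.2) (S.T l) := fun l h => S.T_ne l (v'.hZx _ _ h)
  obtain ⟨l, hlj, hlk⟩ : ∃ l : Fin 3, l ≠ j ∧ l ≠ k :=
    (by decide : ∀ j k : Fin 3, ∃ l : Fin 3, l ≠ j ∧ l ≠ k) j k
  -- every `T i` is in the union
  have hU : ∀ i, v.Z x.2 (S.T i) ∨ v'.Z x.2 (S.T i) := by
    intro i
    by_cases hi : i = j
    · right
      subst hi
      exact v'.Z_T hjk
    · exact Or.inl (v.Z_T hi)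
  have c1 := v.ncard_eq hf
  have c2 := v'.ncard_eq hf
  -- union and intersection
  have u1 := Set.ncard_union_add_ncard_inter {e | v.Z x.2 e} {e | v'.Z x.2 e}
  have u2 := Set.ncard_union_add_ncard_inter {e | v.Z (!x.2) e} {e | v'.Z (!x.2) e}
  have d1 : 3 ∣ ({e | v.Z x.2 e} ∩ {e | v'.Z x.2 e}).ncard := by
    refine card3 B x.2 _ (fun e => ?_)
    simp only [Set.mem_inter_iff, Set.mem_ofPred_eq]
    rw [v.hZ, v'.hZ]
  have d2 : 3 ∣ ({e | v.Z (!x.2) e} ∩ {e | v'.Z (!x.2) e}).ncard := by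
    refine card3 B (!x.2) _ (fun e => ?_)
    simp only [Set.mem_inter_iff, Set.mem_ofPred_eq]
    rw [v.hZ, v'.hZ]
  have lt1 : ({e | v.Z (!x.2) e} ∩ {e | v'.Z (!x.2) e}).ncard < ({e | v.Z x.2 e} ∩ {e | v'.Z x.2 e}).ncard := by
    refine Set.ncard_lt_ncard ?_ (Set.toFinite _)
    refine ⟨fun e he => ⟨v.hb e he.1, v'.hb e he.2⟩, fun h => ?_⟩
    have h1 : S.T l ∈ {e | v.Z x.2 e} ∩ {e | v'.Z x.2 e} := ⟨v.Z_T hlj, v'.Z_T hlk⟩
    exact hnT l (h h1).1
  have le2 : ({e | v.Z x.2 e} ∪ {e | v'.Z x.2 e}).ncard ≤ ({e | v.Z (!x.2) e} ∪ {e | v'.Z (!x.2) e}).ncard + 3 := by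
    omega
  -- the edges `T i` are the only ones in the difference
  have sub : ({e | v.Z (!x.2) e} ∪ {e | v'.Z (!x.2) e}) ⊆ ({e | v.Z x.2 e} ∪ {e | v'.Z x.2 e}) := by
    rintro e (he | he)
    · exact Or.inl (v.hb e he)
    · exact Or.inr (v'.hb e he)
  have c3 := Set.ncard_sdiff_add_ncard_of_subset sub
  have hr3 : (Set.range S.T).ncard = 3 := by
    rw [← Set.image_univ, Set.ncard_image_of_injective _ (fun a b h => S.T_inj hf h), Set.ncard_univ]
    simp
  have hsub : Set.range S.T ⊆ ({e | v.Z x.2 e} ∪ {e | v'.Z x.2 e}) \ ({e | v.Z (!x.2) e} ∪ {e | v'.Z (!x.2) e}) := by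
    rintro e ⟨i, rfl⟩
    refine ⟨hU i, ?_⟩
    rintro (h | h)
    · exact hnT i h
    · exact hnT' i h
  have heq : Set.range S.T = ({e | v.Z x.2 e} ∪ {e | v'.Z x.2 e}) \ ({e | v.Z (!x.2) e} ∪ {e | v'.Z (!x.2) e}) :=
    Set.eq_of_subset_of_ncard_le hsub (by omega) (Set.toFinite _)
  let w : S.V j :=
    { Z := fun z e => v.Z z e ∨ v'.Z z e
      r := S.T j
      hZ := fun z e => by rw [v.hZ, v'.hZ]
      hZx := fun z e h => h.elim (v.hZx z e) (v'.hZx z e)
      hex := fun z z' h => h.elim (v.hex z z') (v'.hex z z')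
      hb := fun e h => h.elim (fun h => Or.inl (v.hb e h)) (fun h => Or.inr (v'.hb e h))
      hbd := by
        intro e
        have h1 : (e ∈ ({e | v.Z x.2 e} ∪ {e | v'.Z x.2 e}) \ ({e | v.Z (!x.2) e} ∪ {e | v'.Z (!x.2) e})) ↔
            e ∈ Set.range S.T := by rw [heq]
        refine Iff.trans h1 ?_
        constructor
        · rintro ⟨i, rfl⟩
          by_cases hi : i = j
          · exact Or.inr (by rw [hi])
          · exact Or.inl ⟨i, hi, rfl⟩
        · rintro (⟨i, -, rfl⟩ | rfl)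
          · exact ⟨i, rfl⟩
          · exact ⟨j, rfl⟩
      hr := Or.inl rfl }
  exact S.contrT w rfl

end Pool.Agent.PP
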