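import Pool.Agent.Lib_MP_7c0803_x.Fib
import Pool.Agent.Lib_MP_7c0803_x.RelB
import Pool.Agent.Lib_MP_7c0803_x.RelC
import Pool.Agent.Lib_MP_7c0803_x.NPC

/-!
# Constant parity removes the two extra edges
-/

set_option autoImplicit false

open Finset Function

namespace Pool.Agent.PP

universe u v

variable {E : Type u} {A : Type v} {B : CB E} {f : Fin 3 → Equiv.Perm A} {x y : A × Bool}

theorem Star.noV (hf : Smp f) (hO : ¬ Nonempty (OCtr B f)) (S : Star B f x y) {j : Fin 3} (h : nb f x j = y) :
    ¬ Nonempty (S.V j) := by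
  rintro ⟨v⟩
  rcases v.hr with h1 | h1
  · exact hO (S.contrT v h1)
  · exact hO (S.contrI hf v h1 h)

theorem Star.ex_q [Finite E] (hf : Smp f) (hC : B.Cn) (hO : ¬ Nonempty (OCtr B f)) (S : Star B f x y) :
    ∃ q, ∀ j, j ≠ q → S.R j := by
  by_cases h : ∀ j, S.R j
  · exact ⟨0, fun j _ => h j⟩
  · push Not at h
    obtain ⟨q, hq⟩ := h
    refine ⟨q, fun j hj => ?_⟩
    by_contra hR
    obtain ⟨v⟩ := (S.RV hf hC j).resolve_left hR
    obtain ⟨v'⟩ := (S.RV hf hC q).resolve_left hq
    exact hO (S.two_V hf hj v v')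

theorem Star.main [Fintype E] [Fintype A] [DecidableEq A] (hg : Good f) (hC : B.Cn) (hp : B.PC) (S : Star B f x y) :
    Nonempty (OCtr B f) := by
  by_contra hO
  have hf := hg.smp
  have key : ∀ {x y : A × Bool} (S : Star B f x y) {j k : Fin 3}, Both f x j y k → S.R j → S.symm.R k → False :=
    fun S _ _ hb h1 h2 => S.not_PC hf hb h1 h2 hp
  by_cases hadj : ∃ j, nb f x j = y
  · obtain ⟨j, hj⟩ := hadj
    have h1 := (S.RV hf hC j).resolve_right (S.noV hf hO hj)
    have h2 := (S.symm.RV hf hC j).resolve_right (S.symm.noV hf hO (by rw [← hj, nb_nb]))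
    have h3 := hg.adj x j
    rw [hj] at h3
    exact key S h3 h1 h2
  · push Not at hadj
    obtain ⟨q, hq⟩ := S.ex_q hf hC hO
    obtain ⟨q', hq'⟩ := S.symm.ex_q hf hC hO
    rcases hg.non x y S.hxy hadj q q' with ⟨j, k, hj, hk, hb⟩ | ⟨hn, ⟨j, k, hk, hb⟩, j', k', hj', hb'⟩ |
      ⟨⟨j, k, hk, hb⟩, j', k', hj', hk', hb'⟩
    · exact key S hb (hq j hj) (hq' k hk)
    · by_cases h1 : S.R q
      · have h2 : S.R j := by
          by_cases h : j = q
          · rw [h]; exact h1
          · exact hq j h
        exact key S hb h2 (hq' k hk)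
      by_cases h2 : S.symm.R q'
      · have h3 : S.symm.R k' := by
          by_cases h : k' = q'
          · rw [h]; exact h2
          · exact hq' k' h
        exact key S hb' (hq j' hj') h3
      obtain ⟨v⟩ := (S.RV hf hC q).resolve_left h1
      have v' := (S.symm.RV hf hC q').resolve_left h2
      rcases v.hr with h3 | h3
      · exact hO (S.contrT v h3)
      · obtain ⟨S', -, -, h4⟩ := S.relabel hf v h3 (hadj q)
        exact S'.symm.noV hf hO hn.symm (h4 q' v')
    · by_cases h1 : S.R q
      · have h2 : S.R j := by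
          by_cases h : j = q
          · rw [h]; exact h1
          · exact hq j h
        exact key S hb h2 (hq' k hk)
      obtain ⟨v⟩ := (S.RV hf hC q).resolve_left h1
      rcases v.hr with h3 | h3
      · exact hO (S.contrT v h3)
      · obtain ⟨S', ⟨v'⟩, h4, -⟩ := S.relabel hf v h3 (hadj q)
        have h5 : S'.R j' := by
          refine (S'.RV hf hC j').resolve_right ?_
          rintro ⟨w⟩
          exact hO (S'.two_V hf hj' w v')
        exact key S' hb' h5 (h4 k' (hq' k' hk'))

end Pool.Agent.PP
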