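import Pool.Agent.Lib_MP_7c0803_x.Cnt1

/-!
# [X-E1], [X-E2] Obstructions which give a contraction

`v : S.V j`, `z = x.2`.

[X-E1] `contrT` (`v.r = T j`): `p' z e = y` if `p z e = x` and `¬ v.Z z e`, else `p z e`; `i` is the same.  (`v.Z z (T k)` for all `k`; an edge with
`p false e = p true e = x` has `Z false e ↔ Z true e` by `hb`, `hbd`; both ends of `ex z` are now in the fibre of `y`.)

[X-E2] `contrI` (`v.r` inside, `nb f x j = y`): the same `p'`; `i' q = v.r` if `q = ie f x j`, else `i q`.  (`T j` is now inside the fibre of `y`.)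
-/

set_option autoImplicit false

open Finset Function

namespace Pool.Agent.PP

universe u v

variable {E : Type u} {A : Type v} {B : CB E} {f : Fin 3 → Equiv.Perm A} {x y : A × Bool}

open Classical in
/-- the changed projection -/
noncomputable def Star.V.p' {S : Star B f x y} {j : Fin 3} (v : S.V j) (z : Bool) (e : E) : A × Bool :=
  if S.p z e = x ∧ ¬ v.Z z e then y else S.p z e

lemma Star.V.p'_y {S : Star B f x y} {j : Fin 3} (v : S.V j) {z : Bool} {e : E} (h : S.p z e = x) (h' : ¬ v.Z z e) :
    v.p' z e = y := by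
  unfold Star.V.p'
  rw [if_pos ⟨h, h'⟩]

lemma Star.V.p'_Z {S : Star B f x y} {j : Fin 3} (v : S.V j) {z : Bool} {e : E} (h : v.Z z e) :
    v.p' z e = S.p z e := by
  unfold Star.V.p'
  rw [if_neg (fun h1 => h1.2 h)]

lemma Star.V.p'_ne {S : Star B f x y} {j : Fin 3} (v : S.V j) {z : Bool} {e : E} (h : S.p z e ≠ x) :
    v.p' z e = S.p z e := by
  unfold Star.V.p'
  rw [if_neg (fun h1 => h h1.1)]

lemma Star.V.p'_r {S : Star B f x y} {j : Fin 3} (v : S.V j) (z : Bool) (e : E) :
    v.p' z (B.r z e) = v.p' z e := by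
  unfold Star.V.p'
  rw [S.hp, v.hZ]

lemma Star.V.Z_T {S : Star B f x y} {j : Fin 3} (v : S.V j) {k : Fin 3} (hk : k ≠ j) : v.Z x.2 (S.T k) :=
  ((v.hbd (S.T k)).2 (Or.inl ⟨k, hk, rfl⟩)).1

/-- both ends of `ex z` are in the new fibre of `y` -/
lemma Star.V.p'_ex {S : Star B f x y} {j : Fin 3} (v : S.V j) (z : Bool) :
    v.p' false (S.ex z) = v.p' true (S.ex z) := by
  have h1 : v.p' z (S.ex z) = y := v.p'_y (S.hx z) (v.hex z z)
  have h2 : v.p' (!z) (S.ex z) = y := by
    rw [v.p'_ne (by rw [S.hy]; exact S.hxy.symm), S.hy]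
  cases z
  · exact h1.trans h2.symm
  · exact h2.trans h1.symm

/-- an edge with both ends in a fibre of `S` has both ends in one fibre of `p'`, or it is `v.r` -/
lemma Star.V.p'_in {S : Star B f x y} {j : Fin 3} (v : S.V j) {e : E} (h : S.p false e = S.p true e) :
    v.p' false e = v.p' true e ∨ e = v.r := by
  by_cases hx : S.p false e = x
  · have hx' : S.p true e = x := h.symm.trans hx
    have hz : ∀ z, S.p z e = x := by
      intro z
      cases z
      · exact hx
      · exact hx'
    by_cases hr : e = v.r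
    · exact Or.inr hr
    · left
      have key : v.Z x.2 e → v.Z (!x.2) e := by
        intro h1
        by_contra h2
        rcases (v.hbd e).1 ⟨h1, h2⟩ with ⟨k, -, h3⟩ | h3
        · exact S.T_ne k (by rw [S.T_def, h3]; exact hz _)
        · exact hr h3
      have iff1 : v.Z x.2 e ↔ v.Z (!x.2) e := ⟨key, v.hb e⟩
      have iff2 : v.Z false e ↔ v.Z true e := by
        revert iff1
        generalize x.2 = z
        cases z
        · exact fun h => h
        · exact fun h => h.symm
      by_cases h1 : v.Z false e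
      · rw [v.p'_Z h1, v.p'_Z (iff2.1 h1), h]
      · rw [v.p'_y hx h1, v.p'_y hx' (fun h2 => h1 (iff2.2 h2))]
  · left
    rw [v.p'_ne hx, v.p'_ne (fun h1 => hx (h.trans h1)), h]

theorem Star.contrT (S : Star B f x y) {j : Fin 3} (v : S.V j) (h : v.r = S.T j) : Nonempty (OCtr B f) := by
  have hZT : ∀ k, v.Z x.2 (S.T k) := by
    intro k
    by_cases hk : k = j
    · subst hk
      rw [← h]
      exact ((v.hbd v.r).2 (Or.inr rfl)).1
    · exact v.Z_T hk
  refine ⟨⟨v.p', v.p'_r, S.i, ?_, ?_⟩⟩
  · intro z q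
    by_cases h1 : S.p z (S.i q) = x
    · obtain ⟨h2, h3⟩ := S.i_p h1
      have h4 : v.Z z (S.i q) := by
        rw [h3, h2]
        exact hZT q.2
      rw [v.p'_Z h4, S.hi]
    · rw [v.p'_ne h1, S.hi]
  · intro e
    rcases S.hin e with h1 | h1 | ⟨z, rfl⟩
    · rcases v.p'_in h1 with h2 | h2
      · exact Or.inl h2
      · right
        exact ⟨ie f x j, by rw [← S.T_def, ← h, h2]⟩
    · exact Or.inr h1
    · exact Or.inl (v.p'_ex z)

open Classical in
theorem Star.contrI (hf : Smp f) (S : Star B f x y) {j : Fin 3} (v : S.V j) (h : ∀ z, S.p z v.r = x) (hy : nb f x j = y) :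
    Nonempty (OCtr B f) := by
  have hZr := (v.hbd v.r).2 (Or.inr rfl)
  refine ⟨⟨v.p', v.p'_r, fun q => if q = ie f x j then v.r else S.i q, ?_, ?_⟩⟩
  · intro z q
    by_cases hq : q = ie f x j
    · simp only [hq, if_true]
      by_cases hz : z = x.2
      · subst hz
        rw [v.p'_Z hZr.1, h, en_ie]
      · have hz' : z = !x.2 := by
          revert hz
          generalize x.2 = w
          cases z <;> cases w <;> simp
        subst hz'
        rw [v.p'_y (h _) hZr.2, en_ie', hy]
    · simp only [if_neg hq]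
      by_cases h1 : S.p z (S.i q) = x
      · obtain ⟨h2, h3⟩ := S.i_p h1
        have hj : q.2 ≠ j := by
          intro h4
          apply hq
          rw [h3, ← h4]
        have h4 : v.Z z (S.i q) := by
          rw [h3, h2]
          exact v.Z_T hj
        rw [v.p'_Z h4, S.hi]
      · rw [v.p'_ne h1, S.hi]
  · intro e
    rcases S.hin e with h1 | ⟨q, h1⟩ | ⟨z, rfl⟩
    · rcases v.p'_in h1 with h2 | h2
      · exact Or.inl h2
      · right
        exact ⟨ie f x j, by simp only [if_true]; exact h2.symm⟩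
    · by_cases hq : q = ie f x j
      · left
        have he : S.T j = e := by rw [S.T_def, ← hq, h1]
        subst he
        have hnZ : ¬ v.Z x.2 (S.T j) := by
          intro h2
          have h3 : ¬ v.Z (!x.2) (S.T j) := fun h4 => S.T_ne j (v.hZx _ _ h4)
          rcases (v.hbd (S.T j)).1 ⟨h2, h3⟩ with ⟨k, hk, h4⟩ | h4
          · exact hk (S.T_inj hf h4)
          · exact S.T_ne j (by rw [h4]; exact h _)
        have h2 : v.p' x.2 (S.T j) = y := v.p'_y (S.T_p j) hnZ
        have h3 : v.p' (!x.2) (S.T j) = y := by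
          rw [v.p'_ne (S.T_ne j), S.T_p', hy]
        revert h2 h3
        generalize x.2 = z
        intro h2 h3
        cases z
        · exact h2.trans h3.symm
        · exact h3.trans h2.symm
      · right
        exact ⟨q, by simp only [if_neg hq]; exact h1⟩
    · exact Or.inl (v.p'_ex z)

end Pool.Agent.PP
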