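import Pool.Agent.Lib_MP_7c0803_x.Gk
import Pool.Agent.Lib_MP_7c0803_x.Cyc1

/-!
# Circulant graphs: translation of certificates
-/

set_option autoImplicit false

open Finset Function

namespace Pool.Agent.PP

variable {N : ℕ} (a b : ZMod N)

lemma ie_shift (w : ZMod N × Bool) (c : ZMod N) (l : Fin 3) :
    ie (cyf N a b) (w.1 + c, w.2) l = ((ie (cyf N a b) w l).1 + c, l) := by
  obtain ⟨u, z⟩ := w
  refine Prod.ext ?_ rfl
  cases z
  · rfl
  · show (cyf N a b l).symm (u + c) = (cyf N a b l).symm u + c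
    rw [Equiv.symm_apply_eq]
    show u + c = (cyf N a b l).symm u + c + dl a b l
    have h : (cyf N a b l).symm u + dl a b l = u := (cyf N a b l).apply_symm_apply u
    conv_lhs => rw [← h]
    abel

lemma cok_shift {x y : ZMod N × Bool} {j k : Fin 3} {φ : ZMod N × Fin 3 → Fin 3} (c : ZMod N)
    (h : Cok (cyf N a b) x j y k φ) : Cok (cyf N a b) (x.1 + c, x.2) j (y.1 + c, y.2) k (fun q => φ (q.1 - c, q.2)) := by
  have key : ∀ (w : ZMod N × Bool) (l : Fin 3), (fun q : ZMod N × Fin 3 => φ (q.1 - c, q.2)) (ie (cyf N a b) (w.1 + c, w.2) l) =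
      φ (ie (cyf N a b) w l) := by
    intro w l
    rw [ie_shift]
    show φ ((ie (cyf N a b) w l).1 + c - c, l) = _
    rw [add_sub_cancel_right]
    rfl
  obtain ⟨h1, h2, h3⟩ := h
  refine ⟨?_, ?_, ?_⟩
  · intro w hx hy
    obtain ⟨u, rfl⟩ : ∃ u : ZMod N × Bool, w = (u.1 + c, u.2) := ⟨(w.1 - c, w.2), by simp⟩
    have hx' : u ≠ x := fun h => hx (by rw [h])
    have hy' : u ≠ y := fun h => hy (by rw [h])
    have h4 : (fun l => (fun q : ZMod N × Fin 3 => φ (q.1 - c, q.2)) (ie (cyf N a b) (u.1 + c, u.2) l)) =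
        fun l => φ (ie (cyf N a b) u l) := funext fun l => key u l
    rw [h4]
    exact h1 u hx' hy'
  · intro l
    exact (key x l).trans (h2 l)
  · intro l
    exact (key y l).trans (h3 l)

lemma cpar_shift [NeZero N] (x y : ZMod N × Bool) (φ : ZMod N × Fin 3 → Fin 3) (c : ZMod N) :
    cpar (cyf N a b) (x.1 + c, x.2) (y.1 + c, y.2) (fun q => φ (q.1 - c, q.2)) = cpar (cyf N a b) x y φ := by
  have key : ∀ (w : ZMod N × Bool) (l : Fin 3), (fun q : ZMod N × Fin 3 => φ (q.1 - c, q.2)) (ie (cyf N a b) (w.1 + c, w.2) l) =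
      φ (ie (cyf N a b) w l) := by
    intro w l
    rw [ie_shift]
    show φ ((ie (cyf N a b) w l).1 + c - c, l) = _
    rw [add_sub_cancel_right]
    rfl
  unfold cpar
  symm
  refine Finset.sum_bij' (fun w _ => ((w.1 + c, w.2) : ZMod N × Bool)) (fun w _ => ((w.1 - c, w.2) : ZMod N × Bool)) ?_ ?_ ?_ ?_ ?_
  · intro w hw
    simp only [Finset.mem_filter, Finset.mem_univ, true_and] at hw ⊢
    refine ⟨fun h => hw.1 ?_, fun h => hw.2 ?_⟩
    · have e1 := congrArg Prod.fst h
      have e2 := congrArg Prod.snd h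
      exact Prod.ext (add_right_cancel e1) e2
    · have e1 := congrArg Prod.fst h
      have e2 := congrArg Prod.snd h
      exact Prod.ext (add_right_cancel e1) e2
  · intro w hw
    simp only [Finset.mem_filter, Finset.mem_univ, true_and] at hw ⊢
    refine ⟨fun h => hw.1 ?_, fun h => hw.2 ?_⟩
    · rw [← h]
      simp
    · rw [← h]
      simp
  · intro w _
    simp
  · intro w _
    simp
  · intro w _
    rw [← key w 0, ← key w 1]

theorem Both.shift [NeZero N] {x y : ZMod N × Bool} {j k : Fin 3} (c : ZMod N) (h : Both (cyf N a b) x j y k) :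
    Both (cyf N a b) (x.1 + c, x.2) j (y.1 + c, y.2) k := by
  obtain ⟨φ, φ', h1, h2, h3⟩ := h
  refine ⟨_, _, cok_shift a b c h1, cok_shift a b c h2, ?_⟩
  rw [cpar_shift, cpar_shift]
  exact h3

/-- the number of a vertex -/
def viN (N : ℕ) (w : ZMod N × Bool) : ℕ := w.1.val + if w.2 then N else 0

/-- the number of an edge -/
def eiN (N : ℕ) (q : ZMod N × Fin 3) : ℕ := 3 * q.1.val + q.2.val

/-- the number of the second vertex after moving the vertex number `v` to the position `0` -/
def shN (N v w : ℕ) : ℕ := (if Nat.ble N w then N else 0) + (w % N + N - v % N) % N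

/-- the table for all vertices from the table for the two vertices in the position `0` -/
def prN (N : ℕ) (tb : List (List (List (ℕ × ℕ × ℕ × ℕ)))) (v w : ℕ) : List (ℕ × ℕ) :=
  tbp (tbe tb (if Nat.ble N v then 1 else 0) (shN N v w))

/-- `Good` from the certificates for the vertices in the position `0` -/
theorem good_cyf [NeZero N] (T NT : ℕ) (tb : List (List (List (ℕ × ℕ × ℕ × ℕ))))
    (h1 : ∀ w, viN N w < 2 * N) (h2 : Injective (viN N)) (h3 : ∀ v < 2 * N, ∃ w, viN N w = v)
    (h4 : ∀ w, w.2 = true ↔ N ≤ viN N w) (h5 : ∀ w (l : Fin 3), evx T (viN N w) l.val = eiN N (ie (cyf N a b) w l))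
    (h6 : ∀ w (l : Fin 3), evx NT (viN N w) l.val = viN N (nb (cyf N a b) w l)) (hs : Smp (cyf N a b))
    (h7 : ∀ x y : ZMod N × Bool, viN N (y.1 - x.1, y.2) = shN N (viN N x) (viN N y))
    (h8 : ∀ z : Bool, viN N (0, z) = if z then N else 0)
    (hc0 : ((List.range (2 * N)).all fun y => tbc T N 0 y (tbe tb 0 y)) = true)
    (hc1 : ((List.range (2 * N)).all fun y => tbc T N N y (tbe tb 1 y)) = true)
    (hg : gck NT N (prN N tb) = true) : Good (cyf N a b) := by
  refine good_of_gck (cyf N a b) NT N (viN N) h1 h2 h6 hs (prN N tb) ?_ hg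
  intro x y j k _ hm
  have key : Both (cyf N a b) ((0, x.2) : ZMod N × Bool) j (y.1 - x.1, y.2) k := by
    unfold prN at hm
    rw [← h7 x y] at hm
    have h9 := h1 (y.1 - x.1, y.2)
    have hz : Nat.ble N (viN N x) = x.2 := by
      have h10 := h4 x
      cases hx : x.2
      · rw [hx] at h10
        rw [← Bool.not_eq_true, Nat.ble_eq]
        exact fun h => absurd (h10.2 h) (by decide)
      · rw [hx] at h10
        rw [Nat.ble_eq]
        exact h10.1 rfl
    rw [hz] at hm
    cases hx : x.2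
    · rw [hx] at hm
      obtain ⟨n, n', h⟩ := tbc_mem ((List.all_eq_true.1 hc0) _ (List.mem_range.2 h9)) hm
      refine both_of_ck (cyf N a b) T N (viN N) (eiN N) h1 h2 h3 h4 h5 _ _ j k n n' ?_
      rw [h8 false]
      exact h
    · rw [hx] at hm
      obtain ⟨n, n', h⟩ := tbc_mem ((List.all_eq_true.1 hc1) _ (List.mem_range.2 h9)) hm
      refine both_of_ck (cyf N a b) T N (viN N) (eiN N) h1 h2 h3 h4 h5 _ _ j k n n' ?_
      rw [h8 true]
      exact h
  have h := key.shift a b x.1
  have e1 : (((0, x.2) : ZMod N × Bool).1 + x.1, ((0, x.2) : ZMod N × Bool).2) = x := by simp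
  have e2 : (((y.1 - x.1, y.2) : ZMod N × Bool).1 + x.1, ((y.1 - x.1, y.2) : ZMod N × Bool).2) = y := by simp
  rw [e1, e2] at h
  exact h

end Pool.Agent.PP
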