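import Pool.Agent.Lib_MP_7c0803_x.Cnt2

/-!
# [X-M1] The fibres are connected

[X-M1] `fib_conn`: a set `Z` of vertices of the fibre of `w` (`Z z e`: the `z`-end of `e` is in the set) without edges to the rest of the
fibre is empty or the whole fibre.  Three edges leave the fibre (`OCtr.bd`), so `b` edges leave `Z` and `3 - b` edges leave the rest `Z'`;
if both are nonempty then `b ≠ 0` and `3 - b ≠ 0` by `hC` (a closed set of edges: the edges with both ends in `Z` form a set closed under both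
rotations), so one of the numbers is `1`: against `bd_par` (for the labelling `z, e ↦ Z z e` and a proper colouring, `exists_P`: every colour
occurs an odd number of times).
-/

set_option autoImplicit false

open Finset Function

namespace Pool.Agent.PP

universe u v

variable {E : Type u} {A : Type v} {B : CB E} {f : Fin 3 → Equiv.Perm A}

/-- exactly one edge cannot leave a set of vertices -/
private lemma fib_conn_one [Finite E] (B : CB E) (Z : Bool → E → Prop) (hZ : ∀ z e, Z z (B.r z e) ↔ Z z e) (e0 : E)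
    (h0 : ∀ e, ¬ (Z false e ↔ Z true e) ↔ e = e0) : False := by
  obtain ⟨c, hc⟩ := exists_P B
  rw [CB.P_r] at hc
  have h1 := bd_par (W := Prop) B (fun z e => Z z e) (fun z e => propext (hZ z e)) True c (fun z e _ => hc z e) (c e0 + 1)
  have hs1 : ({e | ¬ ((fun z e => Z z e) false e = True ↔ (fun z e => Z z e) true e = True) ∧ c e = c e0 + 1} : Set E) = ∅ := by
    ext e
    simp only [Set.mem_setOf_eq, Set.mem_empty_iff_false, iff_false, not_and, eq_iff_iff, iff_true]
    intro h2 h3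
    rw [(h0 e).1 h2] at h3
    revert h3
    generalize c e0 = a
    revert a
    decide
  have hs2 : ({e | ¬ ((fun z e => Z z e) false e = True ↔ (fun z e => Z z e) true e = True)} : Set E) = {e0} := by
    ext e
    simp only [Set.mem_setOf_eq, Set.mem_singleton_iff, eq_iff_iff, iff_true]
    exact h0 e
  rw [hs1, hs2, Set.ncard_empty, Set.ncard_singleton] at h1
  revert h1
  decide

private lemma fib_conn_fin (P : Fin 3 → Prop) (h1 : ∃ k, P k) (h2 : ∃ k, ¬ P k) :
    (∃ k, P k ∧ ∀ l, P l → l = k) ∨ ∃ k, ¬ P k ∧ ∀ l, ¬ P l → l = k := by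
  classical
  have key : ∀ b : Fin 3 → Bool, (∃ k, b k = true) → (∃ k, ¬ b k = true) →
      (∃ k, b k = true ∧ ∀ l, b l = true → l = k) ∨ ∃ k, ¬ b k = true ∧ ∀ l, ¬ b l = true → l = k := by decide
  have := key (fun k => decide (P k))
  simp only [decide_eq_true_eq] at this
  exact this h1 h2

theorem fib_conn [Finite E] (hC : B.Cn) (hf : Smp f) (C : OCtr B f) (w : A × Bool) (Z : Bool → E → Prop) (hZ : ∀ z e, Z z (B.r z e) ↔ Z z e)
    (hw : ∀ z e, Z z e → C.p z e = w) (hin : ∀ e, C.p false e = w → C.p true e = w → (Z false e ↔ Z true e)) :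
    (∀ z e, ¬ Z z e) ∨ ∀ z e, C.p z e = w → Z z e := by
  classical
  by_contra hcon
  push Not at hcon
  obtain ⟨⟨z1, e1, h1⟩, ⟨z2, e2, h2, h2'⟩⟩ := hcon
  have hcl : ∀ Y : Bool → E → Prop, (∀ z e, Y z (B.r z e) ↔ Y z e) → (∀ z e, Y z e → C.p z e = w) → (∃ z e, Y z e) →
      ∃ e, ¬ (Y false e ↔ Y true e) := by
    rintro Y hY hYw ⟨z, e, hz⟩
    by_contra hne
    have hne1 : ∀ e, Y false e ↔ Y true e := by
      intro e
      by_contra h
      exact hne ⟨e, h⟩
    have hne' : ∀ z e, Y z e ↔ Y false e := by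
      intro z e
      cases z
      · exact Iff.rfl
      · exact (hne1 e).symm
    have hu : {e | Y false e} = Set.univ := hC _ ⟨e, (hne' z e).1 hz⟩
      (fun e he => ⟨(hY false e).2 he, (hne1 _).2 ((hY true e).2 ((hne1 e).1 he))⟩)
    have h3 : ∀ e, Y false e := by
      intro e
      have : e ∈ {e | Y false e} := by
        rw [hu]
        trivial
      exact this
    have h4 := hYw (!w.2) (C.i (ie f w 0)) ((hne' _ _).2 (h3 _))
    rw [C.hi, en_ie'] at h4
    exact nb_ne f w 0 h4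
  have hZ' : ∀ z e, (fun z e => C.p z e = w ∧ ¬ Z z e) z (B.r z e) ↔ (fun z e => C.p z e = w ∧ ¬ Z z e) z e := by
    intro z e
    simp only [C.hp, hZ]
  have hsub : ∀ e, ¬ (Z false e ↔ Z true e) → ∃ k, C.i (ie f w k) = e := by
    intro e he
    apply (C.bd w e).1
    intro hiff
    apply he
    constructor
    · intro h3
      have h4 := hw false e h3
      exact (hin e h4 (hiff.1 h4)).1 h3
    · intro h3
      have h4 := hw true e h3
      exact (hin e (hiff.2 h4) h4).2 h3
  have hsub' : ∀ e, ¬ ((C.p false e = w ∧ ¬ Z false e) ↔ (C.p true e = w ∧ ¬ Z true e)) → ∃ k, C.i (ie f w k) = e := by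
    intro e he
    apply (C.bd w e).1
    intro hiff
    apply he
    constructor
    · rintro ⟨h3, h4⟩
      exact ⟨hiff.1 h3, fun h5 => h4 ((hin e h3 (hiff.1 h3)).2 h5)⟩
    · rintro ⟨h3, h4⟩
      exact ⟨hiff.2 h3, fun h5 => h4 ((hin e (hiff.2 h3) h3).1 h5)⟩
  have hex : ∀ k, ¬ ((C.p false (C.i (ie f w k)) = w ∧ ¬ Z false (C.i (ie f w k))) ↔
      (C.p true (C.i (ie f w k)) = w ∧ ¬ Z true (C.i (ie f w k)))) ↔
      ¬ ¬ (Z false (C.i (ie f w k)) ↔ Z true (C.i (ie f w k))) := by
    intro k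
    have h3 := (C.bd w (C.i (ie f w k))).2 ⟨k, rfl⟩
    have h4 := hw false (C.i (ie f w k))
    have h5 := hw true (C.i (ie f w k))
    tauto
  obtain ⟨e3, he3⟩ := hcl Z hZ hw ⟨z1, e1, h1⟩
  obtain ⟨k3, rfl⟩ := hsub e3 he3
  obtain ⟨e4, he4⟩ := hcl (fun z e => C.p z e = w ∧ ¬ Z z e) hZ' (fun z e h => h.1) ⟨z2, e2, h2, h2'⟩
  obtain ⟨k4, rfl⟩ := hsub' e4 he4
  rcases fib_conn_fin (fun k => ¬ (Z false (C.i (ie f w k)) ↔ Z true (C.i (ie f w k)))) ⟨k3, he3⟩ ⟨k4, (hex k4).1 he4⟩ with
    ⟨k, hk, hk'⟩ | ⟨k, hk, hk'⟩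
  · refine fib_conn_one B Z hZ (C.i (ie f w k)) ?_
    intro e
    constructor
    · intro h
      obtain ⟨l, rfl⟩ := hsub e h
      rw [hk' l h]
    · rintro rfl
      exact hk
  · refine fib_conn_one B (fun z e => C.p z e = w ∧ ¬ Z z e) hZ' (C.i (ie f w k)) ?_
    intro e
    constructor
    · intro h
      obtain ⟨l, rfl⟩ := hsub' e h
      rw [hk' l ((hex l).1 h)]
    · rintro rfl
      exact (hex k).2 hk

end Pool.Agent.PP
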